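import Pool.Agent.Lib.MP_5c0be7_lc.Sol

/-!
From elementary chains of models with long extenders to the three conclusions.
-/

namespace Pool.Agent.Lib.MP_5c0be7_lc

open ZFSet Cx Pool.Agent.Lib.MP_053343_lc
open Pool.Agent.Shared.LDefs (E cons tl img mem_img bun mem_bun app gr app_gr gr_congr app_eq)

/-- `M` has an extender with critical point `k` whose ultrapower contains the `V_l` of `M` and
moves `k` above `l`. -/
def StrTo (M : S) (k l : Ordinal.{0}) : Prop :=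
  ∃ Q j d D, Ext M Q j d D ∧ (∀ a < k, j a.toZFSet = a.toZFSet) ∧ l.toZFSet ∈ j k.toZFSet ∧
    ∀ x ∈ M, x.rank < l → x ∈ Q

variable {M P : S} {k l : Ordinal.{0}}

theorem Elem.rank_mem (h : Elem P M id) (p : ZF0 P) (m : ZF0 M) (hl : l.toZFSet ∈ P) {x : Z}
    (hx : x ∈ M) (e : x.rank < l) : x ∈ P := by
  obtain ⟨a, ha, -, h2⟩ := h.V p m hl (isOrdinal_toZFSet l)
  exact p.trans _ ha _ ((h2 x).2 ⟨hx, by simpa using e⟩)

/-- Extenders over elementary submodels make `k` strong. -/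
theorem strong_of (m : ZF0 M) (H : ∀ l, k < l → ∃ P, Elem P M id ∧ l.toZFSet ∈ P ∧ StrTo P k l) :
    Strong M k := fun l t hl ht => by
  obtain ⟨P, el, hP, Q, j, d, D, h, fx, cr, st⟩ := H (max l t) (lt_max_of_lt_right ht)
  have p := h.zf
  have q := h.zq
  have o : ∀ a ≤ max l t, a.toZFSet ∈ P := fun a ha => ha.eq_or_lt.elim (fun e => e ▸ hP)
    fun e => p.trans _ hP _ (Ordinal.toZFSet_mem_toZFSet_iff.2 e)
  have tP := o t (le_max_right _ _)
  have kP := o k (ht.le.trans (le_max_right _ _))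
  obtain ⟨a, ha, a1, a2⟩ := h.el.V p q tP (isOrdinal_toZFSet t)
  rw [Ordinal.rank_toZFSet] at a1
  have e : {x | x ∈ M ∧ x.rank < t} = {x | x ∈ a} := Set.ext fun x => ⟨fun c => (a1 x).2
    ⟨el.rank_mem p m tP c.1 c.2, c.2⟩, fun c => ⟨el.map _ ((a1 x).1 c).1, ((a1 x).1 c).2⟩⟩
  have e' : ∀ x ∈ M, x.rank < t → x ∈ a := fun x h1 h2 => (Set.ext_iff.1 e x).1 ⟨h1, h2⟩
  have ko := (h.el.iffU p q (fun p : Z => p.IsOrdinal) _ (by fun_prop) kP).1 (isOrdinal_toZFSet k)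
  have lk : l.toZFSet ∈ j k.toZFSet := (isOrdinal_toZFSet l).mem_of_subset_of_mem ko
    (Ordinal.toZFSet_subset_toZFSet_iff.2 (le_max_left l t)) cr
  refine ⟨j a, el.map _ (h.j_mem ha), j, fun x hx y hy => (a2 y).2 ⟨q.trans _ ((a2 x).1 hx).1 _ hy,
    (rank_lt_of_mem hy).trans ((a2 x).1 hx).2⟩, ?_, fun x h1 h2 =>
    (h.el.mem_iff (p.trans _ ha _ (e' x h1 h2)) ha).2 (e' x h1 h2), fun φ v hv => ?_, fx, lk,
    fun x h1 h2 => (a2 x).2 ⟨st x (el.rank_mem p m (o l (le_max_left _ _)) h1 h2)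
      (lt_max_of_lt_left h2), h2.trans ?_⟩⟩
  · rw [e]
    exact funIn_iff.2 (el.map _ (h.gr_mem ha))
  · rw [e]
    exact (h.el.rel p q ha).csat (e' _ m.empty (by simpa using zero_le.trans_lt ht))
      (h.el.empty p q) φ v fun x hx => e' x (hv x hx).1 (hv x hx).2
  · simpa using (rank_lt_of_mem lk).trans (rank_lt_of_mem ((h.el.mem_iff kP tP).2
      (Ordinal.toZFSet_mem_toZFSet_iff.2 ht)))

theorem not_sm_of (m : ZF0 M) (c : AC M) (km : k.toZFSet ∈ M)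
    (H : ∀ l, k < l → ∃ P, AC P ∧ Elem P M id ∧ l.toZFSet ∈ P ∧ StrTo P k l) :
    ¬ Sm M k.toZFSet := by
  rintro ⟨r, hr, d, hd, rz, ip⟩
  obtain ⟨g, hg, g1⟩ := ip.iz m c hd km
  have hX := m.insert km (m.insert hr (m.insert hd (m.insert hg (m.pow (m.pow km)))))
  set X := insert k.toZFSet (insert r (insert d (insert g (pow M (pow M k.toZFSet)))))
  have kX : k < X.rank := (Ordinal.rank_toZFSet k).symm.trans_lt (rank_lt_of_mem (mem_insert _ _))
  obtain ⟨P, ac, el, hP, Q, j, e, D, h, fx, cr, st⟩ := H X.rank kX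
  have p := h.zf
  have a : ∀ x ∈ X, x ∈ P ∧ x ∈ Q := fun x hx => by
    have := el.rank_mem p m hP (m.trans _ hX _ hx) (rank_lt_of_mem hx)
    exact ⟨this, st x this (rank_lt_of_mem hx)⟩
  have kP := (a _ (mem_insert _ _)).1
  have rP := a r (by simp [X])
  have dP := a d (by simp [X])
  have gP := a g (by simp [X])
  have ko := (h.el.iffU p h.zq (fun p : Z => p.IsOrdinal) _ (by fun_prop) kP).1
    (isOrdinal_toZFSet k)
  refine h.solovay ac kP (isOrdinal_toZFSet k) (fun a ha => ?_)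
    ((isOrdinal_toZFSet k).mem_of_subset_of_mem ko (Ordinal.toZFSet_subset_toZFSet_iff.2 ?_) cr)
    (fun W hW => (a W ?_).2) rP.2 dP.2 ((el.iffU p m (fun p : S × Z × Z × Z =>
      RZ p.1 p.2.1 p.2.2.1 p.2.2.2) (P, _, r, d) (by fun_prop)
      (by exact ⟨rfl, kP, rP.1, dP.1⟩)).2 rz) ⟨g, gP.2, ?_, g1.2⟩
  · obtain ⟨a, h1, rfl⟩ := Ordinal.mem_toZFSet_iff.1 ha
    exact fx a h1
  · exact kX.le
  · simp only [X, mem_insert_iff, mem_pow]
    exact Or.inr (Or.inr (Or.inr (Or.inr ⟨fun Y hY => mem_pow.2 ⟨hW.2.2.2.1 Y hY,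
      el.map _ (p.trans _ hW.1 _ hY)⟩, el.map _ hW.1⟩)))
  · exact (el.iffU p m (fun p : S × Z × Z × Z => ∀ x ∈ p.2.1, app p.2.2.1 x ∈
      pow p.1 (prod p.2.2.2 p.2.2.2)) (P, d, g, _) (by fun_prop)
      (by exact ⟨rfl, dP.1, gP.1, kP⟩)).2 g1.1

/-- A directed elementary chain of transitive models that covers all ordinals. -/
structure Chain {ι : Type*} [Preorder ι] (P : ι → S) : Prop where
  dir : ∀ i j : ι, ∃ k, i ≤ k ∧ j ≤ k
  zf : ∀ i, ZF0 (P i)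
  ac : ∀ i, AC (P i)
  el : ∀ i j, i ≤ j → Elem (P i) (P j) id
  ord : ∀ o : Ordinal.{0}, ∃ i, o.toZFSet ∈ P i

namespace Chain

variable {ι : Type*} [Preorder ι] {P : ι → S} (h : Chain P)
include h

theorem elU (i : ι) : Elem (P i) (⋃ i, P i) id := by
  refine ⟨fun x hx => Set.mem_iUnion.2 ⟨i, hx⟩, fun φ => ?_⟩
  induction φ generalizing i with
  | mem | eq => exact fun _ _ => Iff.rfl
  | neg φ ih => exact fun v hv => not_congr (ih i v hv)
  | and φ ψ i1 i2 => exact fun v hv => and_congr (i1 i v hv) (i2 i v hv)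
  | ex φ ih =>
    refine fun v hv => ⟨fun ⟨x, hx, e⟩ => ⟨x, Set.mem_iUnion.2 ⟨i, hx⟩, (ih i _ (hv.cons hx)).1 e⟩,
      fun ⟨x, hx, e⟩ => ?_⟩
    obtain ⟨k, hx⟩ := Set.mem_iUnion.1 hx
    obtain ⟨n, h1, h2⟩ := h.dir i k
    have h3 := (h.el k n h2).map x hx
    exact ((h.el i n h1).es (.ex φ) v hv).2 ⟨x, h3, (ih n _ (EM.cons
      (fun a => (h.el i n h1).map _ (hv a)) h3)).2 e⟩

theorem inner : InnerModel (⋃ i, P i) := by
  obtain ⟨i, -⟩ := h.ord 0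
  have m := (h.elU i).zf (h.zf i) fun a ha x hx =>
    let ⟨k, e⟩ := Set.mem_iUnion.1 ha; Set.mem_iUnion.2 ⟨k, (h.zf k).trans a e x hx⟩
  exact m.inner ((h.elU i).ac (h.zf i) m (h.ac i)) fun o => Set.mem_iUnion.2 (h.ord o)

theorem concAB (H : ∀ l, k < l → ∃ i, l.toZFSet ∈ P i ∧ StrTo (P i) k l) : ConcA ∧ ConcB :=
  ⟨concA_of_not_sm h.inner (isOrdinal_toZFSet k) (not_sm_of h.inner.zf h.inner.ac (h.inner.ord k)
    fun l e => let ⟨i, a⟩ := H l e; ⟨_, h.ac i, h.elU i, a⟩),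
  _, h.inner, k, strong_of h.inner.zf fun l e => let ⟨i, a⟩ := H l e; ⟨_, h.elU i, a⟩⟩

/-- All three conclusions. -/
theorem conc (H : ∀ a, ∃ k, a < k ∧ ∀ l, k < l → ∃ i, l.toZFSet ∈ P i ∧ StrTo (P i) k l) :
    ConcA ∧ ConcB ∧ ConcC :=
  let ⟨_, _, e⟩ := H 0
  ⟨(h.concAB e).1, (h.concAB e).2, _, h.inner, fun a => (H a).imp fun _ e => ⟨e.1,
    strong_of h.inner.zf fun l c => let ⟨i, a⟩ := e.2 l c; ⟨_, h.elU i, a⟩⟩⟩

/-- Conclusion (a) from one member of the chain. -/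
theorem concA {i : ι} {k : Z} (ko : k.IsOrdinal) (km : k ∈ P i) (e : ¬ Sm (P i) k) : ConcA :=
  concA_of_not_sm h.inner ko fun c => e (((h.elU i).iffU (h.zf i) h.inner.zf
    (fun p : S × Z => Sm p.1 p.2) (P i, k) (by fun_prop) (by exact ⟨rfl, km⟩)).2 c)

end Chain

/-- A model that is a rank initial elementary submodel and an element of a larger transitive
class that contains its definable subsets satisfies ZFC. -/
theorem zf_of_elem {P N : S} {p : Z} (hp : ∀ x, x ∈ p ↔ x ∈ P) (t : Tr P) (n : Tr N) (ne : ∅ ∈ P)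
    (el : Elem P N id) (pN : p ∈ N)
    (sep : ∀ φ v, EM P v → ZFSet.sep (fun x => ES P φ (cons x v)) p ∈ N)
    (ini : ∀ a ∈ P, ∀ x ∈ N, x ⊆ a → x ∈ P) : ZF0 P := by
  have z : EM P fun _ => ∅ := fun _ => ne
  have df : ∀ {R : S → E.{0} → Prop}, UD Tr R → ∀ v, EM P v → ∀ {b : Z},
      (∀ x, x ∈ b ↔ x ∈ P ∧ R P (cons x v)) → b ∈ N := fun ⟨φ, e⟩ v hv b hb => by
    convert sep φ v hv using 1
    ext x
    rw [hb, mem_sep, hp]
    exact and_congr_right fun hx => (e P t _ (hv.cons hx)).symm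
  refine ⟨t, ne, fun a ha b hb => (el.ud t n ud_pair ((z.cons hb).cons ha)).2
    (df ((UD.eq 0 1).or (UD.eq 0 2)) _ ((z.cons hb).cons ha) fun x => ?_),
    fun a ha => (el.ud t n ud_union (z.cons ha)).2 (df ((UD.mem 0 2).and (UD.mem 1 0)).ex' _
      (z.cons ha) fun x => ?_), fun a ha => (el.ud t n ud_power (z.cons ha)).2 ⟨_, df
      ((UD.mem 0 1).imp' (UD.mem 0 2)).all' _ (z.cons ha) (b := pow P a) fun x => ?_,
      fun x hx => mem_pow.trans (and_iff_left_of_imp (ini a ha x hx))⟩,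
    fun φ v hv a ha => ini a ha _ (df ((UD.mem 0 1).and (UD.es_rename φ fun i =>
      match i with | 0 => 0 | i + 1 => i + 2)) _ (hv.cons ha) fun x => ?_)
      fun _ y => (mem_sep.1 y).1, fun φ v hv a ha H => ?_⟩
  · exact mem_pair.trans (iff_and_self.2 fun e => e.elim (fun e => e ▸ ha) fun e => e ▸ hb)
  · exact mem_sUnion.trans ⟨fun ⟨y, h1, h2⟩ => ⟨t _ (t _ ha _ h1) _ h2, y, t _ ha _ h1, h1, h2⟩,
      fun ⟨_, y, _, h⟩ => ⟨y, h⟩⟩
  · exact mem_pow.trans ⟨fun e => ⟨e.2, fun _ _ y => e.1 y⟩,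
      fun e => ⟨fun y hy => e.2 y (t _ e.1 _ hy) hy, e.1⟩⟩
  · rw [show (fun i => cons x (cons a v) (match i with | 0 => 0 | i + 1 => i + 2)) = cons x v from
      funext fun i => by cases i <;> rfl]
    exact mem_sep.trans ⟨fun e => ⟨t _ ha _ e.1, e⟩, And.right⟩
  · refine (el.ud t n (ud_coll φ) (hv.cons ha)).2 (fun _ => ⟨p, pN, fun x hx => ?_⟩) H
    obtain ⟨y, hy, e⟩ := H x hx
    refine ⟨y, (hp y).2 hy, ?_⟩
    exact (el.es φ _ ((hv.cons (t _ ha _ hx)).cons hy)).1 e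

end Pool.Agent.Lib.MP_5c0be7_lc
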