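import Pool.Agent.Lib.MP_5c0be7_lc.Defs

/-!
Analytic subsets of the generalized Cantor space: normal forms.
-/

namespace Pool.Agent.Lib.MP_5c0be7_lc

open Cardinal TopologicalSpace Set

/-- The index set of the sequences. -/
abbrev Ix (l : Cardinal.{0}) : Type := l.ord.ToType

/-- The standing assumptions on `l`. -/
structure Good (l : Cardinal.{0}) : Prop where
  unc : ℵ₀ < l
  sl : l.IsStrongLimit
  cof : l.ord.cof = ℵ₀

variable {l : Cardinal.{0}}

/-- Agreement below `i`. -/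
def Ag (i : Ix l) (x y : Cantor l) : Prop := ∀ j < i, x j = y j

theorem mk_Ix : #(Ix l) = l := by simp

theorem mk_Iio_Ix (i : Ix l) : #(Iio i) < l := by simpa using mk_Iio_lt i

theorem Good.noMax (h : Good l) : NoMaxOrder (Ix l) := Cardinal.noMaxOrder h.unc.le

theorem Good.ne (h : Good l) : Nonempty (Ix l) := by
  rw [← Cardinal.mk_ne_zero_iff, mk_Ix]; exact h.sl.ne_zero

theorem Good.seq (h : Good l) : ∃ c : ℕ → Ix l, Monotone c ∧ ∀ i, ∃ n, i < c n := by
  obtain ⟨s, hs, e⟩ := Order.exists_cof_eq (Ix l)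
  rw [Ordinal.cof_toType, h.cof] at e
  have hc : s.Countable := by rw [← Set.countable_coe_iff, ← Cardinal.mk_le_aleph0_iff, e]
  have := h.ne
  have := h.noMax
  obtain ⟨c, hc⟩ := hc.exists_eq_range (let ⟨a, ha, _⟩ := hs (Classical.arbitrary _); ⟨a, ha⟩)
  refine ⟨partialSups c, (partialSups c).monotone, fun i => ?_⟩
  obtain ⟨j, hj⟩ := exists_gt i
  obtain ⟨k, hk, e⟩ := hs j
  obtain ⟨n, rfl⟩ := hc ▸ hk
  exact ⟨n, hj.trans_le (e.trans (le_partialSups c n))⟩

theorem Good.pow_lt (h : Good l) {a b : Cardinal.{0}} (ha : a < l) (hb : b < l) : a ^ b < l :=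
  ((power_le_power_right (cantor a).le).trans_eq (power_mul ..).symm).trans_lt
    (h.sl.isStrongPrelimit (mul_lt_of_lt h.unc.le ha hb))

theorem isOpen_Ag (i : Ix l) (s : Cantor l) : IsOpen {x | Ag i x s} :=
  isOpen_generateFrom_of_mem ⟨i, s, rfl⟩

theorem Good.nhds (h : Good l) {U : Set (Cantor l)} (hU : IsOpen U) {x : Cantor l} (hx : x ∈ U) :
    ∃ i, ∀ y, Ag i y x → y ∈ U := by
  induction hU with
  | basic U hU =>
    obtain ⟨i, s, rfl⟩ := hU
    exact ⟨i, fun y hy j hj => (hy j hj).trans (hx j hj)⟩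
  | univ => exact ⟨Classical.choice h.ne, fun _ _ => trivial⟩
  | inter U V _ _ h1 h2 =>
    obtain ⟨i, hi⟩ := h1 hx.1
    obtain ⟨k, hk⟩ := h2 hx.2
    exact ⟨max i k, fun y hy => ⟨hi y fun j hj => hy j (lt_max_of_lt_left hj),
      hk y fun j hj => hy j (lt_max_of_lt_right hj)⟩⟩
  | sUnion S _ h1 =>
    obtain ⟨U, hU, hx⟩ := hx
    obtain ⟨i, hi⟩ := h1 U hU hx
    exact ⟨i, fun y hy => ⟨U, hU, hi y hy⟩⟩

theorem continuous_Ag {Z : Type*} [TopologicalSpace Z] {f : Z → Cantor l}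
    (h : ∀ i s, IsOpen {z | Ag i (f z) s}) : Continuous f :=
  continuous_generateFrom_iff.2 (by rintro _ ⟨i, s, rfl⟩; exact h i s)

theorem Good.cont (h : Good l) {e : Cantor l → Cantor l} (he : Continuous e) (x : Cantor l)
    (i : Ix l) : ∃ k, ∀ y, Ag k y x → Ag i (e y) (e x) :=
  h.nhds ((isOpen_Ag i (e x)).preimage he) fun _ _ => rfl

theorem Good.core (h : Good l) (L : Type) (hL : #L ≤ l) (Z : Set (ℕ → L))
    (cl : ∀ w, (∀ n, ∃ w' ∈ Z, ∀ k < n, w' k = w k) → w ∈ Z) (f : (ℕ → L) → Cantor l)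
    (co : ∀ w ∈ Z, ∀ i, ∃ n, ∀ w' ∈ Z, (∀ k < n, w' k = w k) → Ag i (f w') (f w)) :
    Analytic l (f '' Z) := by
  let : TopologicalSpace L := ⊥
  have : DiscreteTopology L := ⟨rfl⟩
  have hB := PiNat.isTopologicalBasis_cylinders fun _ : ℕ => L
  have hZ : IsClosed Z := by
    refine isClosed_of_closure_subset fun w hw => cl w fun n => ?_
    obtain ⟨w', h1, h2⟩ := mem_closure_iff.1 hw _ (PiNat.isOpen_cylinder _ w n)
      (PiNat.self_mem_cylinder w n)
    exact ⟨w', h2, h1⟩
  refine ⟨Z, inferInstance, hZ.isCompletelyMetrizableSpace,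
    ⟨_, hB.isInducing Topology.IsInducing.subtypeVal, mk_image_le.trans ?_⟩,
    fun z => f z.1, continuous_Ag fun i s => ?_, by ext; simp⟩
  · have : {s : Set (ℕ → L) | ∃ x n, s = PiNat.cylinder x n} ⊆
        range fun a : List L => {y | PiNat.res y a.length = a} := by
      rintro _ ⟨x, n, rfl⟩
      exact ⟨PiNat.res x n, by rw [PiNat.cylinder_eq_res]; simp⟩
    exact (mk_le_mk_of_subset this).trans (mk_range_le.trans ((mk_list_le_max L).trans
      (max_le h.unc.le hL)))
  · refine isOpen_iff_forall_mem_open.2 fun z hz => ?_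
    obtain ⟨n, hn⟩ := co z.1 z.2 i
    exact ⟨Subtype.val ⁻¹' PiNat.cylinder z.1 n, fun w hw j hj => (hn w.1 w.2 hw j hj).trans
      (hz j hj), (PiNat.isOpen_cylinder _ _ n).preimage continuous_subtype_val,
      PiNat.self_mem_cylinder _ n⟩

/-- Functions on a small set with bounded range. -/
theorem Good.mk_bdd (h : Good l) {K : Type} (hK : #K < l) :
    #{z : K → Option (Ix l) // ∃ i, ∀ k j, z k = some j → j < i} ≤ l := by
  let F : (Σ i : Ix l, K → Option (Iio i)) → K → Option (Ix l) := fun p k => (p.2 k).map (·.1)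
  have : {z : K → Option (Ix l) | ∃ i, ∀ k j, z k = some j → j < i} ⊆ range F := by
    rintro z ⟨i, hi⟩
    refine ⟨⟨i, fun k => (z k).attach.map fun j => ⟨j.1, hi k _ j.2⟩⟩, funext fun k => ?_⟩
    simp [F]
  refine (mk_le_mk_of_subset this).trans (mk_range_le.trans ?_)
  rw [mk_sigma]
  refine (sum_le_sum _ (fun _ => l) fun i => ?_).trans ?_
  · rw [mk_arrow, lift_id, lift_id, mk_option]
    exact (h.pow_lt (add_lt_of_lt h.unc.le (mk_Iio_Ix i) (one_lt_aleph0.trans h.unc)) hK).le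
  · simp [mul_eq_self h.unc.le]

theorem Good.mk_tr (h : Good l) : #{t : Cantor l // ∃ i, ∀ j, i ≤ j → t j = false} ≤ l := by
  classical
  let F : (Σ i : Ix l, Iio i → Bool) → Cantor l := fun p j => if e : j < p.1 then p.2 ⟨j, e⟩
    else false
  have : {t : Cantor l | ∃ i, ∀ j, i ≤ j → t j = false} ⊆ range F := by
    rintro z ⟨i, hi⟩
    refine ⟨⟨i, fun k => z k.1⟩, funext fun k => ?_⟩
    by_cases e : k < i
    · simp [F, e]
    · simp [F, e, hi k (not_lt.1 e)]
  refine (mk_le_mk_of_subset this).trans (mk_range_le.trans ?_)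
  rw [mk_sigma]
  refine (sum_le_sum _ (fun _ => l) fun i => ?_).trans ?_
  · rw [mk_arrow, lift_id, lift_id, mk_bool]
    exact (h.sl.isStrongPrelimit (mk_Iio_Ix i)).le
  · simp [mul_eq_self h.unc.le]

open Classical in
/-- Truncation. -/
noncomputable def trn (i : Ix l) (x : Cantor l) : {t : Cantor l // ∃ i, ∀ j, i ≤ j → t j = false} :=
  ⟨fun j => if j < i then x j else false, i, fun _ h => if_neg (not_lt.2 h)⟩

theorem trn_eq {i : Ix l} {x y : Cantor l} : trn i x = trn i y ↔ Ag i x y :=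
  ⟨fun e j hj => by simpa [trn, hj] using congrArg (fun t => t.1 j) e,
    fun e => Subtype.ext (funext fun j => by by_cases c : j < i <;> simp [trn, c, e j])⟩

/-- DST-1: the projection of an intersection of closed conditions is analytic. -/
theorem Good.analytic (h : Good l) (L : Type) (hL : #L ≤ l) {J : Type*}
    (Q : J → (ℕ → L) → Cantor l → Prop)
    (hQ : ∀ j w x, (∀ n i, ∃ w' x', (∀ k < n, w' k = w k) ∧ Ag i x' x ∧ Q j w' x') → Q j w x) :
    Analytic l {x | ∃ w, ∀ j, Q j w x} := by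
  obtain ⟨c, mc, hc⟩ := h.seq
  choose d hd using hc
  let T := {t : Cantor l // ∃ i, ∀ j, i ≤ j → t j = false}
  let f : (ℕ → L × T) → Cantor l := fun w j => (w (d j)).2.1 j
  have key : ∀ (w : ℕ → L × T) (x : Cantor l), (∀ n, (w n).2 = trn (c n) x) → f w = x :=
    fun w x e => funext fun j => by simp [f, e, trn, hd j]
  have := h.core (L × T) (by simpa using mul_le_of_le h.unc.le hL h.mk_tr)
    {w | (∀ n, (w n).2 = trn (c n) (f w)) ∧ ∀ j, Q j (fun n => (w n).1) (f w)} ?_ f ?_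
  · convert this using 1
    ext x
    refine ⟨fun ⟨w, hw⟩ => ?_, by rintro ⟨w, hw, rfl⟩; exact ⟨_, hw.2⟩⟩
    have e := key (fun n => (w n, trn (c n) x)) x fun _ => rfl
    exact ⟨fun n => (w n, trn (c n) x), ⟨fun n => by rw [e], fun j => by rw [e]; exact hw j⟩, e⟩
  · intro w hw
    have ag : ∀ m, ∀ w' : ℕ → L × T, (∀ n, (w' n).2 = trn (c n) (f w')) →
        (∀ k < m + 1, w' k = w k) → Ag (c m) (f w') (f w) := fun m w' h1 h2 j hj => by
      obtain ⟨v, h3, h4⟩ := hw (max m (d j) + 1)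
      have e1 : (w m).2 = trn (c m) (f v) := by rw [← h4 m (by omega), h3.1]
      have e2 : f w j = f v j := by simp only [f]; rw [h4 (d j) (by omega)]
      rw [e2]
      exact trn_eq.1 ((h1 m).symm.trans ((congrArg Prod.snd (h2 m (by omega))).trans e1)) j hj
    refine ⟨fun n => ?_, fun j => hQ j _ _ fun n i => ?_⟩
    · obtain ⟨v, h3, h4⟩ := hw (n + 1)
      rw [← h4 n (by omega), h3.1]
      exact trn_eq.2 (ag n v h3.1 h4)
    · obtain ⟨v, h3, h4⟩ := hw (max n (d i) + 1)
      exact ⟨_, _, fun k hk => by rw [h4 k (by omega)], fun j hj => ag _ v h3.1 h4 j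
        ((hj.trans (hd i)).trans_le (mc (le_max_right _ _))), h3.2 j⟩
  · intro w hw i
    refine ⟨d i + 1, fun v hv e j hj => trn_eq.1 ((hv.1 (d i)).symm.trans ?_) j (hj.trans (hd i))⟩
    rw [e _ (by omega), hw.1]

/-- Unions of at most `l` analytic sets are analytic. -/
theorem Good.iUnion (h : Good l) {J : Type} (hJ : #J ≤ l) {A : J → Set (Cantor l)}
    (hA : ∀ j, Analytic l (A j)) : Analytic l (⋃ j, A j) := by
  choose Z τ h1 h2 f h3 h4 using hA
  choose B h5 h6 using h2
  refine ⟨Σ j, Z j, inferInstance, inferInstance, ⟨_, IsTopologicalBasis.sigma h5, ?_⟩,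
    fun p => f p.1 p.2, continuous_sigma h3, ?_⟩
  · refine (mk_iUnion_le_sum_mk.trans (sum_le_sum _ (fun _ => l) fun j =>
      mk_image_le.trans (h6 j))).trans ?_
    simpa using mul_le_of_le h.unc.le hJ le_rfl
  · ext x
    simp [← h4]

open Classical in
/-- The part of `z` below `i`. -/
noncomputable def cut {K : Type} (i : Ix l) (z : K → Ix l) : K → Option (Ix l) :=
  fun k => if z k < i then some (z k) else none

theorem cut_eq_some {K : Type} {i j : Ix l} {z : K → Ix l} {k : K} :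
    cut i z k = some j ↔ z k = j ∧ j < i := by
  unfold cut
  split_ifs with h
  · exact ⟨fun e => ⟨Option.some.inj e, Option.some.inj e ▸ h⟩, fun e => congrArg _ e.1⟩
  · exact ⟨nofun, fun e => (h (e.1 ▸ e.2)).elim⟩

/-- DST-1', the form for hulls.  `x` is read along positions `pos z a` that depend on finitely
many values of `z : K → Ix l` (`K` small); `Rel` is an arbitrary relation between a witness `e`,
the bits read, and the bounded parts of `z`. -/
theorem Good.hull (h : Good l) {K A E : Type} (hK : #K < l) (hA : #A < l) (hE : #E ≤ l)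
    (pos : (K → Ix l) → A → Ix l)
    (hp : ∀ a, ∃ s : Finset K, ∀ z z', (∀ k ∈ s, z k = z' k) → pos z a = pos z' a)
    (Rel : E → (A → Bool) → Ix l → (K → Option (Ix l)) → Prop) :
    Analytic l {x | ∃ (z : K → Ix l) (e : E), ∀ i, Rel e (fun a => x (pos z a)) i (cut i z)} := by
  classical
  obtain ⟨c, mc, hc⟩ := h.seq
  have := h.noMax
  let T := {z : K → Option (Ix l) // ∃ i, ∀ k j, z k = some j → j < i}
  let L := T × E × (A → Bool) × (K → ℕ)
  have hL : #L ≤ l := by
    simp only [L, mk_prod, lift_id, mk_arrow, mk_bool, mk_nat]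
    exact mul_le_of_le h.unc.le (h.mk_bdd hK) (mul_le_of_le h.unc.le hE (mul_le_of_le h.unc.le
      (h.sl.isStrongPrelimit hA).le (h.pow_lt h.unc hK).le))
  let zz : (ℕ → L) → K → Ix l := fun w k => ((w ((w 0).2.2.2 k)).1.1 k).getD (c 0)
  let Q : (ℕ × K) ⊕ A ⊕ ℕ × Ix l → (ℕ → L) → Cantor l → Prop := fun j w x =>
    match j with
    | .inl (n, k) => (w n).1.1 k = cut (c n) (zz w) k
    | .inr (.inl a) => (w 0).2.2.1 a = x (pos (zz w) a)
    | .inr (.inr (n, i)) => i ≤ c n → Rel (w 0).2.1 (w 0).2.2.1 i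
        fun k => ((w n).1.1 k).filter (· < i)
  have fil : ∀ (z : K → Ix l) n i, i ≤ c n → (fun k => (cut (c n) z k).filter (· < i)) = cut i z :=
    fun z n i hi => funext fun k => Option.ext fun j => by
      simp only [Option.filter_eq_some_iff, cut_eq_some, decide_eq_true_eq]
      exact ⟨fun e => ⟨e.1.1, e.2⟩, fun e => ⟨⟨e.1, e.2.trans_le hi⟩, e.2⟩⟩
  have zeq : ∀ w w' : ℕ → L, ∀ k n, (w 0).2.2.2 k < n → (∀ m < n, w' m = w m) →
      zz w' k = zz w k := fun w w' k n hn e => by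
    simp only [zz]; rw [e 0 (by omega), e _ hn]
  convert h.analytic L hL Q ?_ using 1
  · ext x
    constructor
    · rintro ⟨z, e, he⟩
      choose d hd using hc
      let w : ℕ → L := fun n => (⟨cut (c n) z, c n, fun k j e => (cut_eq_some.1 e).2⟩, e,
        fun a => x (pos z a), fun k => d (z k))
      have e1 : zz w = z := funext fun k => by
        simp only [zz, w]; rw [cut_eq_some.2 ⟨rfl, hd _⟩]; rfl
      refine ⟨w, ?_⟩
      rintro (⟨n, k⟩ | a | ⟨n, i⟩)
      · simp only [Q, e1]; rfl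
      · simp only [Q, e1]; rfl
      · intro hi
        simp only [w, fil z n i hi]; exact he i
    · rintro ⟨w, hw⟩
      refine ⟨zz w, (w 0).2.1, fun i => ?_⟩
      obtain ⟨n, hn⟩ := hc i
      have h1 := hw (.inr (.inr (n, i))) hn.le
      have h2 : (w n).1.1 = cut (c n) (zz w) := funext fun k => hw (.inl (n, k))
      have h3 : (w 0).2.2.1 = fun a => x (pos (zz w) a) := funext fun a => hw (.inr (.inl a))
      rwa [h2, h3, fil _ _ _ hn.le] at h1
  · rintro (⟨n, k⟩ | a | ⟨n, i⟩) w x hw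
    · obtain ⟨v, y, h1, -, h2⟩ := hw (max n ((w 0).2.2.2 k) + 1) (c 0)
      simp only [Q, cut] at h2 ⊢
      rwa [h1 n (by omega), zeq w v k _ (by omega) h1] at h2
    · obtain ⟨s, hs⟩ := hp a
      obtain ⟨i, hi⟩ := exists_gt (pos (zz w) a)
      obtain ⟨v, y, h1, h3, h2⟩ := hw (s.sup (w 0).2.2.2 + 1) i
      simp only [Q] at h2 ⊢
      rwa [h1 0 (by omega), hs _ _ (fun k hk => zeq w v k _
        (Nat.lt_succ_of_le (Finset.le_sup hk)) h1), h3 _ hi] at h2
    · obtain ⟨v, y, h1, -, h2⟩ := hw (n + 1) (c 0)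
      simp only [Q] at h2 ⊢
      rwa [h1 0 (by omega), h1 n (by omega)] at h2

end Pool.Agent.Lib.MP_5c0be7_lc
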