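import Pool.Agent.Lib.MP_5c0be7_lc.DST1

/-!
Boundedness: a thin family of codes of well-founded relations has no perfect subset.
-/

namespace Pool.Agent.Lib.MP_5c0be7_lc

open Cardinal Set

variable {l : Cardinal.{0}}

/-- The relation `r` can be ranked below `o`. -/
def Rk {B : Type} (r : B → B → Prop) (o : Ordinal.{0}) : Prop :=
  ∃ f : B → Ordinal.{0}, (∀ b, f b < o) ∧ ∀ a b, r a b → f a < f b

theorem exists_Rk (hl : ℵ₀ ≤ l) {B : Type} (hB : #B ≤ l) {r : B → B → Prop} (wf : WellFounded r) :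
    ∃ o : Ordinal.{0}, o.card ≤ l ∧ Rk r o := by
  have : IsWellFounded B r := ⟨wf⟩
  have reg := isRegular_succ hl
  have lim := isSuccLimit_ord reg.aleph0_le
  have h1 : ∀ b, IsWellFounded.rank r b < (Order.succ l).ord := fun b => wf.induction
    (C := fun b => IsWellFounded.rank r b < (Order.succ l).ord) b fun b ih => by
      rw [IsWellFounded.rank_eq]
      exact iSup_lt_ord_of_isRegular reg (((mk_subtype_le _).trans hB).trans_lt (Order.lt_succ l))
        fun a => lim.succ_lt (ih _ a.2)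
  refine ⟨⨆ b, Order.succ (IsWellFounded.rank r b), ?_, IsWellFounded.rank r, fun b =>
    (Order.lt_succ _).trans_le (Ordinal.le_iSup (fun b => Order.succ (IsWellFounded.rank r b)) b),
    fun _ _ => IsWellFounded.rank_lt_of_rel⟩
  rw [← Order.lt_succ_iff, ← lt_ord]
  exact iSup_lt_ord_of_isRegular reg (hB.trans_lt (Order.lt_succ l)) fun b => lim.succ_lt (h1 b)

/-- DST-2: boundedness along a continuous family. -/
theorem Good.bounded (h : Good l) {B : Type} (hB : #B ≤ l) (R : Cantor l → B → B → Prop)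
    (op : ∀ x a b, R x a b → ∃ i, ∀ y, Ag i y x → R y a b) (wf : ∀ x, WellFounded (R x)) :
    ∃ o : Ordinal.{0}, o.card ≤ l ∧ ∀ x, Rk (R x) o := by
  obtain ⟨c, mc, hc⟩ := h.seq
  choose d hd using hc
  let T := {t : Cantor l // ∃ i, ∀ j, i ≤ j → t j = false}
  let r : ℕ × T × B → ℕ × T × B → Prop := fun p q => q.1 < p.1 ∧ Ag (c q.1) p.2.1.1 q.2.1.1 ∧
    ∀ y, Ag (c p.1) y p.2.1.1 → R y p.2.2 q.2.2
  have wr : WellFounded r := by
    refine wellFounded_iff_isEmpty_descending_chain.2 ⟨fun ⟨p, hp⟩ => ?_⟩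
    have sm : StrictMono fun k => (p k).1 := strictMono_nat_of_lt_succ fun k => (hp k).1
    have h1 : ∀ k m, k ≤ m → Ag (c (p k).1) (p m).2.1.1 (p k).2.1.1 := fun k m e => by
      induction e with
      | refl => exact fun _ _ => rfl
      | step e ih => exact fun j hj =>
          ((hp _).2.1 j (hj.trans_le (mc (sm.monotone e)))).trans (ih j hj)
    have h2 : ∀ k, Ag (c (p k).1) (fun j => (p (d j)).2.1.1 j) (p k).2.1.1 := fun k j hj =>
      (h1 _ _ (le_max_left (d j) k) j ((hd j).trans_le (mc (sm.id_le _)))).symm.trans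
        (h1 _ _ (le_max_right (d j) k) j hj)
    exact (wellFounded_iff_isEmpty_descending_chain.1 (wf fun j => (p (d j)).2.1.1 j)).false
      ⟨fun k => (p k).2.2, fun k => (hp k).2.2 _ (h2 _)⟩
  obtain ⟨o, ho, f, f1, f2⟩ := exists_Rk h.unc.le (by
    simpa using mul_le_of_le h.unc.le h.unc.le (mul_le_of_le h.unc.le h.mk_tr hB)) wr
  refine ⟨o, ho, fun x => ⟨fun b => ⨅ n, f (n, trn (c n) x, b),
    fun b => (ciInf_le' _ 0).trans_lt (f1 _), fun a b e => ?_⟩⟩
  obtain ⟨n, hn⟩ := ciInf_mem fun n => f (n, trn (c n) x, b)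
  obtain ⟨i, hi⟩ := op x a b e
  have m1 := le_max_left (n + 1) (d i)
  have m2 := le_max_right (n + 1) (d i)
  refine (ciInf_le' _ (max (n + 1) (d i))).trans_lt ((f2 (_, trn _ x, a) (n, trn (c n) x, b)
    ⟨m1, fun j hj => ?_, fun y hy => hi y fun j hj => ?_⟩).trans_eq hn)
  · simp [trn, hj, hj.trans_le (mc ((Nat.le_succ n).trans m1))]
  · have := (hj.trans (hd i)).trans_le (mc m2)
    simpa [trn, this] using hy j this

/-- DST-3: a large thin set of codes of well-founded relations fails the perfect set property. -/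
theorem Good.not_PSP (h : Good l) {B : Type} (hB : #B ≤ l) (A : Set (Cantor l))
    (R : Cantor l → B → B → Prop) (op : ∀ x a b, R x a b → ∃ i, ∀ y, Ag i y x → R y a b)
    (wf : ∀ x ∈ A, WellFounded (R x))
    (thin : ∀ o : Ordinal.{0}, o.card ≤ l → #{x // x ∈ A ∧ Rk (R x) o} ≤ l) (big : l < #A) :
    ¬ PSP l A := by
  rintro (e | ⟨e, he, hA⟩)
  · exact big.not_ge e
  obtain ⟨o, ho, h1⟩ := h.bounded hB (fun x => R (e x)) (fun x a b r => by
    obtain ⟨i, hi⟩ := op _ a b r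
    obtain ⟨k, hk⟩ := h.cont he.continuous x i
    exact ⟨k, fun y hy => hi _ (hk y hy)⟩) fun x => wf _ (hA ⟨x, rfl⟩)
  have := (mk_le_of_injective (f := fun x => (⟨e x, hA ⟨x, rfl⟩, h1 x⟩ :
    {x // x ∈ A ∧ Rk (R x) o})) fun _ _ c => he.injective (congrArg Subtype.val c)).trans
    (thin o ho)
  exact (cantor l).not_ge (by simpa [Cantor] using this)

/-- Unbounded heights make the set large. -/
theorem big_of_unbounded (hl : ℵ₀ ≤ l) {B : Type} (hB : #B ≤ l) (A : Set (Cantor l))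
    (R : Cantor l → B → B → Prop) (wf : ∀ x ∈ A, WellFounded (R x))
    (unb : ∀ o : Ordinal.{0}, o.card ≤ l → ∃ x ∈ A, ¬ Rk (R x) o) : l < #A := by
  by_contra e
  choose o ho f f1 f2 using fun x : A => exists_Rk hl hB (wf x.1 x.2)
  obtain ⟨x, hx, c⟩ := unb (⨆ x, o x) (by
    rw [← Order.lt_succ_iff, ← lt_ord]
    exact iSup_lt_ord_of_isRegular (isRegular_succ hl) ((not_lt.1 e).trans_lt (Order.lt_succ l))
      fun b => lt_ord.2 (Order.lt_succ_iff.2 (ho b)))
  exact c ⟨f ⟨x, hx⟩, fun b => (f1 _ b).trans_le (Ordinal.le_iSup o _), f2 ⟨x, hx⟩⟩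

/-- The form used against (H). -/
theorem HypH.elim (H : HypH) : ∃ l, Good l ∧ ∀ (B : Type) (A : Set (Cantor l))
    (R : Cantor l → B → B → Prop), #B ≤ l → Analytic l Aᶜ →
    (∀ x a b, R x a b → ∃ i, ∀ y, Ag i y x → R y a b) → (∀ x ∈ A, WellFounded (R x)) →
    (∀ o : Ordinal.{0}, o.card ≤ l → #{x // x ∈ A ∧ Rk (R x) o} ≤ l) →
    ∃ o : Ordinal.{0}, o.card ≤ l ∧ ∀ x ∈ A, Rk (R x) o := by
  obtain ⟨l, h1, h2, h3, h4⟩ := H
  refine ⟨l, ⟨h1, h2, h3⟩, fun B A R hB hA op wf thin => ?_⟩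
  by_contra c
  push Not at c
  exact Good.not_PSP ⟨h1, h2, h3⟩ hB A R op wf thin (big_of_unbounded h1.le hB A R wf c) (h4 A hA)

end Pool.Agent.Lib.MP_5c0be7_lc
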