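import Pool.Agent.Lib.MP_053343_lc.Defs

/-!
Definitions for MP_5c0be7_lc: the generalized Cantor space, the perfect set property, inner
models, strong cardinals and the Mitchell order.  The universe of sets is `ZFSet.{0}`.
-/

namespace Pool.Agent.Lib.MP_5c0be7_lc

open Cardinal Pool.Agent.Lib.MP_053343_lc

/-- The generalized Cantor space: binary sequences of length `l`. -/
def Cantor (l : Cardinal.{0}) : Type := l.ord.ToType → Bool

/-- The bounded topology, generated by the sets `N_s` of extensions of a proper initial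
segment. -/
instance (l : Cardinal.{0}) : TopologicalSpace (Cantor l) :=
  .generateFrom {U | ∃ (i : l.ord.ToType) (s : Cantor l), U = {x | ∀ j < i, x j = s j}}

/-- `A` is a continuous image of a completely metrizable space of weight at most `l`. -/
def Analytic (l : Cardinal.{0}) (A : Set (Cantor l)) : Prop :=
  ∃ (Z : Type) (_ : TopologicalSpace Z), TopologicalSpace.IsCompletelyMetrizableSpace Z ∧
    (∃ B : Set (Set Z), TopologicalSpace.IsTopologicalBasis B ∧ #B ≤ l) ∧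
    ∃ f : Z → Cantor l, Continuous f ∧ Set.range f = A

/-- The `l`-perfect set property. -/
def PSP (l : Cardinal.{0}) (A : Set (Cantor l)) : Prop :=
  #A ≤ l ∨ ∃ e : Cantor l → Cantor l, Topology.IsClosedEmbedding e ∧ Set.range e ⊆ A

/-- Hypothesis (H): at some uncountable strong limit cardinal of countable cofinality all
coanalytic sets have the perfect set property. -/
def HypH : Prop :=
  ∃ l : Cardinal.{0}, ℵ₀ < l ∧ l.IsStrongLimit ∧ l.ord.cof = ℵ₀ ∧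
    ∀ A : Set (Cantor l), Analytic l Aᶜ → PSP l A

/-- Satisfaction in the structure `(M, ∈)` for a class `M`. -/
def CSat (M : Set ZFSet.{0}) : Fml → List ZFSet.{0} → Prop
  | .mem i j, l => l.getD i ∅ ∈ l.getD j ∅
  | .eq i j, l => l.getD i ∅ = l.getD j ∅
  | .neg φ, l => ¬ CSat M φ l
  | .and φ ψ, l => CSat M φ l ∧ CSat M ψ l
  | .ex φ, l => ∃ x ∈ M, CSat M φ (x :: l)

/-- The graph of `f` restricted to the class `a` is an element of `M`. -/
def FunIn (M a : Set ZFSet.{0}) (f : ZFSet.{0} → ZFSet.{0}) : Prop :=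
  ∃ g ∈ M, ∀ z, z ∈ g ↔ ∃ x ∈ a, z = ZFSet.pair x (f x)

/-- A transitive class containing all ordinals that satisfies ZFC (extensionality and foundation
hold by transitivity, infinity because all ordinals are present). -/
structure InnerModel (M : Set ZFSet.{0}) : Prop where
  trans : ∀ a ∈ M, ∀ x ∈ a, x ∈ M
  ord : ∀ o : Ordinal.{0}, o.toZFSet ∈ M
  pair : ∀ a ∈ M, ∀ b ∈ M, ({a, b} : ZFSet) ∈ M
  union : ∀ a ∈ M, ZFSet.sUnion a ∈ M
  power : ∀ a ∈ M, ∃ b ∈ M, ∀ x ∈ M, x ∈ b ↔ x ⊆ a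
  sep : ∀ (φ : Fml) (l : List ZFSet), (∀ x ∈ l, x ∈ M) → ∀ a ∈ M,
    ZFSet.sep (fun x => CSat M φ (x :: l)) a ∈ M
  coll : ∀ (φ : Fml) (l : List ZFSet), (∀ x ∈ l, x ∈ M) → ∀ a ∈ M,
    (∀ x ∈ a, ∃ y ∈ M, CSat M φ (y :: x :: l)) →
      ∃ b ∈ M, ∀ x ∈ a, ∃ y ∈ b, CSat M φ (y :: x :: l)
  choice : ∀ a ∈ M, ∃ f, FunIn M {x | x ∈ a} f ∧ ∀ x ∈ a, x ≠ ∅ → f x ∈ x

/-- `k` is a strong cardinal in `M`: for all `l ≥ k` and `t > k` the model `M` contains a
transitive set `N` and an elementary embedding `j` of its `V_t` into `N` with critical point `k`,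
`j k > l` and the `V_l` of `M` contained in `N`. -/
def Strong (M : Set ZFSet.{0}) (k : Ordinal.{0}) : Prop :=
  ∀ l t : Ordinal.{0}, k ≤ l → k < t → ∃ N ∈ M, ∃ j : ZFSet.{0} → ZFSet.{0},
    N.IsTransitive ∧ FunIn M {x | x ∈ M ∧ x.rank < t} j ∧ (∀ x ∈ M, x.rank < t → j x ∈ N) ∧
    (∀ (φ : Fml) (v : List ZFSet), (∀ x ∈ v, x ∈ M ∧ x.rank < t) →
      (CSat {x | x ∈ M ∧ x.rank < t} φ v ↔ CSat {x | x ∈ N} φ (v.map j))) ∧
    (∀ a < k, j a.toZFSet = a.toZFSet) ∧ l.toZFSet ∈ j k.toZFSet ∧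
    ∀ x ∈ M, x.rank < l → x ∈ N

/-- `U` is a normal measure on `k` in `M`: a nonprincipal, `k`-complete, normal ultrafilter on
the uncountable ordinal `k`, in the sense of `M`. -/
structure Normal (M : Set ZFSet.{0}) (k : Ordinal.{0}) (U : ZFSet.{0}) : Prop where
  mem : U ∈ M
  unc : Ordinal.omega0 < k
  sub : ∀ X ∈ U, X ⊆ k.toZFSet
  up : ∀ X ∈ U, ∀ Y ∈ M, X ⊆ Y → Y ⊆ k.toZFSet → Y ∈ U
  ultra : ∀ X ∈ M, X ⊆ k.toZFSet → (X ∈ U ↔ k.toZFSet \ X ∉ U)
  free : ∀ a, ({a} : ZFSet) ∉ U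
  complete : ∀ b < k, ∀ F, FunIn M {a | a ∈ b.toZFSet} F → (∀ a ∈ b.toZFSet, F a ∈ U) →
    ZFSet.sep (fun x => ∀ a ∈ b.toZFSet, x ∈ F a) k.toZFSet ∈ U
  normal : ∀ X ∈ U, ∀ f, FunIn M {a | a ∈ X} f → (∀ a ∈ X, f a ∈ a) →
    ∃ c, ZFSet.sep (fun a => f a = c) X ∈ U

/-- The Mitchell order in `M`: `W` lies in the ultrapower of `M` by `U`, where `X ⊆ k` is
represented by the function `a ↦ X ∩ a`. -/
def Below (M : Set ZFSet.{0}) (k : Ordinal.{0}) (W U : ZFSet.{0}) : Prop :=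
  ∃ f, FunIn M {a | a ∈ k.toZFSet} f ∧ ∀ X ∈ M, X ⊆ k.toZFSet →
    (X ∈ W ↔ ZFSet.sep (fun a => X ∩ a ∈ f a) k.toZFSet ∈ U)

/-- `o(k) = d` in `M`: the rank function `r` of the Mitchell order on the normal measures on `k`
exists, and `d` is the least ordinal above all its values. -/
def Order (M : Set ZFSet.{0}) (k d : Ordinal.{0}) : Prop :=
  ∃ r : ZFSet.{0} → Ordinal.{0},
    (∀ U, Normal M k U → ∀ x, x < r U ↔ ∃ W, Normal M k W ∧ Below M k W U ∧ x ≤ r W) ∧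
    ∀ x, x < d ↔ ∃ U, Normal M k U ∧ x ≤ r U

/-- `m` is the successor cardinal of `k` in `M`: the ordinals below `m` are those that inject
into `k` in `M`. -/
def Next (M : Set ZFSet.{0}) (k m : Ordinal.{0}) : Prop :=
  ∀ x : Ordinal.{0}, x < m ↔ ∃ f, FunIn M {a | a ∈ x.toZFSet} f ∧
    (∀ a ∈ x.toZFSet, f a ∈ k.toZFSet) ∧ ∀ a ∈ x.toZFSet, ∀ b ∈ x.toZFSet, f a = f b → a = b

/-- The three conclusions. -/
def ConcA : Prop := ∃ M, InnerModel M ∧ ∃ k m d, (∃ U, Normal M k U) ∧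
  Next M k m ∧ Next M m d ∧ Order M k d

/-- Some inner model has a strong cardinal. -/
def ConcB : Prop := ∃ M, InnerModel M ∧ ∃ k, Strong M k

/-- Some inner model has a proper class of strong cardinals. -/
def ConcC : Prop := ∃ M, InnerModel M ∧ ∀ a, ∃ k, a < k ∧ Strong M k

end Pool.Agent.Lib.MP_5c0be7_lc
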