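import Pool.Agent.Lib.MP_5c0be7_lc.Defs

/-!
Definitions for MP_5c0be7_lc, second part: the three conclusions for definable inner models.
-/

namespace Pool.Agent.Lib.MP_5c0be7_lc

open Pool.Agent.Lib.MP_053343_lc

/-- `M` is an inner model and a class in the sense of ZFC: it is defined in the universe by a
formula with set parameters. -/
def Inner (M : Set ZFSet.{0}) : Prop :=
  InnerModel M ∧ ∃ (φ : Fml) (l : List ZFSet.{0}), ∀ x, x ∈ M ↔ CSat Set.univ φ (x :: l)

/-- Some inner model has a measurable cardinal `k` with `o(k) = k⁺⁺`. -/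
def ConA : Prop := ∃ M, Inner M ∧ ∃ k m d, (∃ U, Normal M k U) ∧
  Next M k m ∧ Next M m d ∧ Order M k d

/-- Some inner model has a strong cardinal. -/
def ConB : Prop := ∃ M, Inner M ∧ ∃ k, Strong M k

/-- Some inner model has a proper class of strong cardinals. -/
def ConC : Prop := ∃ M, Inner M ∧ ∀ a, ∃ k, a < k ∧ Strong M k

end Pool.Agent.Lib.MP_5c0be7_lc
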