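import Pool.Agent.Lib.MP_5c0be7_lc.Ult

/-!
Elementary maps generated by an extender that lies in the model: the restrictions of the map are
in the model.  Ultrapowers by normal measures and strong cardinals.
-/

namespace Pool.Agent.Lib.MP_5c0be7_lc

open ZFSet Cx Pool.Agent.Lib.MP_053343_lc
open Pool.Agent.Shared.LDefs (E cons tl img mem_img bun mem_bun app gr app_gr gr_congr app_eq
  fst snd fst_pair snd_pair)

variable {M Q : S} {j : Z → Z} {d D k W a b : Z}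

theorem Elem.mem_iff (h : Elem M Q j) (ha : a ∈ M) (hb : b ∈ M) : j a ∈ j b ↔ a ∈ b :=
  (h.es (.mem 0 1) (cons a fun _ => b) (EM.cons (fun _ => hb) ha)).symm

theorem Elem.inj (h : Elem M Q j) (ha : a ∈ M) (hb : b ∈ M) : j a = j b ↔ a = b :=
  (h.es (.eq 0 1) (cons a fun _ => b) (EM.cons (fun _ => hb) ha)).symm

theorem Elem.app (h : Elem M Q j) (m : ZF0 M) (q : ZF0 Q) (ha : a ∈ M) (hb : b ∈ M) :
    j (app a b) = app (j a) (j b) :=
  h.tmU m q (fun p : Z × Z => Shared.LDefs.app p.1 p.2) (a, b) (by fun_prop) (by exact ⟨ha, hb⟩)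

theorem Elem.sub (h : Elem M Q j) (m : ZF0 M) (q : ZF0 Q) (ha : a ∈ M) (hb : b ∈ M) :
    a ⊆ b ↔ j a ⊆ j b :=
  h.iffU m q (fun p : Z × Z => p.1 ⊆ p.2) (a, b) (by fun_prop) (by exact ⟨ha, hb⟩)

theorem Elem.empty (h : Elem M Q j) (m : ZF0 M) (q : ZF0 Q) : j ∅ = ∅ :=
  h.tmU m q (fun _ : Z => ∅) ∅ (by fun_prop) m.empty

theorem app_sub {g T u : Z} (h : g ⊆ prod d T) (t : T.IsTransitive) : app g u ⊆ T := fun z hz => by
  obtain ⟨y, h1, h2⟩ := mem_sUnion.1 hz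
  exact t _ (pair_mem_prod.1 (h (mem_sep.1 h1).2)).2 h2

theorem app_const {z : Z} (h : a ∈ d) : app (prod d {z}) a = z :=
  app_eq (pair_mem_prod.2 ⟨h, mem_singleton.2 rfl⟩) fun _ e =>
    mem_singleton.1 (pair_mem_prod.1 e).2

/-- `j : M → Q` is elementary, `Q` is generated by the range of `j` and `D ⊆ j d`, and the
extender derived from `j` and `D` lies in `M`. -/
structure Ext (M Q : S) (j : Z → Z) (d D : Z) : Prop where
  zf : ZF0 M
  tr : Tr Q
  el : Elem M Q j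
  dm : d ∈ M
  Dm : D ∈ M
  sub : D ⊆ j d
  gen : ∀ y ∈ Q, ∃ a ∈ D, ∃ f ∈ M, y = app (j f) a
  am : ∃ e ∈ M, ∀ a ∈ D, ∀ b ∈ D, ∀ X ∈ M, X ⊆ prod d d →
    (pair (pair a b) X ∈ e ↔ pair a b ∈ j X)

namespace Ext

variable (h : Ext M Q j d D)
include h

theorem zq : ZF0 Q := h.el.zf h.zf h.tr

theorem core {T : Z} (hT : T ∈ M) (tT : T.IsTransitive) : ∃ c ∈ M, ∀ a ∈ D, ∀ f ∈ M,
    f ⊆ prod d T → app c (pair a f) = app (j f) a := by
  obtain ⟨e, he, am⟩ := h.am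
  have m := h.zf
  have q := h.zq
  have hD := m.prod h.Dm (m.pow (m.prod h.dm hT))
  set DT := prod D (pow M (prod d T))
  let pr : Z × Z × Z → Z → Z := fun x b => ZFSet.sep (fun p => pair (pair (fst p) (fst b))
    (ZFSet.sep (fun w => app (snd p) (fst w) ∈ app (snd b) (snd w)) (prod x.2.1 x.2.1)) ∈ x.2.2) x.1
  have hp : U fun p : (Z × Z × Z) × Z => pr p.1 p.2 := by simp only [pr]; fun_prop
  have key : ∀ b ∈ DT, ∀ p, p ∈ pr (DT, d, e) b ↔
      p ∈ DT ∧ app (j (snd p)) (fst p) ∈ app (j (snd b)) (fst b) := fun b hb p => by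
    refine mem_sep.trans (and_congr_right fun hp => ?_)
    obtain ⟨a, ha, f, hf, rfl⟩ := mem_prod.1 hp
    obtain ⟨b, hb', g, hg, rfl⟩ := mem_prod.1 hb
    simp only [fst_pair, snd_pair]
    have o : ok M (f, g, d) := ⟨(mem_pow.1 hf).2, (mem_pow.1 hg).2, h.dm⟩
    have u : U fun x : Z × Z × Z => ZFSet.sep (fun w => app x.1 (fst w) ∈ app x.2.1 (snd w))
      (prod x.2.2 x.2.2) := by fun_prop
    rw [am a ha b hb' _ (u.mem_of m _ o) fun _ y => (mem_sep.1 y).1, h.el.tmU m q _ _ u o, mem_sep]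
    simp only [fst_pair, snd_pair]
    exact and_iff_right (pair_mem_prod.2 ⟨h.sub ha, h.sub hb'⟩)
  obtain ⟨c, hc, e1⟩ := m.recur hp (G := fun x b g => img (fun p => app g p) (pr x b))
    (by fun_prop) (DT, d, e) (by exact ⟨hD, h.dm, he⟩) hD (fun _ _ _ y => (mem_sep.1 y).1)
    fun s _ sD a ha => by
      obtain ⟨a, h1, h2⟩ := (InvImage.wf (fun p => app (j (snd p)) (fst p)) mem_wf).has_min
        {x | x ∈ s} ⟨a, ha⟩
      exact ⟨a, h1, fun c hc e => h2 c e ((key a (sD h1) c).1 hc).2⟩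
  have main : ∀ y, ∀ b ∈ DT, app (j (snd b)) (fst b) = y → app c b = y := fun y => by
    induction y using ZFSet.inductionOn with
    | h y ih =>
      rintro b hb rfl
      rw [e1 b hb]
      ext z
      rw [mem_img]
      constructor
      · rintro ⟨p, h1, rfl⟩
        obtain ⟨h2, h3⟩ := (key b hb p).1 h1
        rwa [app_gr h1, ih _ h3 p h2 rfl]
      · intro hz
        obtain ⟨b, hb', g, hg, rfl⟩ := mem_prod.1 hb
        have g1 := (mem_pow.1 hg).2
        have z1 : z ∈ j T := app_sub (u := fst (pair b g)) ((h.el.iffU m q (fun x : Z × Z × Z =>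
          x.1 ⊆ prod x.2.1 x.2.2) (g, d, T) (by fun_prop) (by exact ⟨g1, h.dm, hT⟩)).1
          (mem_pow.1 hg).1) ((h.el.iffU m q (fun x : Z => x.IsTransitive) T (by fun_prop) hT).1 tT)
          (by rw [snd_pair] at hz; exact hz)
        obtain ⟨a, ha, f, hf, rfl⟩ := h.gen z (h.tr _ (h.el.map _ hT) _ z1)
        have o : ok M (f, d, T) := ⟨hf, h.dm, hT⟩
        have u : U fun x : Z × Z × Z => gr (fun a => app x.1 a) x.2.1 ∩ prod x.2.1 x.2.2 := by
          fun_prop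
        have h2 : pair a (gr (fun a => app f a) d ∩ prod d T) ∈ DT :=
          pair_mem_prod.2 ⟨ha, mem_pow.2 ⟨fun _ y => (mem_inter.1 y).2, u.mem_of m (f, d, T) o⟩⟩
        have h3 : app (j (gr (fun a => app f a) d ∩ prod d T)) a = app (j f) a := by
          rw [h.el.tmU m q _ _ u o]; exact app_res (h.sub ha) z1
        have h4 := (key _ hb _).2 ⟨h2, by rwa [fst_pair a, snd_pair a, h3]⟩
        exact ⟨_, h4, (app_gr h4).trans (ih _ hz _ h2 (by rw [fst_pair, snd_pair, h3]))⟩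
  exact ⟨c, hc, fun a ha f hf e => main _ _ (pair_mem_prod.2 ⟨ha, mem_pow.2 ⟨e, hf⟩⟩) (by simp)⟩

/-- The restriction of `j` to a set of `M` is in `M`. -/
theorem gr_mem {x : Z} (hx : x ∈ M) : gr j x ∈ M := by
  obtain ⟨T, hT, tT, e⟩ := h.zf.tc hx
  obtain ⟨c, hc, e1⟩ := h.core hT tT
  obtain ⟨a, ha, -⟩ := h.gen _ h.zq.empty
  have aM := h.zf.trans _ h.Dm _ ha
  convert h.zf.tm (fun p : Z × Z × Z × Z => gr (fun z => app p.1 (pair p.2.1 (prod p.2.2.1 {z})))
    p.2.2.2) (c, a, d, x) (by fun_prop) ⟨hc, aM, h.dm, hx⟩ using 1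
  refine gr_congr fun z hz => ?_
  have o : ok M (d, z) := ⟨h.dm, h.zf.trans _ hx _ hz⟩
  have u : U fun x : Z × Z => prod x.1 {x.2} := by fun_prop
  rw [e1 a ha _ (h.zf.tm _ _ u o) fun w hw => ?_, h.el.tmU h.zf h.zq _ _ u o]
  · exact (app_const (h.sub ha)).symm
  · obtain ⟨a, ha, b, hb, rfl⟩ := mem_prod.1 hw
    exact pair_mem_prod.2 ⟨ha, e (mem_singleton.1 hb ▸ hz)⟩

theorem j_mem {x : Z} (hx : x ∈ M) : j x ∈ M := by
  rw [← app_gr (F := j) (mem_insert x x)]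
  exact h.zf.app (h.gr_mem (h.zf.insert hx hx)) hx

theorem le : Q ⊆ M := fun y hy => by
  obtain ⟨a, ha, f, hf, rfl⟩ := h.gen y hy
  exact h.zf.app (h.j_mem hf) (h.zf.trans _ h.Dm _ ha)

end Ext

theorem Elem.seed (h : Elem M Q j) (m : ZF0 M) (q : ZF0 Q) (hd : d ∈ M) (ha : a ∈ j d) (φ : Fml)
    {v : E.{0}} (hv : EM M v) : ES Q φ (fun i => Shared.LDefs.app (j (v i)) a) ↔
      a ∈ j (ZFSet.sep (fun u => ES M φ fun i => Shared.LDefs.app (v i) u) d) := by
  rw [h.tmU m q (fun p : (S × E.{0}) × Z => ZFSet.sep (fun u => ES p.1.1 φ fun i =>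
    Shared.LDefs.app (p.1.2 i) u) p.2) ((M, v), d) (U.sep U.id'.snd ((U.esApp φ).comp
      (U.id'.fst.fst.prodMk U.id'.snd))) (by exact ⟨⟨rfl, hv⟩, hd⟩), mem_sep]
  exact (and_iff_right ha).symm

namespace MU

variable (h : MU M k W)
include h

theorem bg_const {p : Prop} : (Bg k W fun _ => p) ↔ p :=
  ⟨fun e => let ⟨_, _, e⟩ := h.ex e; e, fun e => by
    rw [Bg, show ZFSet.sep (fun _ => p) k = k by ext; simp [e]]; exact h.top⟩

omit h in
theorem bg_congr {P Q : Z → Prop} (e : ∀ a ∈ k, P a ↔ Q a) : Bg k W P ↔ Bg k W Q :=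
  iff_of_eq (congrArg (· ∈ W) (ZFSet.ext fun a => by
    rw [mem_sep, mem_sep]; exact and_congr_right (e a)))

theorem cst {x : Z} (hx : x ∈ M) : prod k {x} ∈ M :=
  h.zf.tm (fun p : Z × Z => prod p.1 {p.2}) (k, x) (by fun_prop) ⟨h.km, hx⟩

/-- The ultrapower embedding. -/
noncomputable def ju (x : Z) : Z := h.pi (prod k {x})

theorem tr : Tr (h.pi '' M) := by
  rintro _ ⟨g, hg, rfl⟩ y hy
  exact ((h.mem_pi hg).1 hy).imp fun _ e => ⟨e.1, e.2.2⟩

theorem el : Elem M (h.pi '' M) h.ju :=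
  ⟨fun _ hx => ⟨_, h.cst hx, rfl⟩, fun φ v hv => ((h.los φ _ fun i => h.cst (hv i)).trans
    ((bg_congr fun a ha => by simp only [app_const ha]).trans h.bg_const)).symm⟩

theorem zq : ZF0 (h.pi '' M) := h.el.zf h.zf h.tr

theorem pi_mem {f g : Z} (hf : f ∈ M) (hg : g ∈ M) :
    h.pi f ∈ h.pi g ↔ Bg k W fun a => app f a ∈ app g a :=
  h.los (.mem 0 1) (cons f fun _ => g) (EM.cons (fun _ => hg) hf)

theorem fix (a : Z) : a ∈ k → h.ju a = a := by
  induction a using ZFSet.inductionOn with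
  | h a ih =>
    intro ha
    have aM := h.zf.trans _ h.km _ ha
    ext y
    refine ⟨fun hy => ?_, fun hy => ih y hy (h.nz.2.1.mem_trans hy ha) ▸
      (h.el.mem_iff (h.zf.trans _ aM _ hy) aM).2 hy⟩
    obtain ⟨f, hf, e, rfl⟩ := (h.mem_pi (h.cst aM)).1 hy
    by_contra c
    have e0 : gr (fun b => ZFSet.sep (fun x => ¬ app f x = b) k) a ∈ M := h.zf.tm
      (fun p : Z × Z × Z => gr (fun b => ZFSet.sep (fun x => ¬ app p.1 x = b) p.2.1) p.2.2)
      (f, k, a) (by fun_prop) ⟨hf, h.km, aM⟩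
    obtain ⟨x, hx, e1, e2⟩ := h.ex (h.and e (h.nz.2.2.2.2.2.2.2.1 a ha _ e0 fun b hb => by
      have bM := h.zf.trans _ aM _ hb
      rw [app_gr hb]
      refine (h.not (h.zf.tm (fun p : Z × Z × Z => ZFSet.sep (fun x => app p.1 x = p.2.2) p.2.1)
        (f, k, b) (by fun_prop) ⟨hf, h.km, bM⟩)).2 fun e => c ?_
      rwa [h.pi_congr f hf _ (h.cst bM) ((bg_congr fun x hx => by rw [app_const hx]).1 e),
        show h.pi _ = b from ih b hb (h.nz.2.1.mem_trans hb ha)]))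
    rw [app_const hx] at e1
    have := e2 _ e1
    rw [app_gr e1] at this
    exact (mem_sep.1 this).2 rfl

theorem idm : gr (fun a => a) k ∈ M :=
  h.zf.tm (fun p : Z => gr (fun a => a) p) k (by fun_prop) h.km

theorem tail (ha : a ∈ k) : Bg k W fun x => a ∈ x := by
  have aM := h.zf.trans _ h.km _ ha
  have e0 : gr (fun b => k \ {b}) a ∈ M := h.zf.tm (fun p : Z × Z => gr (fun b => p.1 \ {b}) p.2)
    (k, a) (by fun_prop) ⟨h.km, aM⟩
  have e1 : ∀ b ∈ k, k \ {b} ∈ W := fun b hb => by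
    by_contra c
    exact h.nz.2.2.2.2.2.2.1 b hb ((h.nz.2.2.2.2.2.1 _ (h.zf.tm (fun p : Z => ({p} : Z)) b
      (by fun_prop) (h.zf.trans _ h.km _ hb)) fun y hy => mem_singleton.1 hy ▸ hb).2 c)
  have e2 : Bg k W fun x => x ≠ a := by
    rw [Bg, show ZFSet.sep (fun x => x ≠ a) k = k \ {a} by ext; simp]; exact e1 a ha
  refine h.mono (h.and e2 (h.nz.2.2.2.2.2.2.2.1 a ha _ e0 fun b hb => by
    rw [app_gr hb]; exact e1 b (h.nz.2.1.mem_trans hb ha))) (h.zf.tm (fun p : Z × Z =>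
      ZFSet.sep (fun x => p.2 ∈ x) p.1) (k, a) (by fun_prop) ⟨h.km, aM⟩) fun x hx e => ?_
  rcases (h.nz.2.1.mem ha).mem_trichotomous (h.nz.2.1.mem hx) with c | c | c
  · exact c
  · exact (e.1 c.symm).elim
  · have := e.2 x c
    rw [app_gr c] at this
    simp at this

theorem pi_id : h.pi (gr (fun a => a) k) = k := by
  ext y
  refine ⟨fun hy => ?_, fun hy => h.fix y hy ▸ (h.pi_mem (h.cst (h.zf.trans _ h.km _ hy))
    h.idm).2 ((bg_congr fun a ha => by rw [app_const ha, app_gr ha]).2 (h.tail hy))⟩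
  obtain ⟨f, hf, e, rfl⟩ := (h.mem_pi h.idm).1 hy
  obtain ⟨c, hc, e1⟩ := h.nz.2.2.2.2.2.2.2.2 _ e f hf fun a ha => by
    have := (mem_sep.1 ha).2
    rwa [app_gr (mem_sep.1 ha).1] at this
  have cM := h.cst (h.zf.trans _ h.km _ hc)
  rwa [h.pi_congr f hf _ cM (h.nz.2.2.2.2.1 _ e1 _ (h.deq hf cM) (fun x hx => ?_)
    fun _ y => (mem_sep.1 y).1), show h.pi _ = c from h.fix c hc]
  have := (mem_sep.1 (mem_sep.1 hx).1).1
  exact mem_sep.2 ⟨this, (mem_sep.1 hx).2.trans (app_const this).symm⟩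

theorem mem_ju {X : Z} (hX : X ∈ M) : k ∈ h.ju X ↔ Bg k W fun a => a ∈ X := by
  have := (h.pi_mem h.idm (h.cst hX)).trans
    (bg_congr (Q := fun a => a ∈ X) fun a ha => by rw [app_const ha, app_gr ha])
  rwa [h.pi_id] at this

theorem crit : k ∈ h.ju k := (h.mem_ju h.km).2 ((bg_congr fun _ => iff_true_intro).2
  (h.bg_const.2 trivial))

theorem mem_iff {X : Z} (hX : X ∈ M) (e : X ⊆ k) : X ∈ W ↔ k ∈ h.ju X := by
  rw [h.mem_ju hX, Bg, show ZFSet.sep (fun a => a ∈ X) k = X by ext; simpa using fun y => e y]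

theorem app_ju {f : Z} (hf : f ∈ M) : app (h.ju f) k = h.pi f := by
  obtain ⟨φ, e⟩ := U.ud (p := fun p : Z × Z × Z => app p.1 p.2.1 = p.2.2) (by fun_prop)
  let v : E.{0} := fun i => if i % 2 = 0 then prod k {f} else
    if i / 2 % 2 = 0 then gr (fun a => a) k else f
  have hv : EM M v := fun i => by
    simp only [v]
    split_ifs
    exacts [h.cst hf, h.idm, hf]
  have := (e _ h.zq _ fun i => ⟨_, hv i, rfl⟩).1 ((h.los φ v hv).2 ((bg_congr fun a ha =>
    iff_true_intro ((e _ h.zf _ fun i => h.zf.app (hv i) (h.zf.trans _ h.km _ ha)).2 (by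
      show app (app (prod k {f}) a) (app (gr (fun a => a) k) a) = app f a
      rw [app_const ha, app_gr ha]))).2 (h.bg_const.2 trivial)))
  exact (congrArg (app (h.ju f)) h.pi_id).symm.trans this

theorem ext : Ext M (h.pi '' M) h.ju k {k} where
  zf := h.zf
  tr := h.tr
  el := h.el
  dm := h.km
  Dm := h.zf.tm (fun p : Z => ({p} : Z)) k (by fun_prop) h.km
  sub _ e := mem_singleton.1 e ▸ h.crit
  gen := by
    rintro _ ⟨f, hf, rfl⟩
    exact ⟨k, mem_singleton.2 rfl, f, hf, (h.app_ju hf).symm⟩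
  am := by
    refine ⟨_, h.zf.tm (fun p : S × Z × Z => img (fun X => pair (pair p.2.1 p.2.1) X) (ZFSet.sep
      (fun X => ZFSet.sep (fun a => pair a a ∈ X) p.2.1 ∈ p.2.2) (pow p.1 (prod p.2.1 p.2.1))))
      (M, k, W) (by fun_prop) ⟨rfl, h.km, h.nz.1⟩, fun a ha b hb X hX e => ?_⟩
    rw [mem_singleton.1 ha, mem_singleton.1 hb]
    have o : ok M (k, X) := ⟨h.km, hX⟩
    have u : U fun x : Z × Z => ZFSet.sep (fun a => pair a a ∈ x.2) x.1 := by fun_prop
    have := h.mem_iff (h.zf.tm _ _ u o) fun _ y => (mem_sep.1 y).1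
    rw [h.el.tmU h.zf h.zq _ _ u o, mem_sep] at this
    simp only [mem_img, pair_inj, true_and, exists_eq_right, mem_sep, mem_pow]
    exact (and_iff_right ⟨e, hX⟩).trans (this.trans (and_iff_right h.crit))

end MU

theorem ud_rel (φ : Fml) : UD ZF0 fun _ w => ES {x | x ∈ w 0} φ (tl w) := by
  induction φ with
  | mem i j => exact UD.mem _ _
  | eq i j => exact UD.eq _ _
  | neg φ ih => exact ih.not
  | and φ ψ i1 i2 => exact i1.and i2
  | ex φ ih =>
    refine ((UD.mem 0 1).and (ih.rename fun i => match i with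
      | 0 => 1 | 1 => 0 | i + 2 => i + 2)).ex'.congr fun M m v hv => ?_
    have e : ∀ x : Z, tl (fun i => cons x v (match i with | 0 => 1 | 1 => 0 | i + 2 => i + 2)) =
      cons x (tl v) := fun x => funext fun i => by cases i <;> rfl
    simp only [e]
    exact ⟨fun ⟨x, _, a⟩ => ⟨x, a⟩, fun ⟨x, a⟩ => ⟨x, m.trans _ (hv 0) _ a.1, a⟩⟩

/-- An elementary map restricts to an elementary map between sets. -/
theorem Elem.rel (h : Elem M Q j) (m : ZF0 M) (q : ZF0 Q) (ha : a ∈ M) :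
    Elem {x | x ∈ a} {x | x ∈ j a} j :=
  ⟨fun x hx => (h.mem_iff (m.trans _ ha _ hx) ha).2 hx, fun φ v hv => by
    have := h.ud m q (ud_rel φ) (EM.cons (v := v) (fun i => m.trans _ ha _ (hv i)) ha)
    exact this⟩

theorem Elem.csat (h : Elem M Q j) (e : ∅ ∈ M) (e' : j ∅ = ∅) (φ : Fml) (v : List Z)
    (hv : ∀ x ∈ v, x ∈ M) : CSat M φ v ↔ CSat Q φ (v.map j) := by
  rw [csat_iff, csat_iff, h.es φ _ fun i => ?_]
  · refine iff_of_eq (congrArg _ (funext fun i => ?_))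
    rw [← e', List.getD_map]
    rw [e']
  · rw [List.getD_eq_getElem?_getD]
    cases c : v[i]? with
    | none => exact e
    | some a => exact hv a (List.mem_of_getElem? c)

end Pool.Agent.Lib.MP_5c0be7_lc
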