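import Pool.Agent.Lib.MP_5c0be7_lc.Ext

/-!
The Mitchell order: absoluteness, ranks, Solovay's lemma and reflection.
-/

namespace Pool.Agent.Lib.MP_5c0be7_lc

open ZFSet Cx Pool.Agent.Lib.MP_053343_lc
open Pool.Agent.Shared.LDefs (E cons tl img mem_img bun mem_bun app gr app_gr gr_congr app_eq
  fst snd fst_pair snd_pair)

universe u

/-- The Mitchell order, in first-order form. -/
def BZ (M : S) (k W V : Z) : Prop :=
  ∃ g ∈ M, ∀ X ∈ M, X ⊆ k → (X ∈ W ↔ ZFSet.sep (fun a => X ∩ a ∈ app g a) k ∈ V)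

/-- `r` is the rank function of the Mitchell order on `k` and `d` its height. -/
def RZ (M : S) (k r d : Z) : Prop :=
  (∀ V ∈ M, NZ M k V → ∀ x ∈ M, x ∈ app r V ↔
    ∃ W ∈ M, NZ M k W ∧ BZ M k W V ∧ x ∈ insert (app r W) (app r W)) ∧
  ∀ x ∈ M, x ∈ d ↔ ∃ V ∈ M, NZ M k V ∧ x ∈ insert (app r V) (app r V)

/-- `a` injects into `b` in `M`. -/
def IZ (M : S) (a b : Z) : Prop :=
  ∃ g ∈ M, (∀ x ∈ a, app g x ∈ b) ∧ ∀ x ∈ a, ∀ y ∈ a, app g x = app g y → x = y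

/-- `d` has size at most `k⁺` in `M`. -/
def IP (M : S) (d k : Z) : Prop :=
  ∃ g ∈ M, (∀ x ∈ d, (app g x).IsOrdinal ∧ IZ M (app g x) k) ∧
    ∀ x ∈ d, ∀ y ∈ d, app g x = app g y → x = y

/-- `o(k) < k⁺⁺` in `M`. -/
def Sm (M : S) (k : Z) : Prop := ∃ r ∈ M, ∃ d ∈ M, RZ M k r d ∧ IP M d k

section
variable {α : Type u} [Cx α] {m : α → S} {s t r d : α → Z}

@[fun_prop] theorem U.bz (hm : U m) (hs : U s) (ht : U t) (hr : U r) :
    U fun x => BZ (m x) (s x) (t x) (r x) := by unfold BZ; fun_prop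

@[fun_prop] theorem U.rz (hm : U m) (hs : U s) (ht : U t) (hr : U r) :
    U fun x => RZ (m x) (s x) (t x) (r x) := by unfold RZ; fun_prop

@[fun_prop] theorem U.iz (hm : U m) (hs : U s) (ht : U t) : U fun x => IZ (m x) (s x) (t x) := by
  unfold IZ; fun_prop

@[fun_prop] theorem U.ip (hm : U m) (hs : U s) (ht : U t) : U fun x => IP (m x) (s x) (t x) := by
  unfold IP; fun_prop

@[fun_prop] theorem U.sm (hm : U m) (hs : U s) : U fun x => Sm (m x) (s x) := by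
  unfold Sm; fun_prop

end

variable {M N Q : S} {j : Z → Z} {k V W r r' d d' a b : Z}

theorem IZ.mono (h : IZ N a b) (e : N ⊆ M) : IZ M a b := h.imp fun _ h => ⟨e h.1, h.2⟩

theorem IP.mono (h : IP N a b) (e : N ⊆ M) : IP M a b :=
  h.imp fun _ h => ⟨e h.1, fun x hx => ⟨(h.2.1 x hx).1, (h.2.1 x hx).2.mono e⟩, h.2.2⟩

/-- `N` is a submodel of `M` that agrees with `M` near `k`. -/
structure Agr (M N : S) (k : Z) : Prop where
  m : ZF0 M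
  n : ZF0 N
  le : N ⊆ M
  kn : k ∈ N
  sub : ∀ X ∈ M, X ⊆ k → X ∈ N
  sub2 : ∀ X ∈ M, X ⊆ prod k k → X ∈ N
  fn : ∀ g ∈ M, (∀ a ∈ k, app g a ⊆ pow M a) → gr (app g) k ∈ N

theorem Agr.nz (h : Agr M N k) : NZ N k W ↔ NZ M k W ∧ W ∈ N := by
  have km := h.le h.kn
  refine ⟨fun ⟨h1, h2, h3, h4, h5, h6, h7, h8, h9⟩ => ⟨⟨h.le h1, h2, h3, h4,
    fun X hX Y hY e e' => h5 X hX Y (h.sub Y hY e') e e', fun X hX e => h6 X (h.sub X hX e) e, h7,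
    fun b hb g hg e => ?_, fun X hX g hg e => ?_⟩, h1⟩, fun ⟨⟨_, h2, h3, h4, h5, h6, h7, h8, h9⟩,
      h1⟩ => ⟨h1, h2, h3, h4, fun X hX Y hY => h5 X hX Y (h.le hY), fun X hX => h6 X (h.le hX), h7,
      fun b hb g hg => h8 b hb g (h.le hg), fun X hX g hg => h9 X hX g (h.le hg)⟩⟩
  · have e1 : ZFSet.sep (fun p => snd p ∈ app g (fst p)) (prod k k) ∈ N := h.sub2 _ (h.m.tm
      (fun p : Z × Z => ZFSet.sep (fun x => snd x ∈ app p.1 (fst x)) (prod p.2 p.2)) (g, k)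
      (by fun_prop) ⟨hg, km⟩) fun _ y => (mem_sep.1 y).1
    set X := ZFSet.sep (fun p => snd p ∈ app g (fst p)) (prod k k)
    have e2 : gr (fun a => ZFSet.sep (fun x => pair a x ∈ X) k) b ∈ N := h.n.tm
      (fun p : Z × Z × Z => gr (fun a => ZFSet.sep (fun x => pair a x ∈ p.1) p.2.1) p.2.2) (X, k, b)
      (by fun_prop) ⟨e1, h.kn, h.n.trans _ h.kn _ hb⟩
    have e3 : ∀ a ∈ b, app (gr (fun a => ZFSet.sep (fun x => pair a x ∈ X) k) b) a = app g a :=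
      fun a ha => by
        rw [app_gr ha]
        ext x
        simp only [X, mem_sep, pair_mem_prod, fst_pair, snd_pair]
        exact ⟨fun e => e.2.2, fun c => ⟨h4 _ (e a ha) c, ⟨h2.mem_trans ha hb, h4 _ (e a ha) c⟩, c⟩⟩
    convert h8 b hb _ e2 fun a ha => (e3 a ha).symm ▸ e a ha using 1
    ext x
    rw [mem_sep, mem_sep]
    exact and_congr_right fun _ => forall₂_congr fun a ha => by rw [e3 a ha]
  · obtain ⟨c, hc, e1⟩ := h9 X hX _ (h.sub2 _ (h.m.grapp hg (h.le (h.n.trans _ h1 _ hX)))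
      fun z hz => by
        obtain ⟨y, hy, rfl⟩ := mem_gr.1 hz
        exact pair_mem_prod.2 ⟨h4 X hX hy, h2.mem_trans (e y hy) (h4 X hX hy)⟩)
      fun a ha => (app_gr ha).symm ▸ e a ha
    refine ⟨c, hc, ?_⟩
    convert e1 using 1
    ext x
    rw [mem_sep, mem_sep]
    exact and_congr_right fun hx => by rw [app_gr hx]

theorem BZ.norm (h : BZ M k W V) (m : ZF0 M) (km : k ∈ M) : ∃ g ∈ M, (∀ a ∈ k, app g a ⊆ pow M a) ∧
    ∀ X ∈ M, X ⊆ k → (X ∈ W ↔ ZFSet.sep (fun a => X ∩ a ∈ app (gr (app g) k) a) k ∈ V) := by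
  obtain ⟨g, hg, e⟩ := h
  refine ⟨gr (fun a => app g a ∩ pow M a) k, m.tm (fun p : S × Z × Z => gr (fun a => app p.2.1 a ∩
    pow p.1 a) p.2.2) (M, g, k) (by fun_prop) ⟨rfl, hg, km⟩, fun a ha => (app_gr ha).symm ▸
    fun _ y => (mem_inter.1 y).2, fun X hX c => (e X hX c).trans (MU.bg_congr fun a ha => ?_)⟩
  rw [app_gr ha, app_gr ha, mem_inter, mem_pow]
  exact (and_iff_left ⟨fun _ y => (mem_inter.1 y).2, m.tm (fun p : Z × Z => p.1 ∩ p.2) (X, a)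
    (by fun_prop) ⟨hX, m.trans _ km _ ha⟩⟩).symm

theorem Agr.bz (h : Agr M N k) : BZ N k W V ↔ BZ M k W V :=
  ⟨fun ⟨g, hg, e⟩ => ⟨g, h.le hg, fun X hX c => e X (h.sub X hX c) c⟩, fun e =>
    let ⟨g, hg, e1, e2⟩ := e.norm h.m (h.le h.kn)
    ⟨_, h.fn g hg e1, fun X hX => e2 X (h.le hX)⟩⟩

/-- Agreement of a model with the target of an elementary map with critical point `k`. -/
theorem Elem.agr (h : Elem M Q j) (m : ZF0 M) (q : ZF0 Q) (le : Q ⊆ M) (km : k ∈ M)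
    (ko : k.IsOrdinal) (fx : ∀ a ∈ k, j a = a) (cr : k ∈ j k) : Agr M Q k := by
  have kq := q.trans _ (h.map _ km) _ cr
  have f1 : ∀ X ∈ M, ∀ a ∈ k, a ∈ j X ↔ a ∈ X := fun X hX a ha => by
    rw [← h.mem_iff (m.trans _ km _ ha) hX, fx a ha]
  have s1 : ∀ X ∈ M, X ⊆ k → X ∈ Q := fun X hX e => by
    convert q.tm (fun p : Z × Z => p.1 ∩ p.2) (j X, k) (by fun_prop) ⟨h.map _ hX, kq⟩ using 1
    ext y
    exact ⟨fun c => mem_inter.2 ⟨(f1 X hX y (e c)).2 c, e c⟩,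
      fun c => (f1 X hX y (mem_inter.1 c).2).1 (mem_inter.1 c).1⟩
  refine ⟨m, q, le, kq, s1, fun X hX e => ?_, fun g hg e => ?_⟩
  · have : ∀ y ∈ prod k k, y ∈ j X ↔ y ∈ X := fun y hy => by
      obtain ⟨a, ha, b, hb, rfl⟩ := mem_prod.1 hy
      have o : ok M (a, b) := ⟨m.trans _ km _ ha, m.trans _ km _ hb⟩
      rw [← h.mem_iff (m.opair o.1 o.2) hX, h.tmU m q (fun p : Z × Z => pair p.1 p.2) (a, b)
        (by fun_prop) o]
      show _ ↔ pair (j a) (j b) ∈ _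
      rw [fx a ha, fx b hb]
    convert q.tm (fun p : Z × Z => p.1 ∩ prod p.2 p.2) (j X, k) (by fun_prop) ⟨h.map _ hX, kq⟩
      using 1
    ext y
    exact ⟨fun c => mem_inter.2 ⟨(this y (e c)).2 c, e c⟩,
      fun c => (this y (mem_inter.1 c).2).1 (mem_inter.1 c).1⟩
  · convert q.grapp (h.map _ hg) kq using 1
    refine gr_congr fun a ha => ?_
    have aM := m.trans _ km _ ha
    have f2 : ∀ X ∈ M, X ⊆ a → j X = X := fun X hX c => ZFSet.ext fun y =>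
      ⟨fun e => (f1 X hX y (ko.mem_trans (fx a ha ▸ (h.sub m q hX aM).1 c e) ha)).1 e,
        fun e => (f1 X hX y (ko.mem_trans (c e) ha)).2 e⟩
    have gM := m.app hg aM
    rw [← congrArg (Shared.LDefs.app (j g)) (fx a ha), ← h.app m q hg aM]
    ext y
    refine ⟨fun c => f2 y (m.trans _ gM _ c) (mem_pow.1 (e a ha c)).1 ▸
      (h.mem_iff (m.trans _ gM _ c) gM).2 c, fun c => ?_⟩
    have yM := le (q.trans _ (h.map _ gM) _ c)
    have := (h.sub m q gM (m.pow aM)).1 (e a ha) c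
    rw [h.tmU m q (fun p : S × Z => pow p.1 p.2) (M, a) (by fun_prop) (by exact ⟨rfl, aM⟩)] at this
    exact (h.mem_iff yM gM).1 ((f2 y yM (fx a ha ▸ (mem_pow.1 this).1)).symm ▸ c)

theorem MU.agr (h : MU M k V) : Agr M (h.pi '' M) k :=
  h.el.agr h.zf h.zq h.ext.le h.km h.nz.2.1 h.fix h.crit

theorem MU.seed (h : MU M k V) {g X : Z} (hg : g ∈ M) (hX : X ∈ M) (e : X ⊆ k) :
    ZFSet.sep (fun a => X ∩ a ∈ app g a) k ∈ V ↔ X ∈ app (h.ju g) k := by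
  have o : ok M (g, X, k) := ⟨hg, hX, h.km⟩
  have u : U fun x : Z × Z × Z => ZFSet.sep (fun a => x.2.1 ∩ a ∈ app x.1 a) x.2.2 := by fun_prop
  have := h.mem_iff (u.mem_of h.zf (g, X, k) o) fun _ y => (mem_sep.1 y).1
  rw [h.el.tmU h.zf h.zq _ _ u o, mem_sep] at this
  refine this.trans ((and_iff_right h.crit).trans (iff_of_eq (congrArg (· ∈ app (h.ju g) k)
    (?_ : h.ju X ∩ k = X))))
  ext y
  have f : y ∈ k → (y ∈ h.ju X ↔ y ∈ X) := fun ha => by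
    rw [← h.el.mem_iff (h.zf.trans _ h.km _ ha) hX, h.fix y ha]
  exact mem_inter.trans ⟨fun c => (f c.2).1 c.1, fun c => ⟨(f (e c)).2 c, e c⟩⟩

/-- The Mitchell order is membership in the ultrapower. -/
theorem MU.bz_iff (h : MU M k V) (hW : W ∈ M) (e : ∀ X ∈ W, X ⊆ k) :
    BZ M k W V ↔ W ∈ h.pi '' M := by
  constructor
  · rintro ⟨g, hg, e1⟩
    convert h.zq.tm (fun p : S × Z × Z => app p.2.1 p.2.2 ∩ pow p.1 p.2.2) (_, h.ju g, k)
      (by fun_prop) ⟨rfl, h.el.map _ hg, h.agr.kn⟩ using 1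
    ext X
    rw [mem_inter, mem_pow]
    refine ⟨fun c => ?_, fun c => ?_⟩
    · have := h.zf.trans _ hW _ c
      exact ⟨(h.seed hg this (e X c)).1 ((e1 X this (e X c)).1 c), e X c, h.agr.sub X this (e X c)⟩
    · have := h.ext.le c.2.2
      exact (e1 X this c.2.1).2 ((h.seed hg this c.2.1).2 c.1)
  · rintro ⟨g, hg, rfl⟩
    exact ⟨g, hg, fun X hX c => by rw [h.seed hg hX c, h.app_ju hg]⟩

theorem RZ.lt (h : RZ M k r d) (m : ZF0 M) (hr : r ∈ M) (hV : NZ M k V) (hW : NZ M k W)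
    (e : BZ M k W V) : app r W ∈ app r V :=
  (h.1 V hV.1 hV _ (m.app hr hW.1)).2 ⟨W, hW.1, hW, e, mem_insert _ _⟩

/-- Rank functions agree on a submodel that is closed downward. -/
theorem Agr.rz (h : Agr M N k) (cl : ∀ V ∈ N, NZ M k V → ∀ W, NZ M k W → BZ M k W V → W ∈ N)
    (hr : r ∈ M) (hr' : r' ∈ N) (e : RZ M k r d) (e' : RZ N k r' d') (hV : NZ N k V) :
    app r' V = app r V := by
  generalize hy : app r' V = y
  induction y using ZFSet.inductionOn generalizing V with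
  | h y ih =>
    subst hy
    have V1 := (h.nz.1 hV).1
    ext x
    refine ⟨fun c => ?_, fun c => ?_⟩
    · have xN := h.n.trans _ (h.n.app hr' hV.1) _ c
      obtain ⟨W, w1, w2, w3, w4⟩ := (e'.1 V hV.1 hV x xN).1 c
      rw [ih _ (e'.lt h.n hr' hV w2 w3) w2 rfl] at w4
      exact (e.1 V V1.1 V1 x (h.le xN)).2 ⟨W, h.le w1, (h.nz.1 w2).1, h.bz.1 w3, w4⟩
    · obtain ⟨W, w1, w2, w3, w4⟩ := (e.1 V V1.1 V1 x (h.m.trans _ (h.m.app hr V1.1) _ c)).1 c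
      have w5 := h.nz.2 ⟨w2, cl V hV.1 V1 W w2 w3⟩
      rw [← ih _ (e'.lt h.n hr' hV w5 (h.bz.2 w3)) w5 rfl] at w4
      have := h.n.app hr' w5.1
      exact (e'.1 V hV.1 hV x (h.n.trans _ (h.n.insert this this) _ w4)).2
        ⟨W, w5.1, w5, h.bz.2 w3, w4⟩

theorem MU.cl (h : MU M k V) (W : Z) (w : W ∈ h.pi '' M) (_ : NZ M k W) (W' : Z) (e : NZ M k W')
    (e' : BZ M k W' W) : W' ∈ h.pi '' M := by
  obtain ⟨g, hg, e1⟩ := h.agr.bz.2 e'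
  convert h.zq.tm (fun p : S × Z × Z × Z => ZFSet.sep (fun X => ZFSet.sep (fun a => X ∩ a ∈
    app p.2.1 a) p.2.2.1 ∈ p.2.2.2) (pow p.1 p.2.2.1)) (_, g, k, W) (by fun_prop)
    ⟨rfl, hg, h.agr.kn, w⟩ using 1
  ext X
  rw [mem_sep, mem_pow]
  refine ⟨fun c => ?_, fun c => (e1 X c.1.2 c.1.1).2 c.2⟩
  have h1 := e.2.2.2.1 X c
  have h2 := h.agr.sub X (h.zf.trans _ e.1 _ c) h1
  exact ⟨⟨h1, h2⟩, (e1 X h2 h1).1 c⟩

/-- The rank of a measure is the Mitchell order of `k` in its ultrapower. -/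
theorem MU.rank_eq (h : MU M k V) (hr : r ∈ M) (hr' : r' ∈ h.pi '' M) (hd : d' ∈ h.pi '' M)
    (e : RZ M k r d) (e' : RZ (h.pi '' M) k r' d') : app r V = d' := by
  ext x
  refine ⟨fun c => ?_, fun c => ?_⟩
  · obtain ⟨W, w1, w2, w3, w4⟩ := (e.1 V h.nz.1 h.nz x (h.zf.trans _ (h.zf.app hr h.nz.1) _ c)).1 c
    have w5 := h.agr.nz.2 ⟨w2, (h.bz_iff w1 w2.2.2.2.1).1 w3⟩
    rw [← h.agr.rz h.cl hr hr' e e' w5] at w4
    have := h.zq.app hr' w5.1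
    exact (e'.2 x (h.tr _ (h.zq.insert this this) _ w4)).2 ⟨W, w5.1, w5, w4⟩
  · obtain ⟨W, w1, w2, w4⟩ := (e'.2 x (h.tr _ hd _ c)).1 c
    rw [h.agr.rz h.cl hr hr' e e' w2] at w4
    have w3 := (h.agr.nz.1 w2).1
    exact (e.1 V h.nz.1 h.nz x (h.ext.le (h.tr _ hd _ c))).2
      ⟨W, w3.1, w3, (h.bz_iff w3.1 w3.2.2.2.1).2 w1, w4⟩

theorem RZ.ord (h : RZ M k r d) (m : ZF0 M) (hr : r ∈ M) (hV : NZ M k V) :
    (app r V).IsOrdinal := by
  generalize hy : app r V = y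
  induction y using ZFSet.inductionOn generalizing V with
  | h y ih =>
    subst hy
    have t := m.trans _ (m.app hr hV.1)
    refine isOrdinal_iff_forall_mem_isOrdinal.2 ⟨fun x c z hz => ?_, fun x c => ?_⟩ <;>
      obtain ⟨W, w1, w2, w3, w4⟩ := (h.1 V hV.1 hV x (t _ c)).1 c <;>
      have := isOrdinal_succ (ih _ (h.lt m hr hV w2 w3) w2 rfl)
    · exact (h.1 V hV.1 hV z (m.trans _ (t _ c) _ hz)).2 ⟨W, w1, w2, w3, this.mem_trans hz w4⟩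
    · exact this.mem w4

theorem RZ.ord' (h : RZ M k r d) (m : ZF0 M) (hr : r ∈ M) (hd : d ∈ M) : d.IsOrdinal := by
  have t := m.trans _ hd
  refine isOrdinal_iff_forall_mem_isOrdinal.2 ⟨fun x c z hz => ?_, fun x c => ?_⟩ <;>
    obtain ⟨W, w1, w2, w4⟩ := (h.2 x (t _ c)).1 c <;> have := isOrdinal_succ (h.ord m hr w2)
  · exact (h.2 z (m.trans _ (t _ c) _ hz)).2 ⟨W, w1, w2, this.mem_trans hz w4⟩
  · exact this.mem w4

theorem ZF0.exists_rz (m : ZF0 M) (km : k ∈ M)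
    (wf : WellFounded fun W V => NZ M k W ∧ NZ M k V ∧ BZ M k W V) :
    ∃ r ∈ M, ∃ d ∈ M, RZ M k r d := by
  have hD : ZFSet.sep (fun V => NZ M k V) (MP_5c0be7_lc.pow M (MP_5c0be7_lc.pow M k)) ∈ M :=
    m.tm (fun p : S × Z => ZFSet.sep (fun V => NZ p.1 p.2 V) (MP_5c0be7_lc.pow p.1
      (MP_5c0be7_lc.pow p.1 p.2))) (M, k) (by fun_prop) ⟨rfl, km⟩
  set D := ZFSet.sep (fun V => NZ M k V) (MP_5c0be7_lc.pow M (MP_5c0be7_lc.pow M k))
  have mD : ∀ V, V ∈ D ↔ NZ M k V := fun V => mem_sep.trans (and_iff_right_of_imp fun e =>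
    mem_pow.2 ⟨fun X hX => mem_pow.2 ⟨e.2.2.2.1 X hX, m.trans _ e.1 _ hX⟩, e.1⟩)
  obtain ⟨r, hr, e⟩ := m.recur (pr := fun (p : S × Z × Z) V => ZFSet.sep (fun W =>
    BZ p.1 p.2.1 W V) p.2.2) (G := fun p V g => bun (ZFSet.sep (fun W => BZ p.1 p.2.1 W V) p.2.2)
      fun W => Insert.insert (Shared.LDefs.app g W) (Shared.LDefs.app g W)) (by fun_prop)
    (by fun_prop) (M, k, D) (by exact ⟨rfl, km, hD⟩) hD (fun _ _ _ y => (mem_sep.1 y).1)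
    fun s _ sD a ha => by
      obtain ⟨a, h1, h2⟩ := wf.has_min {x | x ∈ s} ⟨a, ha⟩
      exact ⟨a, h1, fun c hc e => h2 c e ⟨(mD _).1 (sD e), (mD _).1 (sD h1), (mem_sep.1 hc).2⟩⟩
  refine ⟨r, hr, _, m.tm (fun p : Z × Z => bun p.2 fun W => Insert.insert (Shared.LDefs.app p.1 W)
    (Shared.LDefs.app p.1 W)) (r, D) (by fun_prop) ⟨hr, hD⟩, fun V _ hV x _ => ?_, fun x _ => ?_⟩
  · rw [e V ((mD V).2 hV), mem_bun]
    refine exists_congr fun W => ⟨fun ⟨a, b⟩ => ?_, fun ⟨_, a, b, c⟩ => ?_⟩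
    · have := (mD W).1 (mem_sep.1 a).1
      exact ⟨this.1, this, (mem_sep.1 a).2, by rwa [app_gr a] at b⟩
    · have : W ∈ ZFSet.sep (fun W => BZ M k W V) D := mem_sep.2 ⟨(mD W).2 a, b⟩
      exact ⟨this, by rwa [app_gr this]⟩
  · exact mem_bun.trans (exists_congr fun W => ⟨fun ⟨a, b⟩ => ⟨((mD W).1 a).1, (mD W).1 a, b⟩,
      fun ⟨_, a, b⟩ => ⟨(mD W).2 a, b⟩⟩)

/-- At the least failure of `o(k) < k⁺⁺` the order is exactly `k⁺⁺`. -/
theorem exists_exact (m : ZF0 M) (c : AC M) (km : k ∈ M) (ko : k.IsOrdinal) (h : ¬ Sm M k) :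
    ∃ k ∈ M, k.IsOrdinal ∧ ∃ r ∈ M, ∃ d ∈ M, RZ M k r d ∧ ¬ IP M d k ∧ ∀ x ∈ d, IP M x k := by
  obtain ⟨k, ⟨km, ko, h⟩, hk⟩ := mem_wf.has_min {k | k ∈ M ∧ k.IsOrdinal ∧ ¬ Sm M k} ⟨k, km, ko, h⟩
  have key : ∀ V (hV : NZ M k V), Sm ((MU.mk m c km hV).pi '' M) k := fun V hV =>
    let u := MU.mk m c km hV
    (u.el.iffU m u.zq (fun p : S × Z => ∀ a ∈ p.2, Sm p.1 a) (M, k) (by fun_prop)
      (by exact ⟨rfl, km⟩)).1 (fun a ha => by
        by_contra e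
        exact hk a ⟨m.trans _ km _ ha, ko.mem ha, e⟩ ha) k u.crit
  obtain ⟨r, hr, d, hd, e⟩ := m.exists_rz km ⟨fun V => ⟨_, fun W w => by
    obtain ⟨w1, hV, w2⟩ := w
    let u := MU.mk m c km hV
    obtain ⟨r', hr', d', -, e', -⟩ := key V hV
    have w3 := u.agr.nz.2 ⟨w1, (u.bz_iff w1.1 w1.2.2.2.1).1 w2⟩
    clear w1 w2
    generalize hy : app r' W = y
    induction y using ZFSet.inductionOn generalizing W with
    | h y ih =>
      refine ⟨_, fun W' ⟨a1, a2, a3⟩ => ?_⟩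
      have a4 := u.agr.nz.2 ⟨a1, u.cl W w3.1 a2 W' a1 a3⟩
      exact ih _ (hy ▸ e'.lt u.zq hr' w3 a4 (u.agr.bz.2 a3)) W' a4 rfl⟩⟩
  refine ⟨k, km, ko, r, hr, d, hd, e, fun a => h ⟨r, hr, d, hd, e, a⟩, fun x hx => ?_⟩
  obtain ⟨V, -, hV, e1⟩ := (e.2 x (m.trans _ hd _ hx)).1 hx
  let u := MU.mk m c km hV
  obtain ⟨r', hr', d', hd', e', g, hg, e2, e3⟩ := key V hV
  rw [u.rank_eq hr hr' hd' e e'] at e1
  have : x ⊆ d' := (mem_insert_iff.1 e1).elim (fun e => e ▸ fun _ => id)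
    (e'.ord' u.zq hr' hd').subset_of_mem
  exact IP.mono ⟨g, hg, fun y hy => e2 y (this hy), fun y hy z hz => e3 y (this hy) z (this hz)⟩
    u.ext.le

end Pool.Agent.Lib.MP_5c0be7_lc
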