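import Mathlib

/-!
Named structures: an initial segment of a well-ordered type with pairing, together with a relation
`In u n` (the point `u` lies in the set named by the point `n`).  First-order language, the axioms
that make the collapse a model of ZFC, and their transfer along elementary maps.
This file does not depend on set theory.
-/

namespace Pool.Agent.Lib.MP_5c0be7_lc

universe u

/-- The ambient type: a set-like well-order with an injective pairing. -/
structure Amb (T : Type u) where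
  lt : T → T → Prop
  pr : T → T → T
  wo : IsWellOrder T lt
  small : ∀ a, Small.{0} {u // lt u a}
  inj : ∀ a b c d, pr a b = pr c d → a = c ∧ b = d

/-- A carrier with a naming relation. -/
structure NS (T : Type u) where
  C : Set T
  In : T → T → Prop

/-- Formulas of the language of named structures. -/
inductive Fm : Type
  | mem (i j : ℕ) : Fm
  | lt (i j : ℕ) : Fm
  | eq (i j : ℕ) : Fm
  | pr (i j k : ℕ) : Fm
  | neg (φ : Fm) : Fm
  | and (φ ψ : Fm) : Fm
  | ex (φ : Fm) : Fm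

variable {T : Type u}

/-- Push a value on an environment. -/
def cs (x : T) (v : ℕ → T) : ℕ → T
  | 0 => x
  | n + 1 => v n

variable (G : Amb T)

/-- Satisfaction. -/
def NS.Sat (A : NS T) : Fm → (ℕ → T) → Prop
  | .mem i j, v => A.In (v i) (v j)
  | .lt i j, v => G.lt (v i) (v j)
  | .eq i j, v => v i = v j
  | .pr i j k, v => v i = G.pr (v j) (v k)
  | .neg φ, v => ¬ A.Sat φ v
  | .and φ ψ, v => A.Sat φ v ∧ A.Sat ψ v
  | .ex φ, v => ∃ x ∈ A.C, A.Sat φ (cs x v)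

/-- The elementary properties of a named structure. -/
structure NS.Base (A : NS T) : Prop where
  ne : A.C.Nonempty
  init : ∀ a ∈ A.C, ∀ b, G.lt b a → b ∈ A.C
  nomax : ∀ a ∈ A.C, ∃ b ∈ A.C, G.lt a b
  prc : ∀ a ∈ A.C, ∀ b ∈ A.C, G.pr a b ∈ A.C
  lt : ∀ u n, A.In u n → G.lt u n

/-- Comprehension, collection and power set. -/
structure NS.Good (A : NS T) : Prop extends A.Base G where
  comp : ∀ φ v, (∀ i, v i ∈ A.C) → ∀ a ∈ A.C, ∃ m ∈ A.C, ∀ u, A.In u m ↔
    G.lt u a ∧ A.Sat G φ (cs u v)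
  bdd : ∀ φ v, (∀ i, v i ∈ A.C) → ∀ a ∈ A.C, (∀ u, G.lt u a → ∃ w ∈ A.C,
    A.Sat G φ (cs w (cs u v))) → ∃ b ∈ A.C, ∀ u, G.lt u a → ∃ w, G.lt w b ∧
      A.Sat G φ (cs w (cs u v))
  pow : ∀ a ∈ A.C, ∃ b ∈ A.C, ∀ n ∈ A.C, (∀ u, A.In u n → G.lt u a) →
    ∃ w, G.lt w b ∧ ∀ u, A.In u w ↔ A.In u n

/-- Elementary maps. -/
structure NS.El (A B : NS T) (σ : T → T) : Prop where
  map : ∀ x ∈ A.C, σ x ∈ B.C
  sat : ∀ φ v, (∀ i, v i ∈ A.C) → (A.Sat G φ v ↔ B.Sat G φ fun i => σ (v i))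

/-- Definable by one formula in all structures satisfying `K`. -/
def FD (K : NS T → Prop) (P : NS T → (ℕ → T) → Prop) : Prop :=
  ∃ φ, ∀ A, K A → ∀ v, (∀ i, v i ∈ A.C) → (A.Sat G φ v ↔ P A v)

variable {G}

theorem cs_mem {C : Set T} {x : T} {v : ℕ → T} (hv : ∀ i, v i ∈ C) (hx : x ∈ C) : ∀ i, cs x v i ∈ C
  | 0 => hx
  | n + 1 => hv n

theorem sat_fin (φ : Fm) : ∃ n, ∀ (A : NS T) v w, (∀ i < n, v i = w i) →
    (A.Sat G φ v ↔ A.Sat G φ w) := by
  induction φ with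
  | mem i j | lt i j | eq i j => exact ⟨max i j + 1, fun M v w h => by
      simp only [NS.Sat]; rw [h i (by omega), h j (by omega)]⟩
  | pr i j k => exact ⟨max i (max j k) + 1, fun M v w h => by
      simp only [NS.Sat]; rw [h i (by omega), h j (by omega), h k (by omega)]⟩
  | neg φ ih => exact ih.imp fun n h M v w e => not_congr (h M v w e)
  | and φ ψ i1 i2 =>
    obtain ⟨n, h⟩ := i1
    obtain ⟨m, h'⟩ := i2
    exact ⟨max n m, fun M v w e => and_congr (h M v w fun i hi => e i (by omega))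
      (h' M v w fun i hi => e i (by omega))⟩
  | ex φ ih =>
    refine ih.imp fun n h M v w e => exists_congr fun x => and_congr_right fun _ => h M _ _ ?_
    rintro (_ | i) hi
    exacts [rfl, e i (by omega)]

namespace FD

variable {K : NS T → Prop} {P Q : NS T → (ℕ → T) → Prop}

theorem sat (φ : Fm) : FD G K fun A v => A.Sat G φ v := ⟨φ, fun _ _ _ _ => Iff.rfl⟩

theorem mem (i j : ℕ) : FD G K fun A v => A.In (v i) (v j) := sat (.mem i j)

theorem lt (i j : ℕ) : FD G K fun _ v => G.lt (v i) (v j) := sat (.lt i j)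

theorem eq (i j : ℕ) : FD G K fun _ v => v i = v j := sat (.eq i j)

theorem pr (i j k : ℕ) : FD G K fun _ v => v i = G.pr (v j) (v k) := sat (.pr i j k)

theorem congr (h : FD G K P) (e : ∀ A, K A → ∀ v, (∀ i, v i ∈ A.C) → (P A v ↔ Q A v)) :
    FD G K Q := h.imp fun _ h M k v hv => (h M k v hv).trans (e M k v hv)

theorem mono {K' : NS T → Prop} (h : FD G K P) (e : ∀ A, K' A → K A) : FD G K' P :=
  h.imp fun _ h M k => h M (e M k)

theorem not (h : FD G K P) : FD G K fun M v => ¬ P M v :=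
  let ⟨φ, h⟩ := h; ⟨.neg φ, fun M k v hv => not_congr (h M k v hv)⟩

theorem and (h : FD G K P) (h' : FD G K Q) : FD G K fun M v => P M v ∧ Q M v :=
  let ⟨φ, h⟩ := h; let ⟨ψ, h'⟩ := h'
  ⟨.and φ ψ, fun M k v hv => and_congr (h M k v hv) (h' M k v hv)⟩

theorem ex (h : FD G K P) : FD G K fun M v => ∃ x ∈ M.C, P M (cs x v) :=
  let ⟨φ, h⟩ := h
  ⟨.ex φ, fun M k v hv => exists_congr fun _ => and_congr_right fun hx => h M k _ (cs_mem hv hx)⟩

theorem or (h : FD G K P) (h' : FD G K Q) : FD G K fun M v => P M v ∨ Q M v :=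
  (h.not.and h'.not).not.congr fun _ _ _ _ => by tauto

theorem imp' (h : FD G K P) (h' : FD G K Q) : FD G K fun M v => P M v → Q M v :=
  (h.and h'.not).not.congr fun _ _ _ _ => by tauto

theorem iff (h : FD G K P) (h' : FD G K Q) : FD G K fun M v => P M v ↔ Q M v :=
  ((h.imp' h').and (h'.imp' h)).congr fun _ _ _ _ => by tauto

theorem all (h : FD G K P) : FD G K fun M v => ∀ x ∈ M.C, P M (cs x v) :=
  h.not.ex.not.congr fun _ _ _ _ => by simp

theorem sat_rename (φ : Fm) : ∀ σ : ℕ → ℕ, FD G K fun M v => M.Sat G φ fun i => v (σ i) := by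
  induction φ with
  | mem i j => exact fun σ => mem _ _
  | lt i j => exact fun σ => lt _ _
  | eq i j => exact fun σ => eq _ _
  | pr i j k => exact fun σ => pr _ _ _
  | neg φ ih => exact fun σ => (ih σ).not
  | and φ ψ i1 i2 => exact fun σ => (i1 σ).and (i2 σ)
  | ex φ ih =>
    refine fun σ => (ih fun i => match i with | 0 => 0 | i + 1 => σ i + 1).ex.congr
      fun M _ v _ => exists_congr fun x => and_congr_right fun _ => iff_of_eq (congrArg _ ?_)
    funext i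
    cases i <;> rfl

theorem rename (h : FD G K P) (σ : ℕ → ℕ) : FD G K fun M v => P M fun i => v (σ i) :=
  let ⟨φ, h⟩ := h; (sat_rename φ σ).congr fun M k _ hv => h M k _ fun _ => hv _

theorem memPr (i j k : ℕ) : FD G (NS.Base G) fun A v => A.In (G.pr (v i) (v j)) (v k) :=
  ((pr 0 (i + 1) (j + 1)).and (mem 0 (k + 1))).ex.congr fun _ h _ hv =>
    ⟨fun ⟨_, _, e, c⟩ => (show _ = G.pr _ _ from e) ▸ c,
      fun c => ⟨_, h.prc _ (hv i) _ (hv j), rfl, c⟩⟩

end FD

namespace NS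

variable {A B : NS T} {σ : T → T} {K : NS T → Prop} {P : NS T → (ℕ → T) → Prop}

theorem El.fd (h : A.El G B σ) (k : K A) (k' : K B) (hP : FD G K P) {v : ℕ → T}
    (hv : ∀ i, v i ∈ A.C) : P A v ↔ P B fun i => σ (v i) :=
  let ⟨φ, e⟩ := hP
  (e A k v hv).symm.trans ((h.sat φ v hv).trans (e B k' _ fun i => h.map _ (hv i)))

theorem El.all_sat (h : A.El G B σ) {c : T} (hc : c ∈ A.C) (n : ℕ) : ∀ φ,
    (∀ (N : NS T) v w, (∀ i < n, v i = w i) → (N.Sat G φ v ↔ N.Sat G φ w)) →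
    (∀ v, (∀ i, v i ∈ A.C) → A.Sat G φ v) → ∀ w, (∀ i, w i ∈ B.C) → B.Sat G φ w := by
  induction n with
  | zero => exact fun φ f H w _ => (f B _ w nofun).1 ((h.sat φ _ fun _ => hc).1 (H _ fun _ => hc))
  | succ n ih =>
    intro φ f H w hw
    have := ih (.neg (.ex (.neg φ))) (fun N v w e => not_congr (exists_congr fun x =>
      and_congr_right fun _ => not_congr (f N _ _ (by
        rintro (_ | i) hi
        exacts [rfl, e i (by omega)])))) (fun v hv ⟨x, hx, e⟩ => e (H _ (cs_mem hv hx)))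
      (fun i => w (i + 1)) fun i => hw _
    by_contra e
    refine this ⟨w 0, hw 0, fun e' => e ((f B _ _ ?_).1 e')⟩
    rintro (_ | i) _ <;> rfl

theorem El.all (h : A.El G B σ) (ne : A.C.Nonempty) (k : K A) (k' : K B) (hP : FD G K P)
    (H : ∀ v, (∀ i, v i ∈ A.C) → P A v) (w : ℕ → T) (hw : ∀ i, w i ∈ B.C) : P B w :=
  let ⟨φ, e⟩ := hP; let ⟨n, f⟩ := sat_fin (G := G) φ; let ⟨_, hc⟩ := ne
  (e B k' w hw).1 (h.all_sat hc n φ f (fun v hv => (e A k v hv).2 (H v hv)) w hw)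

theorem Base.mem (h : A.Base G) {u n : T} (hn : n ∈ A.C) (e : A.In u n) : u ∈ A.C :=
  h.init n hn u (h.lt u n e)

theorem fd_comp (φ : Fm) : FD G (Base G) fun A v => ∃ m ∈ A.C, ∀ u, A.In u m ↔
    G.lt u (v 0) ∧ A.Sat G φ (cs u fun i => v (i + 1)) := by
  refine ((FD.mem 0 1).iff ((FD.lt 0 2).and (FD.sat_rename φ fun i =>
    match i with | 0 => 0 | i + 1 => i + 3))).all.ex.congr fun M t v hv => ?_
  have e : ∀ x b : T, (fun i => cs x (cs b v) (match i with | 0 => 0 | i + 1 => i + 3)) =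
      cs x fun i => v (i + 1) := fun x b => funext fun i => by cases i <;> rfl
  simp only [e]
  exact exists_congr fun m => and_congr_right fun hm => ⟨fun h u => ⟨fun c => (h u (t.mem hm c)).1 c,
    fun c => (h u (t.init _ (hv 0) _ c.1)).2 c⟩, fun h u _ => h u⟩

theorem fd_bdd (φ : Fm) : FD G (Base G) fun A v => (∀ u, G.lt u (v 0) → ∃ w ∈ A.C,
    A.Sat G φ (cs w (cs u fun i => v (i + 1)))) → ∃ b ∈ A.C, ∀ u, G.lt u (v 0) → ∃ w, G.lt w b ∧
      A.Sat G φ (cs w (cs u fun i => v (i + 1))) := by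
  refine (((FD.lt 0 1).imp' (FD.sat_rename φ fun i =>
    match i with | 0 => 0 | 1 => 1 | i + 2 => i + 3).ex).all.imp' ((FD.lt 0 2).imp'
      ((FD.lt 0 2).and (FD.sat_rename φ fun i =>
    match i with | 0 => 0 | 1 => 1 | i + 2 => i + 4)).ex).all.ex).congr fun M t v hv => ?_
  have e : ∀ x y : T, (fun i => cs y (cs x v)
      (match i with | 0 => 0 | 1 => 1 | i + 2 => i + 3)) = cs y (cs x fun i => v (i + 1)) :=
    fun x b => funext fun i => by rcases i with _ | _ | i <;> rfl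
  have e' : ∀ x y b : T, (fun i => cs y (cs x (cs b v))
      (match i with | 0 => 0 | 1 => 1 | i + 2 => i + 4)) = cs y (cs x fun i => v (i + 1)) :=
    fun x y b => funext fun i => by rcases i with _ | _ | i <;> rfl
  simp only [e, e']
  refine imp_congr ⟨fun h x hx => h x (t.init _ (hv 0) _ hx) hx, fun h x _ => h x⟩
    (exists_congr fun b => and_congr_right fun hb => ⟨fun h x hx => ?_, fun h x _ hx => ?_⟩)
  · exact (h x (t.init _ (hv 0) _ hx) hx).imp fun _ h => h.2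
  · exact (h x hx).imp fun _ h => ⟨t.init _ hb _ h.1, h⟩

theorem fd_pow : FD G (Base G) fun A v => ∃ b ∈ A.C, ∀ n ∈ A.C, (∀ u, A.In u n → G.lt u (v 0)) →
    ∃ w, G.lt w b ∧ ∀ u, A.In u w ↔ A.In u n :=
  (((FD.mem 0 1).imp' (FD.lt 0 3)).all.imp' ((FD.lt 0 2).and ((FD.mem 0 1).iff
    (FD.mem 0 2)).all).ex).all.ex.congr fun _ t _ _ => exists_congr fun _ =>
      and_congr_right fun hb => forall₂_congr fun _ hn => imp_congr
        ⟨fun h u c => h u (t.mem hn c) c, fun h u _ => h u⟩ ⟨fun ⟨w, hw, h1, h2⟩ => ⟨w, h1, fun u =>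
          ⟨fun c => (h2 u (t.mem hw c)).1 c, fun c => (h2 u (t.mem hn c)).2 c⟩⟩,
          fun ⟨w, h1, h2⟩ => ⟨w, t.init _ hb _ h1, h1, fun u _ => h2 u⟩⟩

/-- The axioms pass to the target of an elementary map. -/
theorem El.good (h : A.El G B σ) (a : A.Good G) (b : B.Base G) : B.Good G :=
  ⟨b, fun φ _ hv _ hc => h.all a.ne a.toBase b (fd_comp φ)
      (fun v hv => a.comp φ _ (fun _ => hv _) _ (hv 0)) _ (cs_mem hv hc),
    fun φ _ hv _ hc => h.all a.ne a.toBase b (fd_bdd φ)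
      (fun v hv => a.bdd φ _ (fun _ => hv _) _ (hv 0)) _ (cs_mem hv hc),
    fun c hc => h.all a.ne a.toBase b fd_pow (fun v hv => a.pow _ (hv 0)) (fun _ => c) fun _ => hc⟩

/-- The axioms hold in a bounded elementary initial segment `A` of `B` if the bounded definable
subsets of `A` are named in `B` and bounded subsets of `A` named in `B` are named in `A`. -/
theorem El.good_of_top (h : A.El G B id) (a : A.Base G) (b : B.Base G) {t : T} (ht : t ∈ B.C)
    (top : ∀ x ∈ A.C, G.lt x t)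
    (df : ∀ φ v, (∀ i, v i ∈ A.C) → ∀ c ∈ A.C, ∃ m ∈ B.C, ∀ u, B.In u m ↔
      G.lt u c ∧ A.Sat G φ (cs u v))
    (ini : ∀ c ∈ A.C, ∀ n ∈ B.C, (∀ u, B.In u n → G.lt u c) → ∃ w ∈ A.C, ∀ u, B.In u w ↔ B.In u n) :
    A.Good G := by
  have e : ∀ w ∈ A.C, ∀ u, A.In u w ↔ B.In u w := fun w hw u =>
    have k := fun hu : u ∈ A.C => h.sat (.mem 0 1) (cs u fun _ => w) (cs_mem (fun _ => hw) hu)
    ⟨fun c => (k (a.mem hw c)).1 c, fun c => (k (a.init w hw u (b.lt u w c))).2 c⟩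
  refine ⟨a, fun φ v hv c hc => ?_, fun φ v hv c hc H => (h.fd a b (fd_bdd φ) (cs_mem hv hc)).2
    (fun _ => ⟨t, ht, fun u hu => ?_⟩) H, fun c hc => (h.fd a b fd_pow (v := fun _ => c)
      fun _ => hc).2 ⟨t, ht, fun n hn H => ?_⟩⟩
  · obtain ⟨m, hm, h1⟩ := df φ v hv c hc
    obtain ⟨w, hw, h2⟩ := ini c hc m hm fun u c => ((h1 u).1 c).1
    exact ⟨w, hw, fun u => (e w hw u).trans ((h2 u).trans (h1 u))⟩
  · obtain ⟨w, hw, h1⟩ := H u hu
    exact ⟨w, top w hw, (h.sat φ _ (cs_mem (cs_mem hv (a.init c hc u hu)) hw)).1 h1⟩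
  · obtain ⟨w, hw, h1⟩ := ini c hc n hn H
    exact ⟨w, top w hw, h1⟩

/-- `σ : A → B` is elementary with critical point `k`, `B` is generated by the range of `σ` and
the points below `σ k`, and the derived extender is named in `A`. -/
structure Xt (G : Amb T) (A B : NS T) (σ : T → T) (k : T) : Prop where
  base : B.Base G
  el : A.El G B σ
  km : k ∈ A.C
  sk : σ k ∈ A.C
  cl : ∀ u w, G.lt u k → G.lt w k → G.lt (G.pr u w) k
  fix : ∀ a, G.lt a k → σ a = a
  gen : ∀ y ∈ B.C, ∃ a, G.lt a (σ k) ∧ ∃ f ∈ A.C, ∀ z, B.In (G.pr a z) (σ f) ↔ z = y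
  am : ∃ e ∈ A.C, (∀ a n, n ∈ A.C → A.In (G.pr a n) e → B.In a (σ n)) ∧
    ∀ n ∈ A.C, (∀ u, A.In u n → G.lt u k) → ∃ w ∈ A.C, (∀ u, A.In u w ↔ A.In u n) ∧
      ∀ a, G.lt a (σ k) → B.In a (σ w) → A.In (G.pr a w) e

/-- `k` is strong up to `b` in `A`. -/
def Str (G : Amb T) (A : NS T) (k b : T) : Prop :=
  ∃ B σ, Xt G A B σ k ∧ G.lt b (σ k) ∧ ∀ n, G.lt n b → ∀ u, A.In u n ↔ B.In u n

end NS

end Pool.Agent.Lib.MP_5c0be7_lc
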