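import Pool.Agent.Lib.MP_5c0be7_lc.NS0
import Pool.Agent.Lib.MP_5c0be7_lc.Chain

/-!
The collapse of a good named structure is a transitive model of ZFC; elementary maps lift.
-/

namespace Pool.Agent.Lib.MP_5c0be7_lc

open ZFSet Cx Pool.Agent.Lib.MP_053343_lc
open Pool.Agent.Shared.LDefs (E cons tl img mem_img bun mem_bun app gr app_gr gr_congr app_eq)

universe u

variable {T : Type u} (G : Amb T)

/-- The collapse of a relation contained in the well-order. -/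
noncomputable def Amb.col (r : T → T → Prop) : T → Z :=
  G.wo.wf.fix fun n ih => haveI := G.small n
    haveI : Small.{0} {u // G.lt u n ∧ r u n} := small_of_injective (β := {u // G.lt u n})
      (f := fun u => ⟨u.1, u.2.1⟩) fun _ _ e => Subtype.ext (congrArg (·.1) e)
    ZFSet.range fun u : {u // G.lt u n ∧ r u n} => ih u.1 u.2.1

/-- The ordinal of a point. -/
noncomputable def Amb.o : T → Z := G.col G.lt

/-- The collapse of a named structure. -/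
def NS.P (A : NS T) : S := G.col A.In '' A.C

variable {G} {A B : NS T} {σ : T → T} {a b k n : T}

theorem Amb.mem_col {r : T → T → Prop} {y : Z} :
    y ∈ G.col r n ↔ ∃ u, (G.lt u n ∧ r u n) ∧ G.col r u = y := by
  rw [Amb.col, WellFounded.fix_eq]; simp

theorem Amb.mem_o {y : Z} : y ∈ G.o n ↔ ∃ u, G.lt u n ∧ G.o u = y := by
  simp [Amb.o, Amb.mem_col]

theorem Amb.trans {a b c : T} (h : G.lt a b) (h' : G.lt b c) : G.lt a c :=
  have := G.wo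
  _root_.trans h h'

theorem Amb.tri (a b : T) : G.lt a b ∨ a = b ∨ G.lt b a :=
  have := G.wo
  trichotomous_of G.lt a b

theorem Amb.o_ord (a : T) : (G.o a).IsOrdinal := by
  induction a using G.wo.wf.induction with
  | _ a ih =>
    refine isOrdinal_iff_forall_mem_isOrdinal.2 ⟨fun x hx y hy => ?_, fun x hx => ?_⟩ <;>
      obtain ⟨u, hu, rfl⟩ := Amb.mem_o.1 hx
    · obtain ⟨w, hw, rfl⟩ := Amb.mem_o.1 hy
      exact Amb.mem_o.2 ⟨w, Amb.trans hw hu, rfl⟩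
    · exact ih u hu

theorem Amb.o_inj (h : G.o a = G.o b) : a = b := by
  rcases Amb.tri (G := G) a b with e | e | e
  · exact (mem_irrefl _ (Amb.mem_o.2 ⟨a, e, h⟩)).elim
  · exact e
  · exact (mem_irrefl _ (Amb.mem_o.2 ⟨b, e, h.symm⟩)).elim

theorem Amb.o_mem_o : G.o a ∈ G.o b ↔ G.lt a b :=
  Amb.mem_o.trans ⟨fun ⟨_, h, e⟩ => Amb.o_inj e ▸ h, fun h => ⟨a, h, rfl⟩⟩

theorem Amb.rank_col (r : T → T → Prop) (a : T) : (G.col r a).rank ≤ (G.o a).rank := by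
  induction a using G.wo.wf.induction with
  | _ a ih =>
    refine rank_le_iff.2 fun y hy => ?_
    obtain ⟨u, hu, rfl⟩ := Amb.mem_col.1 hy
    exact (ih u hu.1).trans_lt (rank_lt_of_mem (Amb.o_mem_o.2 hu.1))

theorem Amb.col_congr {r s : T → T → Prop} (h : ∀ n, G.lt n b → ∀ u, r u n ↔ s u n) (a : T) :
    G.lt a b → G.col r a = G.col s a := by
  induction a using G.wo.wf.induction with
  | _ a ih =>
    intro ha
    ext y
    rw [Amb.mem_col, Amb.mem_col]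
    refine exists_congr fun u => ?_
    rw [h a ha u]
    exact and_congr_right fun c => by rw [ih u c.1 (Amb.trans c.1 ha)]

namespace NS

theorem Base.mem_pi (h : A.Base G) {y : Z} :
    y ∈ G.col A.In n ↔ ∃ u, A.In u n ∧ G.col A.In u = y :=
  Amb.mem_col.trans (exists_congr fun u => and_congr_left fun _ =>
    and_iff_right_of_imp (h.lt u n))

theorem Base.up (h : A.Base G) (ha : a ∈ A.C) (hb : b ∈ A.C) : ∃ c ∈ A.C, G.lt a c ∧ G.lt b c := by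
  rcases Amb.tri (G := G) a b with e | e | e
  · exact (h.nomax b hb).imp fun c hc => ⟨hc.1, Amb.trans e hc.2, hc.2⟩
  · exact (h.nomax b hb).imp fun c hc => ⟨hc.1, e ▸ hc.2, hc.2⟩
  · exact (h.nomax a ha).imp fun c hc => ⟨hc.1, hc.2, Amb.trans e hc.2⟩

variable {R : NS T → (ℕ → T) → Prop} {v : ℕ → T}

theorem Good.compD (h : A.Good G) (hR : FD G (Good G) R) (hv : ∀ i, v i ∈ A.C) (ha : a ∈ A.C) :
    ∃ m ∈ A.C, ∀ u, A.In u m ↔ G.lt u a ∧ R A (cs u v) :=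
  let ⟨φ, e⟩ := hR
  (h.comp φ v hv a ha).imp fun _ c => ⟨c.1, fun u => (c.2 u).trans (and_congr_right fun hu =>
    e A h _ (cs_mem hv (h.init a ha u hu)))⟩

theorem Good.bddD (h : A.Good G) (hR : FD G (Good G) R) (hv : ∀ i, v i ∈ A.C) (ha : a ∈ A.C)
    (H : ∀ u, G.lt u a → ∃ w ∈ A.C, R A (cs w (cs u v))) :
    ∃ b ∈ A.C, ∀ u, G.lt u a → ∃ w, G.lt w b ∧ R A (cs w (cs u v)) := by
  obtain ⟨φ, e⟩ := hR
  have k : ∀ u, G.lt u a → ∀ w ∈ A.C, _ := fun u hu w hw =>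
    e A h _ (cs_mem (cs_mem hv (h.init a ha u hu)) hw)
  obtain ⟨b, hb, c⟩ := h.bdd φ v hv a ha fun u hu => (H u hu).imp fun w c =>
    ⟨c.1, (k u hu w c.1).2 c.2⟩
  exact ⟨b, hb, fun u hu => (c u hu).imp fun w c => ⟨c.1, (k u hu w (h.init b hb w c.1)).1 c.2⟩⟩

/-- `b` names a bisimulation between `r` and the naming relation. -/
def Bis (G : Amb T) (A : NS T) (r : T → T → Prop) (b : T) : Prop :=
  ∀ x ∈ A.C, ∀ y ∈ A.C, A.In (G.pr x y) b →
    (∀ x' ∈ A.C, r x' x → ∃ y' ∈ A.C, A.In y' y ∧ A.In (G.pr x' y') b) ∧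
    ∀ y' ∈ A.C, A.In y' y → ∃ x' ∈ A.C, r x' x ∧ A.In (G.pr x' y') b

theorem fd_col {r : NS T → T → T → Prop} (hr : ∀ A, A.Good G → ∀ u n, r A u n → G.lt u n)
    (fr : ∀ i j, FD G (Good G) fun A v => r A (v i) (v j)) (i j : ℕ) :
    FD G (Good G) fun A v => G.col (r A) (v i) = G.col A.In (v j) := by
  have mp := fun i j k => (FD.memPr (G := G) i j k).mono fun A (h : A.Good G) => h.toBase
  have fb : ∀ i, FD G (Good G) fun A v => Bis G A (r A) (v i) := fun i =>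
    ((mp 1 0 (i + 2)).imp' (((fr 0 2).imp' ((FD.mem 0 2).and (mp 1 0 (i + 4))).ex).all.and
      ((FD.mem 0 1).imp' ((fr 0 3).and (mp 0 1 (i + 4))).ex).all)).all.all
  have fg : ∀ i j, FD G (Good G) fun A v => ∃ b ∈ A.C, Bis G A (r A) b ∧
      A.In (G.pr (v i) (v j)) b := fun i j => ((fb 0).and (mp (i + 1) (j + 1) 0)).ex
  refine (fg i j).congr fun A h v hv => ?_
  have mc : ∀ {n y}, y ∈ G.col (r A) n ↔ ∃ u, r A u n ∧ G.col (r A) u = y := fun {n y} =>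
    Amb.mem_col.trans (exists_congr fun u => and_congr_left fun _ =>
      and_iff_right_of_imp (hr A h u n))
  generalize v j = y, hv j = hy, v i = x, hv i = hx
  refine ⟨?_, fun e => ?_⟩
  · rintro ⟨b, -, h1, h2⟩
    induction x using G.wo.wf.induction generalizing y with
    | _ x ih =>
      ext z
      rw [mc, h.toBase.mem_pi]
      constructor
      · rintro ⟨u, hu, rfl⟩
        have uC := h.init x hx u (hr A h u x hu)
        obtain ⟨w, a1, a2, a3⟩ := (h1 x hx y hy h2).1 u uC hu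
        exact ⟨w, a2, (ih u (hr A h u x hu) w a1 uC a3).symm⟩
      · rintro ⟨w, hw, rfl⟩
        obtain ⟨u, a1, a2, a3⟩ := (h1 x hx y hy h2).2 w (h.toBase.mem hy hw) hw
        exact ⟨u, a2, ih u (hr A h u x a2) w (h.toBase.mem hy hw) a1 a3⟩
  · induction x using G.wo.wf.induction generalizing y with
    | _ x ih =>
      have w := cs_mem (cs_mem (fun _ => hx) hy) hx
      obtain ⟨c1, a1, e1⟩ := h.bddD (v := cs x (cs y fun _ => x)) ((fr 1 2).imp' ((fb 0).and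
        ((FD.mem 0 4).and (mp 2 0 1)).ex)) w hx fun u hu => by
          by_cases c : r A u x
          · obtain ⟨z, z1, z2⟩ := h.toBase.mem_pi.1 (e ▸ mc.2 ⟨u, c, rfl⟩)
            have zC := h.toBase.mem hy z1
            obtain ⟨b, b1, b2, b3⟩ := ih u hu z zC (h.init x hx u hu) z2.symm
            exact ⟨b, b1, fun _ => ⟨b2, z, zC, z1, b3⟩⟩
          · exact ⟨x, hx, fun d => (c d).elim⟩
      obtain ⟨c2, a2, e2⟩ := h.bddD (v := cs x (cs y fun _ => x)) ((FD.mem 1 3).imp' ((fb 0).and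
        ((fr 0 3).and (mp 0 2 1)).ex)) w hy fun z hz => by
          by_cases c : A.In z y
          · obtain ⟨u, z1, z2⟩ := mc.1 (e ▸ h.toBase.mem_pi.2 ⟨z, c, rfl⟩)
            have uC := h.init x hx u (hr A h u x z1)
            obtain ⟨b, b1, b2, b3⟩ := ih u (hr A h u x z1) z (h.init y hy z hz) uC z2
            exact ⟨b, b1, fun _ => ⟨b2, u, uC, z1, b3⟩⟩
          · exact ⟨x, hx, fun d => (c d).elim⟩
      obtain ⟨c3, a3, l1, l2⟩ := h.toBase.up a1 a2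
      obtain ⟨c, a4, l3, l4⟩ := h.toBase.up a3 (h.prc x hx y hy)
      obtain ⟨m, hm, e3⟩ := h.compD (v := cs c3 (cs x fun _ => y)) ((FD.pr 0 2 3).or
        ((FD.lt 0 2).and ((fb 0).and (FD.mem 1 0))).ex) (cs_mem (cs_mem (fun _ => hy) hx) a3) a4
      have e4 : ∀ b, G.lt b c3 → Bis G A (r A) b → ∀ p, A.In p b → A.In p m := fun b l d p hp =>
        (e3 p).2 ⟨Amb.trans (h.lt _ _ hp) (Amb.trans l l3),
          Or.inr ⟨b, h.init c3 a3 b l, l, d, hp⟩⟩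
      refine ⟨m, hm, fun x1 h1 y1 h2 h3 => ?_, (e3 _).2 ⟨l4, Or.inl rfl⟩⟩
      rcases ((e3 _).1 h3).2 with d | ⟨b, -, l, d, hp⟩
      · obtain ⟨rfl, rfl⟩ := G.inj _ _ _ _ d
        refine ⟨fun u _ hu => ?_, fun z _ hz => ?_⟩
        · obtain ⟨b, l, d⟩ := e1 u (hr A h _ _ hu)
          obtain ⟨d1, z, z1, z2, z3⟩ := d hu
          exact ⟨z, z1, z2, e4 b (Amb.trans l l1) d1 _ z3⟩
        · obtain ⟨b, l, d⟩ := e2 z (h.lt _ _ hz)
          obtain ⟨d1, u, z1, z2, z3⟩ := d hz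
          exact ⟨u, z1, z2, e4 b (Amb.trans l l2) d1 _ z3⟩
      · exact ⟨fun u h4 hu => ((d x1 h1 y1 h2 hp).1 u h4 hu).imp fun z c =>
          ⟨c.1, c.2.1, e4 b l d _ c.2.2⟩, fun u h4 hu => ((d x1 h1 y1 h2 hp).2 u h4 hu).imp
            fun z c => ⟨c.1, c.2.1, e4 b l d _ c.2.2⟩⟩

theorem fd_eq (i j : ℕ) : FD G (Good G) fun A v => G.col A.In (v i) = G.col A.In (v j) :=
  fd_col (r := fun A => A.In) (fun _ h => h.lt) FD.mem i j

theorem fd_o (i j : ℕ) : FD G (Good G) fun A v => G.o (v i) = G.col A.In (v j) :=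
  fd_col (r := fun _ => G.lt) (fun _ _ _ _ => id) FD.lt i j

theorem col_cs (f : T → Z) (x : T) (v : ℕ → T) :
    (fun i => f (cs x v i)) = cons (f x) fun i => f (v i) := funext fun i => by cases i <;> rfl

theorem fd_es (φ : Fml) : FD G (Good G) fun A v => ES (A.P G) φ fun i => G.col A.In (v i) := by
  induction φ with
  | mem i j =>
    exact ((FD.mem 0 (j + 1)).and (fd_eq 0 (i + 1))).ex.congr fun A h v hv =>
      ⟨fun ⟨u, _, c⟩ => h.toBase.mem_pi.2 ⟨u, c⟩, fun c => (h.toBase.mem_pi.1 c).imp fun u c =>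
        ⟨h.toBase.mem (hv j) c.1, c⟩⟩
  | eq i j => exact fd_eq i j
  | neg φ ih => exact ih.not
  | and φ ψ i1 i2 => exact i1.and i2
  | ex φ ih =>
    exact ih.ex.congr fun A h v hv => ⟨fun ⟨u, hu, c⟩ => ⟨_, ⟨u, hu, rfl⟩, col_cs _ u v ▸ c⟩,
      by rintro ⟨_, ⟨u, hu, rfl⟩, c⟩; exact ⟨u, hu, (col_cs _ u v).symm ▸ c⟩⟩

theorem Base.tr (h : A.Base G) : Tr (A.P G) := by
  rintro _ ⟨n, hn, rfl⟩ y hy
  exact (h.mem_pi.1 hy).imp fun u c => ⟨h.mem hn c.1, c.2⟩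

/-- Sets of collapses of points satisfying a definable condition. -/
theorem Good.mk_mem (h : A.Good G) (hR : FD G (Good G) R) (hv : ∀ i, v i ∈ A.C) (ha : a ∈ A.C)
    {x : Z} (e : ∀ y, y ∈ x ↔ ∃ u, (G.lt u a ∧ R A (cs u v)) ∧ G.col A.In u = y) : x ∈ A.P G :=
  let ⟨m, hm, c⟩ := h.compD hR hv ha
  ⟨m, hm, ZFSet.ext fun y => h.toBase.mem_pi.trans
    ((exists_congr fun u => by rw [c u]).trans (e y).symm)⟩

theorem Good.zf (h : A.Good G) : ZF0 (A.P G) := by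
  have b := h.toBase
  obtain ⟨z, hz⟩ := h.ne
  refine ⟨b.tr, b.tr.empty ⟨z, hz, rfl⟩, ?_, ?_, ?_, fun φ v hv => ?_, fun φ v hv => ?_⟩
  · rintro _ ⟨n, hn, rfl⟩ _ ⟨m, hm, rfl⟩
    obtain ⟨c, hc, l1, l2⟩ := b.up hn hm
    refine h.mk_mem ((FD.eq 0 1).or (FD.eq 0 2)) (cs_mem (fun _ => hm) hn) hc fun y =>
      mem_pair.trans ⟨?_, ?_⟩
    · rintro (rfl | rfl)
      exacts [⟨n, ⟨l1, Or.inl rfl⟩, rfl⟩, ⟨m, ⟨l2, Or.inr rfl⟩, rfl⟩]
    · rintro ⟨u, ⟨-, e⟩, rfl⟩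
      exact e.imp (congrArg _) (congrArg _)
  · rintro _ ⟨n, hn, rfl⟩
    refine h.mk_mem ((FD.mem 0 2).and (FD.mem 1 0)).ex (fun _ => hn) hn fun y =>
      mem_sUnion.trans ⟨fun ⟨x, h1, h2⟩ => ?_, ?_⟩
    · obtain ⟨w, h3, rfl⟩ := b.mem_pi.1 h1
      obtain ⟨u, h4, rfl⟩ := b.mem_pi.1 h2
      exact ⟨u, ⟨Amb.trans (h.lt _ _ h4) (h.lt _ _ h3), w, b.mem hn h3, h3, h4⟩, rfl⟩
    · rintro ⟨u, ⟨-, w, -, h1, h2⟩, rfl⟩
      exact ⟨_, b.mem_pi.2 ⟨w, h1, rfl⟩, b.mem_pi.2 ⟨u, h2, rfl⟩⟩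
  · rintro _ ⟨n, hn, rfl⟩
    obtain ⟨c, hc, e⟩ := h.pow n hn
    obtain ⟨m, hm, e1⟩ := h.compD ((FD.mem 0 1).imp' (FD.mem 0 2)).all (fun _ => hn) hc
    refine ⟨_, ⟨m, hm, rfl⟩, ?_⟩
    rintro _ ⟨x, hx, rfl⟩
    refine b.mem_pi.trans ⟨fun ⟨w, h1, h2⟩ y hy => ?_, fun s => ?_⟩
    · obtain ⟨u, h3, rfl⟩ := b.mem_pi.1 (h2 ▸ hy)
      exact b.mem_pi.2 ⟨u, ((e1 w).1 h1).2 u (b.mem (b.mem hm h1) h3) h3, rfl⟩
    · obtain ⟨p, hp, e2⟩ := h.compD ((FD.mem 0 1).and ((fd_es (.mem 0 2))))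
        (cs_mem (fun _ => hx) hn) hn
      obtain ⟨w, h1, h2⟩ := e p hp fun u c => ((e2 u).1 c).1
      refine ⟨w, (e1 w).2 ⟨h1, fun u _ c => ((e2 u).1 ((h2 u).1 c)).2.1⟩, ZFSet.ext fun y =>
        b.mem_pi.trans ⟨?_, fun hy => ?_⟩⟩
      · rintro ⟨u, c, rfl⟩
        exact ((e2 u).1 ((h2 u).1 c)).2.2
      · obtain ⟨u, c, rfl⟩ := b.mem_pi.1 (s hy)
        exact ⟨u, (h2 u).2 ((e2 u).2 ⟨h.lt _ _ c, c, hy⟩), rfl⟩
  · choose w hw e using hv
    rintro _ ⟨n, hn, rfl⟩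
    refine h.mk_mem ((FD.mem 0 1).and ((fd_es φ).rename fun i => match i with
      | 0 => 0 | i + 1 => i + 2)) (cs_mem hw hn) hn fun y => mem_sep.trans ?_
    have k : ∀ u, (fun i => G.col A.In (cs u (cs n w) (match i with | 0 => 0 | i + 1 => i + 2))) =
        cons (G.col A.In u) v := fun u => funext fun i => by cases i; exacts [rfl, e _]
    simp only [k]
    refine ⟨fun ⟨h1, h2⟩ => ?_, ?_⟩
    · obtain ⟨u, c, rfl⟩ := b.mem_pi.1 h1
      exact ⟨u, ⟨h.lt _ _ c, c, h2⟩, rfl⟩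
    · rintro ⟨u, ⟨-, c, d⟩, rfl⟩
      exact ⟨b.mem_pi.2 ⟨u, c, rfl⟩, d⟩
  · choose w hw e using hv
    rintro _ ⟨n, hn, rfl⟩ H
    have k : ∀ z u, (fun i => G.col A.In (cs z (cs u (cs n w))
        (match i with | 0 => 0 | 1 => 1 | i + 2 => i + 3))) =
        cons (G.col A.In z) (cons (G.col A.In u) v) := fun z u => funext fun i => by
      rcases i with _ | _ | i; exacts [rfl, rfl, e _]
    obtain ⟨c, hc, e1⟩ := h.bddD ((FD.mem 1 2).imp' ((fd_es φ).rename fun i => match i with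
      | 0 => 0 | 1 => 1 | i + 2 => i + 3)) (cs_mem hw hn) hn fun u hu => by
        by_cases c : A.In u n
        · obtain ⟨_, ⟨z, h1, rfl⟩, h2⟩ := H _ (b.mem_pi.2 ⟨u, c, rfl⟩)
          exact ⟨z, h1, fun _ => (k z u).symm ▸ h2⟩
        · exact ⟨n, hn, fun d => (c d).elim⟩
    obtain ⟨m, hm, e2⟩ := h.compD (FD.eq 0 0) (fun _ => hn) hc
    refine ⟨_, ⟨m, hm, rfl⟩, fun x hx => ?_⟩
    obtain ⟨u, c, rfl⟩ := b.mem_pi.1 hx
    obtain ⟨z, h1, h2⟩ := e1 u (h.lt _ _ c)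
    exact ⟨_, b.mem_pi.2 ⟨z, (e2 z).2 ⟨h1, rfl⟩, rfl⟩, k z u ▸ h2 c⟩

theorem fd_ud {Q : S → E.{0} → Prop} (h : UD ZF0 Q) :
    FD G (Good G) fun A v => Q (A.P G) fun i => G.col A.In (v i) :=
  let ⟨φ, e⟩ := h
  (fd_es φ).congr fun _ h v hv => e _ h.zf _ fun i => ⟨v i, hv i, rfl⟩

theorem fd_pair (i j k : ℕ) : FD G (Good G) fun A v =>
    G.col A.In (v i) = pair (G.col A.In (v j)) (G.col A.In (v k)) :=
  (fd_ud (U.ud (p := fun p : Z × Z × Z => p.1 = pair p.2.1 p.2.2) (by fun_prop))).rename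
    fun n => if n = 0 then i else if n = 1 then j else k

theorem Good.o_mem (h : A.Good G) (a : T) : a ∈ A.C → G.o a ∈ A.P G := by
  induction a using G.wo.wf.induction with
  | _ a ih =>
    intro ha
    obtain ⟨c, hc, e⟩ := h.bddD (fd_o 1 0) (fun _ => ha) ha fun u hu =>
      (ih u hu (h.init a ha u hu)).imp fun _ c => ⟨c.1, c.2.symm⟩
    refine h.mk_mem ((FD.lt 0 2).and (fd_o 0 1)).ex (fun _ => ha) hc fun y => Amb.mem_o.trans ⟨?_, ?_⟩
    · rintro ⟨u, hu, rfl⟩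
      obtain ⟨w, h1, h2⟩ := e u hu
      exact ⟨w, ⟨h1, u, h.init a ha u hu, hu, h2⟩, h2.symm⟩
    · rintro ⟨w, ⟨-, u, -, h1, h2⟩, rfl⟩
      exact ⟨u, h1, h2⟩

/-- Separation in the collapse by a condition on names. -/
theorem Good.sepT (h : A.Good G) (hR : FD G (Good G) R) (hv : ∀ i, v i ∈ A.C) {s : Z}
    (hs : s ∈ A.P G) : ZFSet.sep (fun x => ∃ z ∈ A.C, G.col A.In z = x ∧ R A (cs z v)) s ∈ A.P G := by
  obtain ⟨n, hn, rfl⟩ := hs
  refine h.mk_mem ((FD.mem 0 1).and ((fd_eq 0 1).and (hR.rename fun i => match i with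
    | 0 => 0 | i + 1 => i + 3)).ex) (cs_mem hv hn) hn fun y => mem_sep.trans ?_
  have k : ∀ z u, (fun i => cs z (cs u (cs n v)) (match i with | 0 => 0 | i + 1 => i + 3)) =
      cs z v := fun z u => funext fun i => by cases i <;> rfl
  simp only [k]
  refine ⟨fun ⟨h1, h2⟩ => ?_, ?_⟩
  · obtain ⟨u, c, rfl⟩ := h.toBase.mem_pi.1 h1
    exact ⟨u, ⟨h.lt _ _ c, c, h2⟩, rfl⟩
  · rintro ⟨u, ⟨-, c, d⟩, rfl⟩
    exact ⟨h.toBase.mem_pi.2 ⟨u, c, rfl⟩, d⟩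

theorem Good.ac (h : A.Good G) : AC (A.P G) := by
  intro a ha
  have m := h.zf
  obtain ⟨z, hz⟩ := h.ne
  refine ⟨_, h.sepT ((fd_pair 2 1 0).and ((fd_es (.mem 0 1)).and ((FD.lt 0 1).imp'
    (fd_es (.mem 0 2)).not).all)).ex.ex (fun _ => hz) (m.prod ha (m.union _ ha)), fun x hx ne => ?_⟩
  obtain ⟨w, hw, rfl⟩ := m.trans _ ha _ hx
  obtain ⟨y, hy⟩ := (G.col A.In w).eq_empty_or_nonempty.resolve_left ne
  obtain ⟨u, hu, rfl⟩ := m.trans _ ⟨w, hw, rfl⟩ _ hy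
  obtain ⟨u, ⟨u1, u2⟩, u3⟩ := G.wo.wf.has_min {u | u ∈ A.C ∧ G.col A.In u ∈ G.col A.In w}
    ⟨u, hu, hy⟩
  obtain ⟨p, hp, e⟩ := m.opair ⟨w, hw, rfl⟩ ⟨u, u1, rfl⟩
  rwa [app_eq (y := G.col A.In u) (mem_sep.2 ⟨pair_mem_prod.2 ⟨hx, mem_sUnion.2 ⟨_, hx, u2⟩⟩, p, hp,
    e, w, hw, u, u1, e, u2, fun t t1 t2 t3 => u3 t ⟨t1, t3⟩ t2⟩) fun y hy => ?_]
  obtain ⟨p, -, e1, w', -, u', a1, e2, a2, a3⟩ := (mem_sep.1 hy).2
  obtain ⟨e3, rfl⟩ := pair_inj.1 (e1.symm.trans e2)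
  rcases Amb.tri (G := G) u u' with c | c | c
  · exact (a3 u u1 c (show G.col A.In u ∈ G.col A.In w' from e3 ▸ u2)).elim
  · exact c ▸ rfl
  · exact (u3 u' ⟨a1, e3 ▸ a2⟩ c).elim

open Classical in
/-- The map induced on the collapses. -/
noncomputable def lift (G : Amb T) (A B : NS T) (σ : T → T) (x : Z) : Z :=
  if h : x ∈ A.P G then G.col B.In (σ h.choose) else ∅

section
variable (h : A.El G B σ) (ga : A.Good G) (gb : B.Good G)
include h ga gb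

theorem El.lift_col (hn : n ∈ A.C) : lift G A B σ (G.col A.In n) = G.col B.In (σ n) := by
  have e : G.col A.In n ∈ A.P G := ⟨n, hn, rfl⟩
  exact (dif_pos e).trans ((h.fd ga gb (fd_eq 0 1) (cs_mem (fun _ => hn) e.choose_spec.1)).1
    e.choose_spec.2)

theorem El.elem : Elem (A.P G) (B.P G) (lift G A B σ) :=
  ⟨by rintro _ ⟨n, hn, rfl⟩; exact ⟨_, h.map n hn, (h.lift_col ga gb hn).symm⟩, fun φ v hv => by
    choose w hw e using hv
    rw [← funext e]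
    simp only [h.lift_col ga gb (hw _)]
    exact h.fd ga gb (fd_es φ) hw⟩

theorem El.lift_o (ha : a ∈ A.C) : lift G A B σ (G.o a) = G.o (σ a) := by
  obtain ⟨n, hn, e⟩ := ga.o_mem a ha
  rw [← e, h.lift_col ga gb hn]
  exact ((h.fd ga gb (fd_o 0 1) (cs_mem (fun _ => hn) ha)).1 e.symm).symm

end

theorem El.col_eq (h : A.El G B id) (a : A.Base G) (b : B.Base G) (hn : n ∈ A.C) :
    G.col A.In n = G.col B.In n := by
  obtain ⟨c, hc, l⟩ := a.nomax n hn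
  refine Amb.col_congr (fun w hw u => ?_) n l
  have hw := a.init c hc w hw
  have k := fun hu : u ∈ A.C => h.sat (.mem 0 1) (cs u fun _ => w) (cs_mem (fun _ => hw) hu)
  exact ⟨fun c => (k (a.mem hw c)).1 c, fun c => (k (a.init w hw u (b.lt u w c))).2 c⟩

theorem El.elem_id (h : A.El G B id) (ga : A.Good G) (gb : B.Good G) :
    Elem (A.P G) (B.P G) id := by
  have e : ∀ x ∈ A.P G, lift G A B id x = x := by
    rintro _ ⟨n, hn, rfl⟩
    exact (h.lift_col ga gb hn).trans (h.col_eq ga.toBase gb.toBase hn).symm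
  exact ⟨fun x hx => e x hx ▸ (h.elem ga gb).map x hx, fun φ v hv => by
    simpa only [e _ (hv _), id] using (h.elem ga gb).es φ v hv⟩

end NS

end Pool.Agent.Lib.MP_5c0be7_lc
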