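import Pool.Agent.Lib.MP_5c0be7_lc.NS1

/-!
From chains of named structures with extenders to the three conclusions.
-/

namespace Pool.Agent.Lib.MP_5c0be7_lc

open ZFSet Cx Pool.Agent.Lib.MP_053343_lc
open Pool.Agent.Shared.LDefs (E cons tl img mem_img bun mem_bun app gr app_gr gr_congr app_eq)

universe u

variable {T : Type u} {G : Amb T} {A B : NS T} {σ : T → T} {a b k n : T}

namespace NS

theorem fd_gr (i j k : ℕ) : FD G (Good G) fun A v =>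
    G.col A.In (v i) = pair (G.o (v j)) (G.col A.In (v k)) :=
  ((fd_o (j + 1) 0).and (fd_pair (i + 1) 0 (k + 1))).ex.congr fun _ h _ hv =>
    ⟨fun ⟨_, _, e, c⟩ => c.trans (congrArg (pair · _) e.symm), fun c =>
      let ⟨p, hp, e⟩ := h.o_mem _ (hv j); ⟨p, hp, e.symm, c.trans (congrArg (pair · _) e.symm)⟩⟩

theorem fd_oo (i j k : ℕ) : FD G (Good G) fun A v =>
    G.col A.In (v i) = pair (G.o (v j)) (G.o (v k)) :=
  ((fd_o (k + 1) 0).and (fd_gr (i + 1) (j + 1) 0)).ex.congr fun _ h _ hv =>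
    ⟨fun ⟨_, _, e, c⟩ => c.trans (congrArg (pair _) e.symm), fun c =>
      let ⟨p, hp, e⟩ := h.o_mem _ (hv k); ⟨p, hp, e.symm, c.trans (congrArg (pair _) e.symm)⟩⟩

theorem fd_om (i j k : ℕ) : FD G (Good G) fun A v =>
    pair (G.o (v i)) (G.o (v j)) ∈ G.col A.In (v k) :=
  ((fd_oo 0 (i + 1) (j + 1)).and (fd_es (.mem 0 (k + 1)))).ex.congr fun _ h v hv =>
    ⟨fun ⟨_, _, e, c⟩ => (show _ = pair (G.o (v i)) (G.o (v j)) from e) ▸ c, fun c =>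
      let ⟨p, hp, e⟩ := h.toBase.tr _ ⟨_, hv k, rfl⟩ _ c; ⟨p, hp, e, (congrArg (· ∈ G.col _ (v k)) e).mpr c⟩⟩

theorem fd_mp (i j k : ℕ) : FD G (Good G) fun A v => A.In (G.pr (v i) (v j)) (v k) :=
  (FD.memPr i j k).mono fun _ h => h.toBase

namespace Xt

variable (h : Xt G A B σ k) (ga : A.Good G)
include h ga

theorem gb : B.Good G := h.el.good ga h.base

theorem genZ : ∀ y ∈ B.P G, ∃ a ∈ G.o (σ k), ∃ f ∈ A.P G, y = app (lift G A B σ f) a := by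
  rintro _ ⟨y, hy, rfl⟩
  have gb := h.gb ga
  have m := ga.zf
  obtain ⟨a, ha, f, hf, e⟩ := h.gen y hy
  obtain ⟨c, hc, e1⟩ := ga.bddD ((FD.pr 3 1 0).ex.ex.imp' (FD.pr 2 0 1).ex) (fun _ => hf) hf
    fun t _ => by
      by_cases d : ∃ u ∈ A.C, ∃ w ∈ A.C, t = G.pr u w
      · obtain ⟨u, hu, w, hw, d⟩ := d
        exact ⟨w, hw, fun _ => ⟨u, hu, d⟩⟩
      · exact ⟨f, hf, fun c => (d c).elim⟩
  obtain ⟨s, hs, e2⟩ := ga.compD (FD.eq 0 0) (fun _ => hf) hc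
  have fr : ∀ i, FD G (Good G) fun A v => ∃ u ∈ A.C, ∃ w ∈ A.C, G.lt u (v (i + 1)) ∧
      A.In (G.pr u w) (v (i + 2)) ∧ G.col A.In (v 0) = pair (G.o u) (G.col A.In w) := fun i =>
    ((FD.lt 1 (i + 3)).and ((fd_mp 1 0 (i + 4)).and (fd_gr 2 1 0))).ex.ex
  obtain ⟨n, hn, e3⟩ := ga.sepT (fr 0) (cs_mem (fun _ => hf) h.km)
    (m.prod (ga.o_mem k h.km) ⟨s, hs, rfl⟩)
  have e4 := (h.el.fd ga gb ((fd_es (.mem 0 1)).iff (fr 1)).all
    (cs_mem (cs_mem (fun _ => hf) h.km) hn)).1 fun z hz => by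
      refine (iff_of_eq (congrArg (G.col A.In z ∈ ·) e3)).trans (mem_sep.trans
        ⟨fun ⟨_, _, _, d, u, hu, w, hw, d1, d2, d3⟩ => ⟨u, hu, w, hw, d1, d2, d.symm.trans d3⟩,
          fun ⟨u, hu, w, hw, d1, d2, d3⟩ => ⟨?_, z, hz, rfl, u, hu, w, hw, d1, d2, d3⟩⟩)
      obtain ⟨w', l, d⟩ := e1 _ (ga.lt _ _ d2)
      obtain ⟨u', -, d⟩ := d ⟨u, hu, w, hw, rfl⟩
      obtain ⟨-, rfl⟩ := G.inj _ _ _ _ d
      exact (show G.col A.In z = _ from d3) ▸ pair_mem_prod.2 ⟨Amb.o_mem_o.2 d1,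
        ga.toBase.mem_pi.2 ⟨_, (e2 _).2 ⟨l, rfl⟩, rfl⟩⟩
  have aB := gb.init _ (h.el.map k h.km) a ha
  refine ⟨_, Amb.o_mem_o.2 ha, _, ⟨n, hn, rfl⟩, ?_⟩
  rw [h.el.lift_col ga gb hn]
  obtain ⟨z, hz, e5⟩ := gb.zf.opair (gb.o_mem a aB) ⟨y, hy, rfl⟩
  refine (app_eq (e5 ▸ (e4 z hz).2 ⟨a, aB, y, hy, ha, (e y).2 rfl, e5⟩) fun x hx => ?_).symm
  obtain ⟨z, hz, e6⟩ := gb.toBase.tr _ ⟨_, h.el.map n hn, rfl⟩ _ hx
  obtain ⟨u, -, w, -, -, d2, d3⟩ := (e4 z hz).1 (show G.col B.In z ∈ _ from e6 ▸ hx)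
  obtain ⟨d4, rfl⟩ := pair_inj.1 (e6.symm.trans d3)
  obtain rfl := Amb.o_inj d4
  rw [(e w).1 d2]

theorem ext : Ext (A.P G) (B.P G) (lift G A B σ) (G.o k) (G.o (σ k)) := by
  have gb := h.gb ga
  have m := ga.zf
  have d1 := ga.o_mem k h.km
  have d2 := ga.o_mem _ h.sk
  refine ⟨m, h.base.tr, h.el.elem ga gb, d1, d2, fun _ c => h.el.lift_o ga gb h.km ▸ c, h.genZ ga, ?_⟩
  obtain ⟨e, he, e1, e2⟩ := h.am
  have ps : ∀ i j l, FD G (Good G) fun A v => ∀ u ∈ A.C, ∀ t ∈ A.C, G.lt u (v i) → G.lt t (v i) →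
      (A.In (G.pr u t) (v j) ↔ pair (G.o u) (G.o t) ∈ G.col A.In (v l)) := fun i j l =>
    ((FD.lt 1 (i + 2)).imp' ((FD.lt 0 (i + 2)).imp' ((fd_mp 1 0 (j + 2)).iff
      (fd_om 1 0 (l + 2))))).all.all
  refine ⟨_, ga.sepT ((FD.pr 1 5 4).and ((fd_mp 1 3 8).and ((ps 7 3 2).and ((fd_oo 0 5 4).and
    (fd_pair 6 0 2))))).ex.ex.ex.ex.ex.ex (cs_mem (fun _ => he) h.km)
    (m.prod (m.prod d2 d2) (m.pow (m.prod d1 d1))), fun a ha' b hb' X hX s => ?_⟩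
  obtain ⟨a, ha, rfl⟩ := Amb.mem_o.1 ha'
  obtain ⟨b, hb, rfl⟩ := Amb.mem_o.1 hb'
  have k1 := h.el.map k h.km
  have tr : ∀ w ∈ A.C, ∀ x ∈ A.C, (∀ u ∈ A.C, ∀ t ∈ A.C, G.lt u k → G.lt t k →
      (A.In (G.pr u t) w ↔ pair (G.o u) (G.o t) ∈ G.col A.In x)) → (B.In (G.pr a b) (σ w) ↔
        pair (G.o a) (G.o b) ∈ lift G A B σ (G.col A.In x)) := fun w hw x hx c => by
    rw [h.el.lift_col ga gb hx]
    exact (h.el.fd ga gb (ps 0 1 2) (cs_mem (cs_mem (fun _ => hx) hw) h.km)).1 c a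
      (gb.init _ k1 a ha) b (gb.init _ k1 b hb) ha hb
  refine mem_sep.trans ⟨?_, fun c => ?_⟩
  · rintro ⟨-, z, -, c1, a', -, b', -, w, hw, x, hx, t, -, r, -, c2, c3, c4, c5, c6⟩
    obtain ⟨c7, rfl⟩ := pair_inj.1 (c1.symm.trans c6)
    obtain ⟨c8, c9⟩ := pair_inj.1 (c7.trans c5)
    obtain rfl := Amb.o_inj c8
    obtain rfl := Amb.o_inj c9
    exact (tr w hw x hx c4).1 ((show t = _ from c2) ▸ e1 t w hw c3)
  · obtain ⟨x, hx, rfl⟩ := hX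
    obtain ⟨n, hn, c1⟩ := ga.compD ((FD.pr 2 1 0).and (fd_om 1 0 3)).ex.ex (fun _ => hx) h.km
    obtain ⟨w, hw, c2, c3⟩ := e2 n hn fun u c => ((c1 u).1 c).1
    have c4 : ∀ u ∈ A.C, ∀ t ∈ A.C, G.lt u k → G.lt t k →
        (A.In (G.pr u t) w ↔ pair (G.o u) (G.o t) ∈ G.col A.In x) := fun u hu t ht l1 l2 =>
      (c2 _).trans ((c1 _).trans ⟨fun ⟨_, u', _, t', _, d, d'⟩ => by
        obtain ⟨rfl, rfl⟩ := G.inj _ _ _ _ d; exact d',
        fun d => ⟨h.cl u t l1 l2, u, hu, t, ht, rfl, d⟩⟩)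
    have aA := ga.init _ h.sk a ha
    have bA := ga.init _ h.sk b hb
    have c5 : G.lt (G.pr a b) (σ k) := by
      obtain ⟨t, -, d, d'⟩ := (h.el.fd ga gb ((FD.lt 1 2).imp' ((FD.lt 0 2).imp' ((FD.pr 0 2 1).and
        (FD.lt 0 3)).ex)).all.all fun _ => h.km).1 (fun u hu t ht l1 l2 => ⟨_, ga.prc u hu t ht, rfl,
          h.cl u t l1 l2⟩) a (gb.init _ k1 a ha) b (gb.init _ k1 b hb) ha hb
      exact (show t = _ from d) ▸ d'
    obtain ⟨r, hr, c6⟩ := m.opair (ga.o_mem a aA) (ga.o_mem b bA)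
    obtain ⟨z, hz, c7⟩ := m.opair ⟨r, hr, rfl⟩ ⟨x, hx, rfl⟩
    exact ⟨pair_mem_prod.2 ⟨pair_mem_prod.2 ⟨Amb.o_mem_o.2 ha, Amb.o_mem_o.2 hb⟩,
      mem_pow.2 ⟨s, x, hx, rfl⟩⟩, z, hz, c6 ▸ c7, a, aA, b, bA, w, hw, x, hx, _, ga.prc a aA b bA,
      r, hr, rfl, c3 _ c5 ((tr w hw x hx c4).2 c), c4, c6, c7⟩

end Xt

theorem Str.strTo (h : Str G A k b) (ga : A.Good G) {l : Ordinal.{0}} (hl : l ≤ (G.o b).rank)
    (e : ∀ x ∈ A.P G, x.rank < l → ∃ u, G.lt u b ∧ G.col A.In u = x) :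
    StrTo (A.P G) (G.o k).rank l := by
  obtain ⟨B, σ, x, h1, h2⟩ := h
  have gb := x.gb ga
  refine ⟨_, _, _, _, x.ext ga, fun a ha => ?_, ?_, fun y hy c => ?_⟩
  · rw [← Ordinal.toZFSet_mem_toZFSet_iff, (Amb.o_ord k).toZFSet_rank_eq] at ha
    obtain ⟨u, hu, c⟩ := Amb.mem_o.1 ha
    rw [← c, x.el.lift_o ga gb (ga.init k x.km u hu), x.fix u hu]
  · rw [(Amb.o_ord k).toZFSet_rank_eq, x.el.lift_o ga gb x.km, ← (Amb.o_ord _).toZFSet_rank_eq,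
      Ordinal.toZFSet_mem_toZFSet_iff]
    exact hl.trans_lt (rank_lt_of_mem (Amb.o_mem_o.2 h1))
  · obtain ⟨u, hu, rfl⟩ := e y hy c
    exact ⟨u, gb.init _ (x.el.map k x.km) u (Amb.trans hu h1), (Amb.col_congr h2 u hu).symm⟩

/-- A directed elementary chain of good named structures that exhausts the ambient type. -/
structure NChain (G : Amb T) {ι : Type*} [Preorder ι] (A : ι → NS T) : Prop where
  dir : ∀ i j : ι, ∃ k, i ≤ k ∧ j ≤ k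
  good : ∀ i, (A i).Good G
  el : ∀ i j, i ≤ j → (A i).El G (A j) id
  cov : ∀ a, ∃ i, a ∈ (A i).C
  unb : ∀ o : Ordinal.{0}, ∃ a, o ≤ (G.o a).rank

namespace NChain

variable {ι : Type*} [Preorder ι] {A : ι → NS T} (h : NChain G A)
include h

theorem chain : Chain fun i => (A i).P G :=
  ⟨h.dir, fun i => (h.good i).zf, fun i => (h.good i).ac,
    fun i j e => (h.el i j e).elem_id (h.good i) (h.good j), fun o => by
      obtain ⟨a, e⟩ := h.unb o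
      obtain ⟨i, hi⟩ := h.cov a
      have := (h.good i).o_mem a hi
      refine ⟨i, e.eq_or_lt.elim (fun e => e ▸ (Amb.o_ord a).toZFSet_rank_eq.symm ▸ this) fun e =>
        (h.good i).toBase.tr _ this _ ?_⟩
      rwa [← (Amb.o_ord a).toZFSet_rank_eq, Ordinal.toZFSet_mem_toZFSet_iff]⟩

theorem strTo (H : ∀ b, ∃ i, Str G (A i) k b) (l : Ordinal.{0}) :
    ∃ i, l.toZFSet ∈ (A i).P G ∧ StrTo ((A i).P G) (G.o k).rank l := by
  have c := h.chain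
  obtain ⟨i, n, hn, e⟩ := c.ord l
  obtain ⟨_, ⟨s, hs, rfl⟩, -, e1⟩ := (c.elU i).V (c.zf i) c.inner.zf ⟨n, hn, e⟩ (isOrdinal_toZFSet l)
  obtain ⟨b, hb, l1, l2⟩ := (h.good i).toBase.up hn hs
  obtain ⟨j, S⟩ := H b
  have bj : b ∈ (A j).C := let ⟨_, _, x, c, _⟩ := S; (h.good j).init _ x.sk b c
  have eq : ∀ u, G.lt u b → G.col (A i).In u = G.col (A j).In u := fun u hu => by
    obtain ⟨m, h1, h2⟩ := h.dir i j
    exact ((h.el i m h1).col_eq (h.good i).toBase (h.good m).toBase ((h.good i).init b hb u hu)).trans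
      ((h.el j m h2).col_eq (h.good j).toBase (h.good m).toBase ((h.good j).init b bj u hu)).symm
  refine ⟨j, ⟨n, (h.good j).init b bj n l1, (eq n l1).symm.trans e⟩, S.strTo (h.good j) ?_
    fun x hx r => ?_⟩
  · rw [← Ordinal.rank_toZFSet l, ← e]
    exact (Amb.rank_col _ n).trans (rank_lt_of_mem (Amb.o_mem_o.2 l1)).le
  · obtain ⟨u, hu, d⟩ := (h.good i).toBase.mem_pi.1 ((e1 x).2 ⟨(c.elU j).map x hx, by simpa using r⟩)
    have := Amb.trans ((h.good i).lt _ _ hu) l2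
    exact ⟨u, this, (eq u this).symm.trans d⟩

theorem concAB (H : ∀ b, ∃ i, Str G (A i) k b) : ConcA ∧ ConcB :=
  h.chain.concAB fun l _ => h.strTo H l

/-- All three conclusions from a chain with unboundedly many strong points. -/
theorem conc (H : ∀ a, ∃ k, G.lt a k ∧ ∀ b, ∃ i, Str G (A i) k b) : ConcA ∧ ConcB ∧ ConcC :=
  h.chain.conc fun o =>
    let ⟨a, e⟩ := h.unb o; let ⟨_, h1, h2⟩ := H a
    ⟨_, e.trans_lt (rank_lt_of_mem (Amb.o_mem_o.2 h1)), fun l _ => h.strTo h2 l⟩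

end NChain

end NS

/-- A strictly increasing family of points bounds the ordinals of points from below. -/
theorem Amb.le_rank (f : Ordinal.{0} → T) (h : ∀ a b, a < b → G.lt (f a) (f b)) (o : Ordinal.{0}) :
    o ≤ (G.o (f o)).rank := by
  induction o using WellFoundedLT.induction with
  | ind o ih => exact le_of_forall_lt fun a ha =>
      (ih a ha).trans_lt (rank_lt_of_mem (Amb.o_mem_o.2 (h a o ha)))

end Pool.Agent.Lib.MP_5c0be7_lc
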