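import Pool.Agent.Lib.MP_5c0be7_lc.Mit

/-!
Solovay's lemma and the passage to the notions of the statement.
-/

namespace Pool.Agent.Lib.MP_5c0be7_lc

open ZFSet Cx Pool.Agent.Lib.MP_053343_lc
open Pool.Agent.Shared.LDefs (E cons tl img mem_img bun mem_bun app gr app_gr gr_congr app_eq)

variable {M N Q : S} {j : Z → Z} {k V W r r' d d' a b e D : Z}

theorem Elem.nz (h : Elem M Q j) (m : ZF0 M) (q : ZF0 Q) (km : k ∈ M) (ko : k.IsOrdinal)
    (fx : ∀ a ∈ k, j a = a) (cr : k ∈ j k) (hV : ZFSet.sep (fun X => k ∈ j X) (pow M k) ∈ M) :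
    NZ M k (ZFSet.sep (fun X => k ∈ j X) (pow M k)) := by
  have t := m.trans _ km
  have mV : ∀ X, X ∈ ZFSet.sep (fun X => k ∈ j X) (pow M k) ↔ (X ⊆ k ∧ X ∈ M) ∧ k ∈ j X :=
    fun X => by rw [mem_sep, mem_pow]
  simp only [NZ, mV]
  refine ⟨hV, ko, (h.iffU m q (fun k : Z => ∃ a ∈ k, a ≠ ∅ ∧ ∀ b ∈ a, ∃ c ∈ a, b ∈ c) k
    (by fun_prop) km).2 ⟨k, cr, fun e => notMem_empty k (h.empty m q ▸ e ▸ cr), fun b hb =>
      (h.iffU m q (fun p : Z × Z => ∃ c ∈ p.1, p.2 ∈ c) (k, b) (by fun_prop)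
        (by exact ⟨km, t _ hb⟩)).2 ⟨k, cr, show j b ∈ k from (fx b hb).symm ▸ hb⟩⟩, fun X e => e.1.1,
    fun X e Y hY c c' => ⟨⟨c', hY⟩, (h.sub m q e.1.2 hY).1 c e.2⟩, fun X hX c => ?_,
    fun a ha e => ?_, fun b hb g hg e => ?_, fun X e g hg c => ?_⟩
  · have o : ok M (k, X) := ⟨km, hX⟩
    have u : U fun p : Z × Z => p.1 \ p.2 := by fun_prop
    rw [h.tmU m q _ _ u o, mem_sdiff]
    have := u.mem_of m (k, X) o
    exact ⟨fun e c => c.2.2 e.2, fun e => ⟨⟨c, hX⟩, by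
      by_contra c; exact e ⟨⟨fun _ y => (mem_sdiff.1 y).1, this⟩, cr, c⟩⟩⟩
  · rw [h.tmU m q (fun p : Z => ({p} : Z)) a (by fun_prop) (t _ ha), mem_singleton] at e
    exact mem_irrefl a ((e.2.trans (fx a ha)) ▸ ha)
  · have o : ok M (k, b, g) := ⟨km, t _ hb, hg⟩
    have u : U fun p : Z × Z × Z => ZFSet.sep (fun x => ∀ a ∈ p.2.1, x ∈ Shared.LDefs.app p.2.2 a)
      p.1 := by fun_prop
    refine ⟨⟨fun _ y => (mem_sep.1 y).1, u.mem_of m (k, b, g) o⟩, ?_⟩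
    rw [h.tmU m q _ _ u o]
    refine mem_sep.2 ⟨cr, fun a (ha : a ∈ j b) => ?_⟩
    rw [fx b hb] at ha
    have := (e a ha).2
    rwa [h.app m q hg (t _ (ko.mem_trans ha hb)), fx a (ko.mem_trans ha hb)] at this
  · have c1 : Shared.LDefs.app (j g) k ∈ k := (h.iffU m q (fun p : Z × Z => ∀ a ∈ p.1, Shared.LDefs.app p.2 a ∈ a) (X, g)
      (by fun_prop) (by exact ⟨e.1.2, hg⟩)).1 c k e.2
    have o : ok M (X, g, Shared.LDefs.app (j g) k) := ⟨e.1.2, hg, t _ c1⟩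
    have u : U fun p : Z × Z × Z => ZFSet.sep (fun a => Shared.LDefs.app p.2.1 a = p.2.2) p.1 := by
      fun_prop
    refine ⟨_, c1, ⟨fun _ y => e.1.1 (mem_sep.1 y).1, u.mem_of m (X, g, _) o⟩, ?_⟩
    rw [h.tmU m q _ _ u o]
    exact mem_sep.2 ⟨e.2, (fx _ c1).symm⟩

theorem Elem.fix_iz (h : Elem M Q j) (m : ZF0 M) (q : ZF0 Q) (ha : a ∈ M)
    (e : ∀ y ∈ j a, y ∈ M ∧ j y = y) (d : Z) : d ∈ M → d.IsOrdinal → IZ M d a → j d = d := by
  induction d using ZFSet.inductionOn with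
  | h d ih =>
    rintro hd o ⟨g, hg, g1, g2⟩
    have f : ∀ x ∈ d, j x = x := fun x hx => ih x hx (m.trans _ hd _ hx) (o.mem hx) ⟨g, hg,
      fun y hy => g1 y (o.mem_trans hy hx), fun y hy z hz => g2 y (o.mem_trans hy hx) z
        (o.mem_trans hz hx)⟩
    obtain ⟨g3, g4⟩ := (h.iffU m q (fun p : Z × Z × Z => (∀ x ∈ p.1, Shared.LDefs.app p.2.1 x ∈
      p.2.2) ∧ ∀ x ∈ p.1, ∀ y ∈ p.1, Shared.LDefs.app p.2.1 x = Shared.LDefs.app p.2.1 y → x = y)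
      (d, g, a) (by fun_prop) (by exact ⟨hd, hg, ha⟩)).1 ⟨g1, g2⟩
    ext y
    refine ⟨fun hy => ?_, fun hy => f y hy ▸ (h.mem_iff (m.trans _ hd _ hy) hd).2 hy⟩
    obtain ⟨z1, z2⟩ := e _ (g3 y hy)
    obtain ⟨x, hx, e1⟩ := (h.iffU m q (fun p : Z × Z × Z => ∃ x ∈ p.1, Shared.LDefs.app p.2.1 x =
      p.2.2) (d, g, _) (by fun_prop) (by exact ⟨hd, hg, z1⟩)).2 ⟨y, hy, z2.symm⟩
    have xM := m.trans _ hd _ hx
    rwa [← g4 _ ((h.mem_iff xM hd).2 hx) y hy (((h.app m q hg xM).symm.trans (congrArg j e1)).trans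
      z2), f x hx]

theorem code_inj {f g : Z → Z} (ha : a.IsOrdinal) (hb : b.IsOrdinal)
    (hf : ∀ x ∈ a, ∀ y ∈ a, f x = f y → x = y) (hg : ∀ x ∈ b, ∀ y ∈ b, g x = g y → x = y)
    (e : ∀ z, (∃ y ∈ a, ∃ x ∈ insert y y, pair (f x) (f y) = z) ↔
      ∃ y ∈ b, ∃ x ∈ insert y y, pair (g x) (g y) = z) : a = b := by
  have key : ∀ y, y ∈ a → ∀ y' ∈ b, f y = g y' → y = y' := fun y => by
    induction y using ZFSet.inductionOn with
    | h y ih =>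
      intro hy y' hy' c
      ext x
      refine ⟨fun hx => ?_, fun hx => ?_⟩
      · obtain ⟨z, h1, w, h2, h3⟩ := (e _).1 ⟨y, hy, x, mem_insert_of_mem _ hx, rfl⟩
        obtain ⟨h5, h4⟩ := pair_inj.1 h3
        obtain rfl := hg _ h1 _ hy' (h4.trans c)
        rcases mem_insert_iff.1 h2 with rfl | h2
        · exact (mem_irrefl _ (hf _ (ha.mem_trans hx hy) _ hy (h5.symm.trans h4) ▸ hx)).elim
        · exact ih x hx (ha.mem_trans hx hy) w (hb.mem_trans h2 h1) h5.symm ▸ h2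
      · obtain ⟨z, h1, w, h2, h3⟩ := (e _).2 ⟨y', hy', x, mem_insert_of_mem _ hx, rfl⟩
        obtain ⟨h5, h4⟩ := pair_inj.1 h3
        obtain rfl := hf _ h1 _ hy (h4.trans c.symm)
        rcases mem_insert_iff.1 h2 with rfl | h2
        · exact (mem_irrefl _ (hg _ (hb.mem_trans hx hy') _ hy' (h5.symm.trans h4) ▸ hx)).elim
        · exact ih w h2 (ha.mem_trans h2 h1) x (hb.mem_trans hx hy') h5 ▸ h2
  ext y
  refine ⟨fun hy => ?_, fun hy => ?_⟩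
  · obtain ⟨z, h1, w, -, h3⟩ := (e _).1 ⟨y, hy, y, mem_insert _ _, rfl⟩
    exact key y hy z h1 (pair_inj.1 h3).2.symm ▸ h1
  · obtain ⟨z, h1, w, -, h3⟩ := (e _).2 ⟨y, hy, y, mem_insert _ _, rfl⟩
    exact key z h1 y hy (pair_inj.1 h3).2 ▸ h1

theorem IP.iz (h : IP M d k) (m : ZF0 M) (c : AC M) (hd : d ∈ M) (km : k ∈ M) :
    IZ M d (pow M (prod k k)) := by
  obtain ⟨g, hg, g1, g2⟩ := h
  obtain ⟨f, hf, f1⟩ := m.choice c (R := fun (p : Z × Z) x y => (∀ z ∈ app p.1 x, app y z ∈ p.2) ∧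
    ∀ z ∈ app p.1 x, ∀ w ∈ app p.1 x, app y z = app y w → z = w) (by fun_prop) (g, k)
    (by exact ⟨hg, km⟩) hd fun x hx => (g1 x hx).2
  have u : U fun p : (Z × Z) × Z => bun (app p.1.1 p.2) fun y => img (fun x => pair
    (app (app p.1.2 p.2) x) (app (app p.1.2 p.2) y)) (insert y y) := by fun_prop
  refine ⟨gr (fun p => bun (app g p) fun y => img (fun x => pair (app (app f p) x)
    (app (app f p) y)) (insert y y)) d, m.tm (fun q : Z × Z × Z => gr (fun p => bun (app q.1 p)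
      fun y => img (fun x => pair (app (app q.2.1 p) x) (app (app q.2.1 p) y)) (insert y y)) q.2.2)
    (g, f, d) (by fun_prop) ⟨hg, hf, hd⟩, fun x hx => ?_, fun x hx y hy e => ?_⟩
  · rw [app_gr hx]
    refine mem_pow.2 ⟨fun z hz => ?_, u.mem_of m ((g, f), x) ⟨⟨hg, hf⟩, m.trans _ hd _ hx⟩⟩
    obtain ⟨y, h1, h2⟩ := mem_bun.1 hz
    obtain ⟨w, h3, rfl⟩ := mem_img.1 h2
    exact pair_mem_prod.2 ⟨(f1 x hx).1 w ((mem_insert_iff.1 h3).elim (fun e => e.symm ▸ h1)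
      fun e => (g1 x hx).1.mem_trans e h1), (f1 x hx).1 y h1⟩
  · rw [app_gr hx, app_gr hy] at e
    exact g2 x hx y hy (code_inj (g1 x hx).1 (g1 y hy).1 (f1 x hx).2 (f1 y hy).2 fun z => by
      simpa only [mem_bun, mem_img] using iff_of_eq (congrArg (z ∈ ·) e))

theorem RZ.uniq (m : ZF0 M) (km : k ∈ M) (hr : r ∈ M) (hr' : r' ∈ M) (hd : d ∈ M) (hd' : d' ∈ M)
    (h : RZ M k r d) (h' : RZ M k r' d') : d = d' := by
  have a : Agr M M k := ⟨m, m, le_rfl, km, fun _ h _ => h, fun _ h _ => h, fun g h _ => m.grapp h km⟩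
  have e : ∀ x ∈ M, x ∈ d ↔ x ∈ d' := fun x hx => (h.2 x hx).trans ((exists_congr fun V =>
    and_congr_right fun _ => and_congr_right fun hV => by
      rw [a.rz (fun _ _ _ _ e _ => e.1) hr hr' h h' hV]).trans (h'.2 x hx).symm)
  exact ZFSet.ext fun x => ⟨fun c => (e x (m.trans _ hd _ c)).1 c,
    fun c => (e x (m.trans _ hd' _ c)).2 c⟩

/-- Solovay's lemma. -/
theorem Ext.solovay (h : Ext M Q j e D) (c : AC M) (km : k ∈ M) (ko : k.IsOrdinal)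
    (fx : ∀ a ∈ k, j a = a) (cr : k ∈ j k) (all : ∀ W, NZ M k W → W ∈ Q) (hr : r ∈ Q) (hd : d ∈ Q)
    (rz : RZ M k r d) (iz : IZ Q d (pow M (prod k k))) : False := by
  classical
  have m := h.zf
  have q := h.zq
  have ag := h.el.agr m q h.le km ko fx cr
  have hV : ZFSet.sep (fun X => k ∈ j X) (pow M k) ∈ M := by
    convert m.tm (fun p : Z × Z × Z => ZFSet.sep (fun X => p.1 ∈ app p.2.1 X) p.2.2)
      (k, gr j (pow M k), pow M k) (by fun_prop) ⟨km, h.gr_mem (m.pow km), m.pow km⟩ using 1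
    ext X
    rw [mem_sep, mem_sep]
    exact and_congr_right fun hX => by rw [app_gr hX]
  have u : MU M k _ := ⟨m, c, km, h.el.nz m q km ko fx cr hV⟩
  have los : ∀ φ v, EM M v → (ES (u.pi '' M) φ (fun i => u.pi (v i)) ↔
      ES Q φ fun i => app (j (v i)) k) := fun φ v hv => (u.los φ v hv).trans ((mem_sep.trans
    (and_iff_right (mem_pow.2 ⟨fun _ y => (mem_sep.1 y).1, u.des φ hv⟩))).trans
    (h.el.seed m q km cr φ hv).symm)
  let s : Z → Z := fun y => if e : ∃ f ∈ M, u.pi f = y then app (j e.choose) k else ∅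
  have s1 : ∀ f ∈ M, s (u.pi f) = app (j f) k := fun f hf => by
    have e : ∃ g ∈ M, u.pi g = u.pi f := ⟨f, hf, rfl⟩
    exact (dif_pos e).trans ((los (.eq 0 1) (cons e.choose fun _ => f)
      (EM.cons (fun _ => hf) e.choose_spec.1)).1 e.choose_spec.2)
  have el : Elem (u.pi '' M) Q s := ⟨by
    rintro _ ⟨f, hf, rfl⟩
    exact s1 f hf ▸ q.app (h.el.map _ hf) ag.kn, fun φ v hv => by
    choose f hf e using hv
    rw [← funext e]
    simp only [s1 _ (hf _)]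
    exact los φ f hf⟩
  have s2 : ∀ a ∈ k, s a = a := fun a ha => by
    have aM := m.trans _ km _ ha
    have := s1 _ (u.cst aM)
    rw [show u.pi _ = a from u.fix a ha, h.el.tmU m q (fun p : Z × Z => prod p.1 {p.2}) (k, a)
      (by fun_prop) (by exact ⟨km, aM⟩)] at this
    exact this.trans ((app_const cr).trans (fx a ha))
  have s3 : s k = k := by
    have := s1 _ u.idm
    rw [u.pi_id, h.el.tmU m q (fun p : Z => gr (fun a => a) p) k (by fun_prop) km] at this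
    exact this.trans (app_gr cr)
  have n := u.zq
  have kn := u.agr.kn
  have rq : RZ Q k r d := ⟨fun V _ hV x hx => (rz.1 V (h.le hV.1) (ag.nz.1 hV).1 x (h.le hx)).trans
    (exists_congr fun W => ⟨fun ⟨_, a, b, c⟩ => ⟨all W a, ag.nz.2 ⟨a, all W a⟩, ag.bz.2 b, c⟩,
      fun ⟨a, b, c, d⟩ => ⟨h.le a, (ag.nz.1 b).1, ag.bz.1 c, d⟩⟩), fun x hx =>
    (rz.2 x (h.le hx)).trans (exists_congr fun W => ⟨fun ⟨_, a, c⟩ => ⟨all W a,
      ag.nz.2 ⟨a, all W a⟩, c⟩, fun ⟨a, b, c⟩ => ⟨h.le a, (ag.nz.1 b).1, c⟩⟩)⟩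
  obtain ⟨r', hr', d', hd', e1, e2⟩ := (el.iffU n q (fun p : S × Z => ∃ r ∈ p.1, ∃ d ∈ p.1,
    RZ p.1 p.2 r d ∧ IZ p.1 d (pow p.1 (prod p.2 p.2))) (_, k) (by fun_prop)
    (by exact ⟨rfl, kn⟩)).2 (by
      show ∃ r ∈ Q, ∃ d ∈ Q, RZ Q (s k) r d ∧ IZ Q d (pow Q (prod (s k) (s k)))
      rw [s3]
      exact ⟨r, hr, d, hd, rq, iz.imp fun g e => ⟨e.1, fun x hx => mem_pow.2 ⟨(mem_pow.1
        (e.2.1 x hx)).1, ag.sub2 _ (mem_pow.1 (e.2.1 x hx)).2 (mem_pow.1 (e.2.1 x hx)).1⟩, e.2.2⟩⟩)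
  have e3 := el.fix_iz n q (n.pow (n.prod kn kn)) (fun X hX => by
    rw [el.tmU n q (fun p : S × Z => pow p.1 (prod p.2 p.2)) (_, k) (by fun_prop)
      (by exact ⟨rfl, kn⟩)] at hX
    obtain ⟨h1, h2⟩ : X ⊆ prod (s k) (s k) ∧ X ∈ Q := mem_pow.1 hX
    rw [s3] at h1
    have h3 := u.agr.sub2 X (h.le h2) h1
    have h4 : ∀ y ∈ prod k k, y ∈ s X ↔ y ∈ X := fun y hy => by
      obtain ⟨a, ha, b, hb, rfl⟩ := mem_prod.1 hy
      have o : ok (u.pi '' M) (a, b) := ⟨n.trans _ kn _ ha, n.trans _ kn _ hb⟩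
      rw [← el.mem_iff (n.opair o.1 o.2) h3, el.tmU n q (fun p : Z × Z => pair p.1 p.2) (a, b)
        (by fun_prop) o]
      show _ ↔ pair (s a) (s b) ∈ _
      rw [s2 a ha, s2 b hb]
    have h5 : s X ⊆ prod (s k) (s k) := (el.iffU n q (fun p : Z × Z => p.1 ⊆ prod p.2 p.2) (X, k)
      (by fun_prop) (by exact ⟨h3, kn⟩)).1 h1
    rw [s3] at h5
    exact ⟨h3, ZFSet.ext fun y => ⟨fun c => (h4 y (h5 c)).1 c, fun c => (h4 y (h1 c)).2 c⟩⟩) d' hd'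
    (e1.ord' n hr' hd') e2
  have e4 : RZ Q (s k) (s r') (s d') := (el.iffU n q (fun p : S × Z × Z × Z =>
    RZ p.1 p.2.1 p.2.2.1 p.2.2.2) (_, k, r', d') (by fun_prop) (by exact ⟨rfl, kn, hr', hd'⟩)).1 e1
  rw [s3, e3] at e4
  have e5 := RZ.uniq q ag.kn hr (el.map _ hr') hd (e3 ▸ el.map _ hd') rq e4
  have e6 := u.rank_eq (h.le hr) hr' hd' rz e1
  exact mem_irrefl d ((rz.2 d (h.le hd)).2 ⟨_, hV, u.nz, by rw [e6, ← e5]; exact mem_insert _ _⟩)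

variable {κ : Ordinal.{0}}

theorem normal_iff (m : ZF0 M) (km : κ.toZFSet ∈ M) : Normal M κ W ↔ NZ M κ.toZFSet W := by
  have ko := isOrdinal_toZFSet κ
  refine ⟨fun h => ⟨h.mem, ko, (limit_iff ko).2 (Ordinal.toZFSet_mem_toZFSet_iff.2 h.unc), h.sub,
    h.up, h.ultra, fun a _ => h.free a, fun b hb g hg e => ?_, fun X hX g hg e => ?_⟩,
    fun ⟨h1, _, h3, h4, h5, h6, h7, h8, h9⟩ => ⟨h1, Ordinal.toZFSet_mem_toZFSet_iff.1
      ((limit_iff ko).1 h3), h4, h5, h6, fun a e => h7 a (h4 _ e (mem_singleton.2 rfl)) e,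
      fun b hb F hF e => ?_, fun X hX f hf e => ?_⟩⟩
  · have bM := m.trans _ km _ hb
    obtain ⟨b, hb', rfl⟩ := Ordinal.mem_toZFSet_iff.1 hb
    exact h.complete b hb' _ (funIn_iff.2 (m.grapp hg bM)) e
  · obtain ⟨c, hc⟩ := h.normal X hX _ (funIn_iff.2 (m.grapp hg (m.trans _ h.mem _ hX))) e
    refine ⟨c, ?_, hc⟩
    by_contra n
    refine (h.ultra _ km fun _ => id).1 (h.up X hX _ km (h.sub X hX) fun _ => id) ?_
    convert hc using 1
    ext x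
    simp only [mem_sdiff, and_not_self, mem_sep, false_iff, not_and]
    exact fun hx c => n (ko.mem_trans (c ▸ e x hx) (h.sub X hX hx))
  · convert h8 _ (Ordinal.toZFSet_mem_toZFSet_iff.2 hb) _ (funIn_iff.1 hF)
      fun a ha => (app_gr ha).symm ▸ e a ha using 1
    ext x
    rw [mem_sep, mem_sep]
    exact and_congr_right fun _ => forall₂_congr fun a ha => by rw [app_gr ha]
  · obtain ⟨c, -, hc⟩ := h9 X hX _ (funIn_iff.1 hf) fun a ha => (app_gr ha).symm ▸ e a ha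
    refine ⟨c, ?_⟩
    convert hc using 1
    ext x
    rw [mem_sep, mem_sep]
    exact and_congr_right fun hx => by rw [app_gr hx]

theorem below_iff (m : ZF0 M) (km : κ.toZFSet ∈ M) : Below M κ W V ↔ BZ M κ.toZFSet W V :=
  ⟨fun ⟨_, hf, e⟩ => ⟨_, funIn_iff.1 hf, fun X hX c => (e X hX c).trans
    (MU.bg_congr fun a ha => by rw [app_gr ha])⟩,
    fun ⟨_, hg, e⟩ => ⟨_, funIn_iff.2 (m.grapp hg km), e⟩⟩

theorem next_iff (m : ZF0 M) (o : ∀ x : Ordinal.{0}, x.toZFSet ∈ M) {μ : Ordinal.{0}} :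
    Next M κ μ ↔ ∀ x, x < μ ↔ IZ M x.toZFSet κ.toZFSet :=
  forall_congr' fun x => iff_congr Iff.rfl ⟨fun ⟨_, hf, e1, e2⟩ => ⟨_, funIn_iff.1 hf,
    fun a ha => (app_gr ha).symm ▸ e1 a ha, fun a ha b hb e => e2 a ha b hb
      (by rwa [app_gr ha, app_gr hb] at e)⟩,
    fun ⟨_, hg, e⟩ => ⟨_, funIn_iff.2 (m.grapp hg (o x)), e⟩⟩

theorem exists_next (M : S) (κ : Ordinal.{0}) :
    ∃ μ : Ordinal.{0}, ∀ x, x < μ ↔ IZ M x.toZFSet κ.toZFSet := by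
  have ne : {x : Ordinal.{0} | ¬ IZ M x.toZFSet κ.toZFSet}.Nonempty := by
    refine ⟨(Order.succ κ.card).ord, fun ⟨g, _, g1, g2⟩ => ?_⟩
    have := Cardinal.mk_le_of_injective (f := fun x : (Order.succ κ.card).ord.toZFSet =>
      (⟨app g x, g1 x x.2⟩ : κ.toZFSet)) fun x y e =>
        Subtype.ext (g2 x x.2 y y.2 (congrArg Subtype.val e))
    rw [cardinalMk_coe_sort, cardinalMk_coe_sort, Cardinal.lift_le, Ordinal.card_toZFSet,
      Ordinal.card_toZFSet, Cardinal.card_ord] at this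
    exact (Order.lt_succ _).not_ge this
  refine ⟨sInf _, fun x => ⟨fun h => not_not.1 (notMem_of_lt_csInf' h), fun ⟨g, hg, g1, g2⟩ => ?_⟩⟩
  by_contra c
  have s := Ordinal.toZFSet_subset_toZFSet_iff.2 (not_lt.1 c)
  exact csInf_mem ne ⟨g, hg, fun y hy => g1 y (s hy), fun y hy z hz => g2 y (s hy) z (s hz)⟩

theorem InnerModel.zf (h : InnerModel M) : ZF0 M :=
  ⟨h.trans, Tr.empty h.trans (h.ord 0), h.pair, h.union, h.power, fun φ v hv a ha => by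
    obtain ⟨l, h1, h2⟩ := es_list φ v
    simp only [fun x => (h2 M id x x).2.1]
    exact h.sep φ l (fun x hx => let ⟨i, e⟩ := h1 x hx; e ▸ hv i) a ha, fun φ v hv a ha => by
    obtain ⟨l, h1, h2⟩ := es_list φ v
    simp only [fun x y => (h2 M id x y).2.2]
    exact h.coll φ l (fun x hx => let ⟨i, e⟩ := h1 x hx; e ▸ hv i) a ha⟩

theorem InnerModel.ac (h : InnerModel M) : AC M := fun a ha =>
  let ⟨_, hf, e⟩ := h.choice a ha
  ⟨_, funIn_iff.1 hf, fun x hx c => (app_gr hx).symm ▸ e x hx c⟩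

theorem ZF0.inner (m : ZF0 M) (c : AC M) (o : ∀ x : Ordinal.{0}, x.toZFSet ∈ M) :
    InnerModel M := by
  have k : ∀ l : List Z, (∀ x ∈ l, x ∈ M) → EM M fun i => l.getD i ∅ := fun l h i => by
    show l.getD i ∅ ∈ M
    rw [List.getD_eq_getElem?_getD]
    cases c : l[i]? with
    | none => exact m.empty
    | some a => exact h a (List.mem_of_getElem? c)
  refine ⟨m.trans, o, m.pair, m.union, m.power, fun φ l hl a ha => ?_, fun φ l hl a ha => ?_,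
    fun a ha => let ⟨f, hf, e⟩ := c a ha; ⟨_, funIn_iff.2 (m.grapp hf ha), e⟩⟩
  · simp only [csat_iff, getD_cons]
    exact m.sep φ _ (k l hl) a ha
  · simp only [csat_iff, getD_cons]
    exact m.coll φ _ (k l hl) a ha

/-- Conclusion (a) from `o(k) ≥ k⁺⁺` in an inner model. -/
theorem concA_of_not_sm (h : InnerModel M) (ko : k.IsOrdinal) (e : ¬ Sm M k) : ConcA := by
  have m := h.zf
  obtain ⟨k, km, ko, r, hr, d, hd, e1, e2, e3⟩ := exists_exact m h.ac (ko.toZFSet_rank_eq ▸ h.ord _)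
    ko e
  obtain ⟨κ, rfl⟩ := isOrdinal_iff_mem_range_toZFSet.1 ko
  obtain ⟨δ, rfl⟩ := isOrdinal_iff_mem_range_toZFSet.1 (e1.ord' m hr hd)
  obtain ⟨μ, hμ⟩ := exists_next M κ
  have le : ∀ {V} (x : Ordinal.{0}), NZ M κ.toZFSet V →
      (x.toZFSet ∈ insert (app r V) (app r V) ↔ x ≤ (app r V).rank) := fun x hV => by
    rw [← (e1.ord m hr hV).toZFSet_rank_eq, ← Ordinal.toZFSet_add_one,
      Ordinal.toZFSet_mem_toZFSet_iff, Ordinal.rank_toZFSet, Order.lt_add_one_iff]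
  have top : ∀ x, x < δ ↔ ∃ V, Normal M κ V ∧ x ≤ (app r V).rank := fun x => by
    rw [← Ordinal.toZFSet_mem_toZFSet_iff, e1.2 _ (h.ord x)]
    exact exists_congr fun V => ⟨fun ⟨_, a, b⟩ => ⟨(normal_iff m km).2 a, (le x a).1 b⟩,
      fun ⟨a, b⟩ => ⟨a.mem, (normal_iff m km).1 a, (le x ((normal_iff m km).1 a)).2 b⟩⟩
  refine ⟨M, h, κ, μ, δ, ((top 0).1 (pos_of_ne_zero ?_)).imp fun _ => And.left,
    (next_iff m h.ord).2 hμ, (next_iff m h.ord).2 fun x => ⟨fun c => ?_, fun ⟨g, hg, g1, g2⟩ => ?_⟩,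
    fun V => (app r V).rank, fun V hV x => ?_, top⟩
  · rintro rfl
    exact e2 ⟨∅, m.empty, by simp, by simp⟩
  · obtain ⟨g, hg, g1, g2⟩ := e3 _ (Ordinal.toZFSet_mem_toZFSet_iff.2 c)
    refine ⟨g, hg, fun y hy => ?_, g2⟩
    rw [← (g1 y hy).1.toZFSet_rank_eq, Ordinal.toZFSet_mem_toZFSet_iff, hμ,
      (g1 y hy).1.toZFSet_rank_eq]
    exact (g1 y hy).2
  · by_contra c
    have s := Ordinal.toZFSet_subset_toZFSet_iff.2 (not_lt.1 c)
    refine e2 ⟨g, hg, fun y hy => ?_, fun y hy z hz => g2 y (s hy) z (s hz)⟩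
    obtain ⟨w, hw, e⟩ := Ordinal.mem_toZFSet_iff.1 (g1 y (s hy))
    exact e ▸ ⟨isOrdinal_toZFSet w, (hμ w).1 hw⟩
  · have V1 := (normal_iff m km).1 hV
    rw [← Ordinal.toZFSet_mem_toZFSet_iff, (e1.ord m hr V1).toZFSet_rank_eq,
      e1.1 V hV.mem V1 _ (h.ord x)]
    exact exists_congr fun W => ⟨fun ⟨_, a, b, c⟩ => ⟨(normal_iff m km).2 a, (below_iff m km).2 b,
      (le x a).1 c⟩, fun ⟨a, b, c⟩ => ⟨a.mem, (normal_iff m km).1 a, (below_iff m km).1 b,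
        (le x ((normal_iff m km).1 a)).2 c⟩⟩

end Pool.Agent.Lib.MP_5c0be7_lc
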