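import Pool.Agent.Lib.MP_5c0be7_lc.Defs
import Pool.Agent.Shared.LTool

/-!
Satisfaction with infinite environments, models of ZF, elementary maps, and predicates that are
definable by one formula in all models.
-/

namespace Pool.Agent.Lib.MP_5c0be7_lc

open ZFSet Pool.Agent.Lib.MP_053343_lc
open Pool.Agent.Shared.LDefs (E cons tl cons_zero cons_succ tl_cons)

/-- Sets. -/
abbrev Z : Type 1 := ZFSet.{0}

/-- Classes. -/
abbrev S : Type 1 := Set ZFSet.{0}

/-- Satisfaction with an infinite environment. -/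
def ES (M : S) : Fml → E.{0} → Prop
  | .mem i j, v => v i ∈ v j
  | .eq i j, v => v i = v j
  | .neg φ, v => ¬ ES M φ v
  | .and φ ψ, v => ES M φ v ∧ ES M ψ v
  | .ex φ, v => ∃ x ∈ M, ES M φ (cons x v)

theorem getD_cons (x : Z) (l : List Z) :
    (fun i => (x :: l).getD i ∅) = cons x fun i => l.getD i ∅ := funext fun i => by cases i <;> rfl

theorem csat_iff (M : S) (φ : Fml) : ∀ l, CSat M φ l ↔ ES M φ fun i => l.getD i ∅ := by
  induction φ with
  | mem | eq => exact fun _ => Iff.rfl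
  | neg φ ih => exact fun l => not_congr (ih l)
  | and φ ψ i1 i2 => exact fun l => and_congr (i1 l) (i2 l)
  | ex φ ih => exact fun l => exists_congr fun x => and_congr_right fun _ => by rw [ih, getD_cons]

theorem es_fin (φ : Fml) : ∃ n, ∀ M v w, (∀ i < n, v i = w i) → (ES M φ v ↔ ES M φ w) := by
  induction φ with
  | mem i j | eq i j =>
    exact ⟨max i j + 1, fun M v w h => by simp only [ES]; rw [h i (by omega), h j (by omega)]⟩
  | neg φ ih => exact ih.imp fun n h M v w e => not_congr (h M v w e)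
  | and φ ψ i1 i2 =>
    obtain ⟨n, h⟩ := i1
    obtain ⟨m, h'⟩ := i2
    exact ⟨max n m, fun M v w e => and_congr (h M v w fun i hi => e i (by omega))
      (h' M v w fun i hi => e i (by omega))⟩
  | ex φ ih =>
    refine ih.imp fun n h M v w e => exists_congr fun x => and_congr_right fun _ => h M _ _ ?_
    rintro (_ | i) hi
    exacts [rfl, e i (by omega)]

theorem es_list (φ : Fml) (v : E.{0}) : ∃ l : List Z, (∀ x ∈ l, ∃ i, x = v i) ∧
    ∀ (M : S) (f : Z → Z) (x y : Z), (ES M φ (fun i => f (v i)) ↔ CSat M φ (l.map f)) ∧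
      (ES M φ (cons x v) ↔ CSat M φ (x :: l)) ∧
      (ES M φ (cons y (cons x v)) ↔ CSat M φ (y :: x :: l)) := by
  obtain ⟨n, h⟩ := es_fin φ
  refine ⟨(List.range n).map v, by simp, fun M f x y => ⟨?_, ?_, ?_⟩⟩ <;> rw [csat_iff] <;>
    refine h M _ _ ?_
  · intro i hi; simp [hi]
  · rintro (_ | i) hi
    · rfl
    · simp [show i < n by omega]
  · rintro (_ | _ | i) hi
    · rfl
    · rfl
    · simp [show i < n by omega]

/-- All values lie in `M`. -/
def EM (M : S) (v : E.{0}) : Prop := ∀ i, v i ∈ M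

theorem EM.cons {M : S} {x : Z} {v : E.{0}} (hv : EM M v) (hx : x ∈ M) : EM M (cons x v)
  | 0 => hx
  | n + 1 => hv n

theorem EM.tl {M : S} {v : E.{0}} (hv : EM M v) : EM M (tl v) := fun i => hv (i + 1)

/-- Definable by one formula in all classes satisfying `K`. -/
def UD (K : S → Prop) (P : S → E.{0} → Prop) : Prop :=
  ∃ φ, ∀ M, K M → ∀ v, EM M v → (ES M φ v ↔ P M v)

namespace UD

variable {K : S → Prop} {P Q : S → E.{0} → Prop}

theorem es (φ : Fml) : UD K fun M v => ES M φ v := ⟨φ, fun _ _ _ _ => Iff.rfl⟩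

theorem mem (i j : ℕ) : UD K fun _ v => v i ∈ v j := es (.mem i j)

theorem eq (i j : ℕ) : UD K fun _ v => v i = v j := es (.eq i j)

theorem congr (h : UD K P) (e : ∀ M, K M → ∀ v, EM M v → (P M v ↔ Q M v)) : UD K Q :=
  h.imp fun _ h M k v hv => (h M k v hv).trans (e M k v hv)

theorem not (h : UD K P) : UD K fun M v => ¬ P M v :=
  let ⟨φ, h⟩ := h; ⟨.neg φ, fun M k v hv => not_congr (h M k v hv)⟩

theorem and (h : UD K P) (h' : UD K Q) : UD K fun M v => P M v ∧ Q M v :=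
  let ⟨φ, h⟩ := h; let ⟨ψ, h'⟩ := h'
  ⟨.and φ ψ, fun M k v hv => and_congr (h M k v hv) (h' M k v hv)⟩

theorem ex' (h : UD K P) : UD K fun M v => ∃ x ∈ M, P M (cons x v) :=
  let ⟨φ, h⟩ := h
  ⟨.ex φ, fun M k v hv => exists_congr fun _ => and_congr_right fun hx => h M k _ (hv.cons hx)⟩

theorem or (h : UD K P) (h' : UD K Q) : UD K fun M v => P M v ∨ Q M v :=
  (h.not.and h'.not).not.congr fun _ _ _ _ => by tauto

theorem imp' (h : UD K P) (h' : UD K Q) : UD K fun M v => P M v → Q M v :=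
  (h.and h'.not).not.congr fun _ _ _ _ => by tauto

theorem iff (h : UD K P) (h' : UD K Q) : UD K fun M v => P M v ↔ Q M v :=
  ((h.imp' h').and (h'.imp' h)).congr fun _ _ _ _ => by tauto

theorem all' (h : UD K P) : UD K fun M v => ∀ x ∈ M, P M (cons x v) :=
  h.not.ex'.not.congr fun _ _ _ _ => by simp

theorem es_rename (φ : Fml) : ∀ σ : ℕ → ℕ, UD K fun M v => ES M φ fun i => v (σ i) := by
  induction φ with
  | mem i j => exact fun σ => mem _ _
  | eq i j => exact fun σ => eq _ _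
  | neg φ ih => exact fun σ => (ih σ).not
  | and φ ψ i1 i2 => exact fun σ => (i1 σ).and (i2 σ)
  | ex φ ih =>
    refine fun σ => (ih fun i => match i with | 0 => 0 | i + 1 => σ i + 1).ex'.congr
      fun M _ v _ => exists_congr fun x => and_congr_right fun _ => iff_of_eq (congrArg _ ?_)
    funext i
    cases i <;> rfl

theorem rename (h : UD K P) (σ : ℕ → ℕ) : UD K fun M v => P M fun i => v (σ i) :=
  let ⟨φ, h⟩ := h; (es_rename φ σ).congr fun M k _ hv => h M k _ fun _ => hv _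

end UD

/-- Transitive classes. -/
def Tr (M : S) : Prop := ∀ a ∈ M, ∀ x ∈ a, x ∈ M

/-- Transitive models of ZF without infinity. -/
structure ZF0 (M : S) : Prop where
  trans : Tr M
  empty : ∅ ∈ M
  pair : ∀ a ∈ M, ∀ b ∈ M, ({a, b} : Z) ∈ M
  union : ∀ a ∈ M, ZFSet.sUnion a ∈ M
  power : ∀ a ∈ M, ∃ b ∈ M, ∀ x ∈ M, x ∈ b ↔ x ⊆ a
  sep : ∀ φ v, EM M v → ∀ a ∈ M, ZFSet.sep (fun x => ES M φ (cons x v)) a ∈ M
  coll : ∀ φ v, EM M v → ∀ a ∈ M, (∀ x ∈ a, ∃ y ∈ M, ES M φ (cons y (cons x v))) →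
    ∃ b ∈ M, ∀ x ∈ a, ∃ y ∈ b, ES M φ (cons y (cons x v))

/-- Elementary maps. -/
structure Elem (M Q : S) (j : Z → Z) : Prop where
  map : ∀ x ∈ M, j x ∈ Q
  es : ∀ φ v, EM M v → (ES M φ v ↔ ES Q φ fun i => j (v i))

variable {M Q : S} {j : Z → Z}

theorem Elem.ud {K : S → Prop} (h : Elem M Q j) (k : K M) (k' : K Q) {P : S → E.{0} → Prop}
    (hP : UD K P) {v : E.{0}} (hv : EM M v) : P M v ↔ P Q fun i => j (v i) :=
  let ⟨φ, e⟩ := hP
  (e M k v hv).symm.trans ((h.es φ v hv).trans (e Q k' _ fun i => h.map _ (hv i)))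

theorem Elem.all_es (h : Elem M Q j) {c : Z} (hc : c ∈ M) (n : ℕ) : ∀ φ,
    (∀ N v w, (∀ i < n, v i = w i) → (ES N φ v ↔ ES N φ w)) → (∀ v, EM M v → ES M φ v) →
      ∀ w, EM Q w → ES Q φ w := by
  induction n with
  | zero => exact fun φ f H w _ => (f Q _ w nofun).1 ((h.es φ _ fun _ => hc).1 (H _ fun _ => hc))
  | succ n ih =>
    intro φ f H w hw
    have := ih (.neg (.ex (.neg φ))) (fun N v w e => not_congr (exists_congr fun x =>
      and_congr_right fun _ => not_congr (f N _ _ (by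
        rintro (_ | i) hi
        exacts [rfl, e i (by omega)])))) (fun v hv ⟨x, hx, e⟩ => e (H _ (hv.cons hx))) _ hw.tl
    by_contra e
    refine this ⟨w 0, hw 0, fun e' => e ((f Q _ _ ?_).1 e')⟩
    rintro (_ | i) _ <;> rfl

theorem Elem.all {K : S → Prop} (h : Elem M Q j) {c : Z} (hc : c ∈ M) (k : K M) (k' : K Q)
    {P : S → E.{0} → Prop} (hP : UD K P) (H : ∀ v, EM M v → P M v) (w : E.{0}) (hw : EM Q w) :
    P Q w :=
  let ⟨φ, e⟩ := hP; let ⟨n, f⟩ := es_fin φ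
  (e Q k' w hw).1 (h.all_es hc n φ f (fun v hv => (e M k v hv).2 (H v hv)) w hw)

theorem Tr.ext (t : Tr M) {a b : Z} {p : Z → Prop} (hb : b ∈ M) (ha : ∀ x ∈ a, x ∈ M)
    (h : ∀ x ∈ M, x ∈ b ↔ p x) (e : ∀ x, x ∈ a ↔ p x) : a ∈ M := by
  rwa [show a = b from ZFSet.ext fun x => ⟨fun hx => (h x (ha x hx)).2 ((e x).1 hx),
    fun hx => (e x).2 ((h x (t b hb x hx)).1 hx)⟩]

theorem ud_pair : UD Tr fun M v => ({v 0, v 1} : Z) ∈ M :=
  ((UD.mem 0 1).iff ((UD.eq 0 2).or (UD.eq 0 3))).all'.ex'.congr fun M t v hv =>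
    ⟨fun ⟨b, hb, h⟩ => t.ext hb (by simp [hv 0, hv 1]) h (by simp),
      fun h => ⟨_, h, fun x _ => by simp⟩⟩

theorem ud_union : UD Tr fun M v => ZFSet.sUnion (v 0) ∈ M :=
  ((UD.mem 0 1).iff ((UD.mem 0 3).and (UD.mem 1 0)).ex').all'.ex'.congr fun M t v hv => by
    have e : ∀ x, x ∈ ZFSet.sUnion (v 0) ↔ ∃ y ∈ M, y ∈ v 0 ∧ x ∈ y := fun x => mem_sUnion.trans
      ⟨fun ⟨y, a, b⟩ => ⟨y, t _ (hv 0) _ a, a, b⟩, fun ⟨y, _, a⟩ => ⟨y, a⟩⟩
    exact ⟨fun ⟨b, hb, h⟩ => t.ext hb (fun x hx => let ⟨y, a, _, b⟩ := (e x).1 hx; t _ a _ b) h e,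
      fun h => ⟨_, h, fun x _ => e x⟩⟩

theorem ud_power : UD Tr fun M v => ∃ b ∈ M, ∀ x ∈ M, x ∈ b ↔ x ⊆ v 0 :=
  ((UD.mem 0 1).iff ((UD.mem 0 1).imp' (UD.mem 0 3)).all').all'.ex'.congr fun M t v _ =>
    exists_congr fun b => and_congr_right fun _ => forall₂_congr fun x hx => iff_congr Iff.rfl
      ⟨fun h y hy => h y (t _ hx _ hy) hy, fun h _ _ hy => h hy⟩

theorem ud_sep (φ : Fml) :
    UD Tr fun M v => ZFSet.sep (fun x => ES M φ (cons x (tl v))) (v 0) ∈ M := by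
  refine ((UD.mem 0 1).iff ((UD.mem 0 2).and (UD.es_rename φ fun i =>
    match i with | 0 => 0 | i + 1 => i + 3))).all'.ex'.congr fun M t v hv => ?_
  have e : ∀ x b : Z, (fun i => cons x (cons b v) (match i with | 0 => 0 | i + 1 => i + 3)) =
      cons x (tl v) := fun x b => funext fun i => by cases i <;> rfl
  simp only [e]
  exact ⟨fun ⟨b, hb, h⟩ => t.ext hb (fun x hx => t _ (hv 0) _ (mem_sep.1 hx).1) h
    fun _ => mem_sep, fun h => ⟨_, h, fun x _ => mem_sep (p := fun x => ES M φ (cons x (tl v)))⟩⟩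

theorem ud_coll (φ : Fml) :
    UD Tr fun M v => (∀ x ∈ v 0, ∃ y ∈ M, ES M φ (cons y (cons x (tl v)))) →
      ∃ b ∈ M, ∀ x ∈ v 0, ∃ y ∈ b, ES M φ (cons y (cons x (tl v))) := by
  refine (((UD.mem 0 1).imp' (UD.es_rename φ fun i =>
    match i with | 0 => 0 | 1 => 1 | i + 2 => i + 3).ex').all'.imp' ((UD.mem 0 2).imp'
      ((UD.mem 0 2).and (UD.es_rename φ fun i =>
    match i with | 0 => 0 | 1 => 1 | i + 2 => i + 4)).ex').all'.ex').congr fun M t v hv => ?_
  have e : ∀ x y : Z, (fun i => cons y (cons x v)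
      (match i with | 0 => 0 | 1 => 1 | i + 2 => i + 3)) = cons y (cons x (tl v)) :=
    fun x b => funext fun i => by rcases i with _ | _ | i <;> rfl
  have e' : ∀ x y b : Z, (fun i => cons y (cons x (cons b v))
      (match i with | 0 => 0 | 1 => 1 | i + 2 => i + 4)) = cons y (cons x (tl v)) :=
    fun x y b => funext fun i => by rcases i with _ | _ | i <;> rfl
  simp only [e, e']
  refine imp_congr ⟨fun h x hx => h x (t _ (hv 0) _ hx) hx, fun h x _ => h x⟩
    (exists_congr fun b => and_congr_right fun hb => ⟨fun h x hx => ?_, fun h x _ hx => ?_⟩)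
  · exact (h x (t _ (hv 0) _ hx) hx).imp fun _ h => h.2
  · exact (h x hx).imp fun _ h => ⟨t _ hb _ h.1, h⟩

theorem Tr.empty (t : Tr M) {c : Z} (hc : c ∈ M) : ∅ ∈ M := by
  induction c using ZFSet.inductionOn with
  | h c ih =>
    rcases c.eq_empty_or_nonempty with rfl | ⟨y, hy⟩
    exacts [hc, ih y hy (t _ hc _ hy)]

/-- The target of an elementary map from a model is a model. -/
theorem Elem.zf (h : Elem M Q j) (m : ZF0 M) (t : Tr Q) : ZF0 Q := by
  have e := t.empty (h.map _ m.empty)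
  have z : EM Q fun _ => ∅ := fun _ => e
  have k := fun {P} => h.all (P := P) m.empty m.trans t
  exact ⟨t, e, fun a ha b hb => k ud_pair (fun v hv => m.pair _ (hv 0) _ (hv 1)) _
      ((z.cons hb).cons ha),
    fun a ha => k ud_union (fun v hv => m.union _ (hv 0)) _ (z.cons ha),
    fun a ha => k ud_power (fun v hv => m.power _ (hv 0)) _ (z.cons ha),
    fun φ v hv a ha => k (ud_sep φ) (fun v hv => m.sep φ _ hv.tl _ (hv 0)) _ (hv.cons ha),
    fun φ v hv a ha => k (ud_coll φ) (fun v hv => m.coll φ _ hv.tl _ (hv 0)) _ (hv.cons ha)⟩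

end Pool.Agent.Lib.MP_5c0be7_lc
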