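import Pool.Agent.Lib.MP_5c0be7_lc.U0

/-!
Uniform definability over all transitive models of ZF with a `fun_prop` interface.
A context is a tuple whose entries are sets or the model.
-/

namespace Pool.Agent.Lib.MP_5c0be7_lc

open ZFSet Pool.Agent.Lib.MP_053343_lc
open Pool.Agent.Shared.LDefs (E cons tl cons_zero cons_succ tl_cons)

universe u v w

/-- Definable operations on environments. -/
def UT (t : S → E.{0} → Z) : Prop :=
  (∀ M, ZF0 M → ∀ v, EM M v → t M v ∈ M) ∧ UD ZF0 fun M w => w 0 = t M (tl w)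

theorem UT.rename {t : S → E.{0} → Z} (h : UT t) (σ : ℕ → ℕ) :
    UT fun M v => t M fun i => v (σ i) :=
  ⟨fun M m _ hv => h.1 M m _ fun _ => hv _,
    h.2.rename fun i => match i with | 0 => 0 | i + 1 => σ i + 1⟩

theorem UT.var (i : ℕ) : UT fun _ v => v i := ⟨fun _ _ _ hv => hv i, .eq 0 (i + 1)⟩

theorem UT.congr {s t : S → E.{0} → Z} (h : UT s) (e : ∀ M, ZF0 M → ∀ v, EM M v → s M v = t M v) :
    UT t :=
  ⟨fun M m v hv => e M m v hv ▸ h.1 M m v hv, h.2.congr fun M m w hw => by rw [e M m _ hw.tl]⟩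

theorem UD.subst {P : S → E.{0} → Prop} {t : S → E.{0} → Z} (h : UD ZF0 P) (ht : UT t) :
    UD ZF0 fun M v => P M (cons (t M v) v) :=
  (ht.2.and h).ex'.congr fun M m v hv =>
    ⟨fun ⟨_, _, e, hP⟩ => by simp only [cons_zero, tl_cons] at e; exact e ▸ hP,
      fun hP => ⟨_, ht.1 M m v hv, rfl, hP⟩⟩

theorem UD.es_all (φ : Fml) : ∀ s : ℕ → S → E.{0} → Z, (∀ k, UT (s k)) →
    UD ZF0 fun M v => ES M φ fun k => s k M v := by
  induction φ with
  | mem i j => exact fun s h => ((UD.mem 0 1).subst ((h i).rename (· + 1))).subst (h j)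
  | eq i j => exact fun s h => ((UD.eq 0 1).subst ((h i).rename (· + 1))).subst (h j)
  | neg φ ih => exact fun s h => (ih s h).not
  | and φ ψ i1 i2 => exact fun s h => (i1 s h).and (i2 s h)
  | ex φ ih =>
    refine fun s h => (ih (fun k => match k with
      | 0 => fun _ v => v 0 | k + 1 => fun M v => s k M (tl v)) ?_).ex'.congr
      fun M _ v _ => exists_congr fun x => and_congr_right fun _ => iff_of_eq (congrArg _ ?_)
    · rintro (_ | k)
      exacts [.var 0, (h k).rename (· + 1)]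
    · funext i
      cases i <;> rfl

theorem UD.substAll {P : S → E.{0} → Prop} (h : UD ZF0 P) {s : ℕ → S → E.{0} → Z}
    (hs : ∀ k, UT (s k)) : UD ZF0 fun M v => P M fun k => s k M v :=
  let ⟨φ, h⟩ := h; (es_all φ s hs).congr fun M m _ hv => h M m _ fun k => (hs k).1 M m _ hv

theorem UT.substAll {t : S → E.{0} → Z} (h : UT t) {s : ℕ → S → E.{0} → Z}
    (hs : ∀ k, UT (s k)) : UT fun M v => t M fun k => s k M v :=
  ⟨fun M m v hv => h.1 M m _ fun k => (hs k).1 M m v hv, h.2.substAll (s := fun k => match k with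
    | 0 => fun _ v => v 0 | k + 1 => fun M v => s k M (tl v)) (by
      rintro (_ | k)
      exacts [.var 0, (hs k).rename (· + 1)])⟩

theorem UT.empty : UT fun _ _ => ∅ :=
  ⟨fun _ m _ _ => m.empty, (UD.mem 0 1).ex'.not.congr fun M m v hv =>
    ⟨fun h => (eq_empty _).2 fun y hy => h ⟨y, m.trans _ (hv 0) _ hy, hy⟩,
      fun (h : v 0 = ∅) ⟨y, _, (hy : y ∈ v 0)⟩ => notMem_empty y (h ▸ hy)⟩⟩

open Classical in
/-- Truth values as sets. -/
noncomputable def tv (p : Prop) : Z := if p then {∅} else ∅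

theorem mem_tv {p : Prop} {x : Z} : x ∈ tv p ↔ x = ∅ ∧ p := by
  by_cases h : p <;> simp [tv, h]

theorem ZF0.tv {M : S} (m : ZF0 M) (p : Prop) : tv p ∈ M := by
  unfold Lib.MP_5c0be7_lc.tv
  split_ifs
  · simpa using m.pair _ m.empty _ m.empty
  · exact m.empty

theorem UT.tv {P : S → E.{0} → Prop} (h : UD ZF0 P) : UT fun M v => tv (P M v) := by
  refine ⟨fun M m v _ => ?_, ((UD.mem 0 1).iff (UT.empty.2.and (h.rename (· + 2)))).all'.congr
    fun M m v hv => ⟨fun e => ZFSet.ext fun x => ⟨fun hx => mem_tv.2 ((e x (m.trans _ (hv 0) _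
      hx)).1 hx), fun hx => (e x ((mem_tv.1 hx).1 ▸ m.empty)).2 (mem_tv.1 hx)⟩,
      fun e x _ => (e ▸ mem_tv : x ∈ v 0 ↔ _)⟩⟩
  exact m.tv _

/-- Contexts. -/
class Cx (α : Type u) where
  ok : S → α → Prop
  co : α → E.{0}
  mk' : S → E.{0} → α
  mp : S → (Z → Z) → α → α
  mk_co : ∀ M x, ok M x → mk' M (co x) = x
  ok_mk : ∀ M v, EM M v → ok M (mk' M v)
  co_mem : ∀ M x, ZF0 M → ok M x → EM M (co x)
  ut : ∀ i, UT fun M v => co (mk' M v) i
  mp_eq : ∀ M Q j x, ZF0 M → ZF0 Q → Elem M Q j → ok M x → mk' Q (fun i => j (co x i)) = mp Q j x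

open Cx

instance : Cx Z where
  ok M x := x ∈ M
  co x _ := x
  mk' _ v := v 0
  mp _ j := j
  mk_co _ _ _ := rfl
  ok_mk _ _ h := h 0
  co_mem _ _ _ h _ := h
  ut _ := .var 0
  mp_eq _ _ _ _ _ _ _ _ := rfl

instance : Cx S where
  ok M x := x = M
  co _ _ := ∅
  mk' M _ := M
  mp Q _ _ := Q
  mk_co _ _ h := h.symm
  ok_mk _ _ _ := rfl
  co_mem _ _ m _ _ := m.empty
  ut _ := .empty
  mp_eq _ _ _ _ _ _ _ _ := rfl

theorem ud_tv : UD ZF0 fun _ v => ∅ ∈ v 0 := (UD.mem 0 1).subst .empty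

noncomputable instance : Cx Prop where
  ok _ _ := True
  co p _ := tv p
  mk' _ v := ∅ ∈ v 0
  mp _ _ p := p
  mk_co _ _ _ := by simp [mem_tv]
  ok_mk _ _ _ := trivial
  co_mem M p m _ _ := m.tv p
  ut _ := .tv ud_tv
  mp_eq M Q j p m q h _ :=
    propext ((h.ud m q ud_tv (v := fun _ => tv p) fun _ => m.tv p).symm.trans (by simp [mem_tv]))

variable {α : Type u} {β : Type v} {γ : Type w} [Cx α] [Cx β] [Cx γ]

instance : Cx (α × β) where
  ok M p := ok M p.1 ∧ ok M p.2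
  co p i := if i % 2 = 0 then co p.1 (i / 2) else co p.2 (i / 2)
  mk' M v := (mk' M fun i => v (2 * i), mk' M fun i => v (2 * i + 1))
  mp Q j p := (mp Q j p.1, mp Q j p.2)
  mk_co M p h := Prod.ext
    ((congrArg _ (funext fun i => by simp)).trans (mk_co M _ h.1))
    ((congrArg _ (funext fun i => by simp [show (2 * i + 1) / 2 = i by omega])).trans
      (mk_co M _ h.2))
  ok_mk M _ h := ⟨ok_mk M _ fun _ => h _, ok_mk M _ fun _ => h _⟩
  co_mem M p m h i := by
    dsimp only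
    split_ifs
    exacts [co_mem M _ m h.1 _, co_mem M _ m h.2 _]
  ut i := by
    dsimp only
    split_ifs
    exacts [(ut _).rename (2 * ·), (ut _).rename (2 * · + 1)]
  mp_eq M Q j p m q h e := Prod.ext
    ((congrArg _ (funext fun i => by simp)).trans (mp_eq M Q j _ m q h e.1))
    ((congrArg _ (funext fun i => by simp [show (2 * i + 1) / 2 = i by omega])).trans
      (mp_eq M Q j _ m q h e.2))

/-- `f` is definable by the same formulas in all models. -/
@[fun_prop] def U {α : Type u} {β : Type v} [Cx α] [Cx β] (f : α → β) : Prop :=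
  (∀ M x, ZF0 M → ok M x → ok M (f x)) ∧ ∀ i, UT fun M v => co (f (mk' M v)) i

/-- Definable constants. -/
class Cst {β : Type v} [Cx β] (c : β) : Prop where
  ok : ∀ M, ZF0 M → ok M c
  ut : ∀ i, UT fun _ _ => co c i

instance : Cst (∅ : Z) := ⟨fun _ m => m.empty, fun _ => .empty⟩

instance (p : Prop) : Cst p := ⟨fun _ _ => trivial, fun _ => .tv (by
  by_cases h : p
  · exact (UD.eq 0 0).congr (by simp [h])
  · exact (UD.eq 0 0).not.congr (by simp [h]))⟩

namespace U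

@[fun_prop] theorem id' : U fun x : α => x := ⟨fun _ _ _ h => h, ut⟩

@[fun_prop] theorem const (c : β) [h : Cst c] : U fun _ : α => c := ⟨fun M _ m _ => h.ok M m, h.ut⟩

@[fun_prop] theorem comp {f : β → γ} {g : α → β} (hf : U f) (hg : U g) : U fun x => f (g x) :=
  ⟨fun M x m h => hf.1 M _ m (hg.1 M x m h), fun i => ((hf.2 i).substAll hg.2).congr
    fun M m v hv => by rw [mk_co M _ (hg.1 M _ m (ok_mk M v hv))]⟩

@[fun_prop] theorem prodMk {f : α → β} {g : α → γ} (hf : U f) (hg : U g) :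
    U fun x => (f x, g x) :=
  ⟨fun M x m h => ⟨hf.1 M x m h, hg.1 M x m h⟩, fun i => by
    show UT fun M v => if i % 2 = 0 then _ else _
    split_ifs
    exacts [hf.2 _, hg.2 _]⟩

@[fun_prop] theorem fst {f : α → β × γ} (hf : U f) : U fun x => (f x).1 :=
  ⟨fun M x m h => (hf.1 M x m h).1, fun i => (hf.2 (2 * i)).congr fun M _ v _ => by
    show (if _ then _ else _) = _
    simp⟩

@[fun_prop] theorem snd {f : α → β × γ} (hf : U f) : U fun x => (f x).2 :=
  ⟨fun M x m h => (hf.1 M x m h).2, fun i => (hf.2 (2 * i + 1)).congr fun M _ v _ => by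
    show (if _ then _ else _) = _
    simp [show (2 * i + 1) / 2 = i by omega]⟩

theorem congr {f g : α → β} (h : U f) (e : ∀ M x, ZF0 M → ok M x → f x = g x) : U g :=
  ⟨fun M x m o => e M x m o ▸ h.1 M x m o, fun i => (h.2 i).congr fun M m v hv => by
    rw [e M _ m (ok_mk M v hv)]⟩

variable {p q : α → Prop} {s t : α → Z} {m : α → S}

theorem of_iff (h : U p) (e : ∀ M x, ZF0 M → ok M x → (p x ↔ q x)) : U q :=
  h.congr fun M x m o => propext (e M x m o)

theorem ud (h : U p) : UD ZF0 fun M v => p (mk' M v) :=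
  (ud_tv.subst (h.2 0)).congr fun _ _ _ _ => mem_tv.trans (by simp)

theorem of_ud (h : UD ZF0 fun M v => p (mk' M v)) : U p := ⟨fun _ _ _ _ => trivial, fun _ => .tv h⟩

theorem mem_of (h : U t) {M : S} (m : ZF0 M) (x : α) (o : ok M x) : t x ∈ M := h.1 M x m o

theorem es (φ : Fml) {s : ℕ → α → Z} (hs : ∀ k, U (s k)) (hm : U m) :
    U fun x => ES (m x) φ fun k => s k x :=
  of_ud ((UD.es_all φ _ fun k => (hs k).2 0).congr fun M z v hv => by
    rw [show m (mk' M v) = M from hm.1 M _ z (ok_mk M v hv)]; rfl)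

@[fun_prop] theorem mem (hs : U s) (ht : U t) : U fun x => s x ∈ t x :=
  of_ud (((UD.mem 0 1).subst ((hs.2 0).rename (· + 1))).subst (ht.2 0))

@[fun_prop] theorem eq (hs : U s) (ht : U t) : U fun x => s x = t x :=
  of_ud (((UD.eq 0 1).subst ((hs.2 0).rename (· + 1))).subst (ht.2 0))

@[fun_prop] theorem memS (hs : U s) (hm : U m) : U fun x => s x ∈ m x :=
  (const True).of_iff fun M x z o => by
    rw [show m x = M from hm.1 M _ z o]; exact iff_of_true trivial (hs.1 M x z o)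

@[fun_prop] theorem not (hp : U p) : U fun x => ¬ p x := of_ud hp.ud.not

@[fun_prop] theorem and (hp : U p) (hq : U q) : U fun x => p x ∧ q x := of_ud (hp.ud.and hq.ud)

@[fun_prop] theorem or (hp : U p) (hq : U q) : U fun x => p x ∨ q x := of_ud (hp.ud.or hq.ud)

@[fun_prop] theorem imp' (hp : U p) (hq : U q) : U fun x => p x → q x := of_ud (hp.ud.imp' hq.ud)

@[fun_prop] theorem iff (hp : U p) (hq : U q) : U fun x => p x ↔ q x := of_ud (hp.ud.iff hq.ud)

@[fun_prop] theorem ne (hs : U s) (ht : U t) : U fun x => s x ≠ t x := (hs.eq ht).not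

variable {R : α → Z → Prop}

theorem ud2 (h : U fun p : α × Z => R p.1 p.2) : UD ZF0 fun M w => R (mk' M (tl w)) (w 0) :=
  (h.ud.rename fun i => if i % 2 = 0 then i / 2 + 1 else 0).congr fun M _ v _ => by
    show R (mk' M _) (v _) ↔ _
    simp

/-- Existence in an unnamed model. -/
theorem ex0 (h : U fun p : α × Z => R p.1 p.2) (e : ∀ M x, ZF0 M → ok M x →
    ((∃ y ∈ M, R x y) ↔ q x)) : U q :=
  of_ud (h.ud2.ex'.congr fun M z v hv => e M _ z (ok_mk M v hv))

@[fun_prop] theorem ex (hm : U m) (h : U fun p : α × Z => R p.1 p.2) :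
    U fun x => ∃ y ∈ m x, R x y :=
  h.ex0 fun M x z o => by rw [show m x = M from hm.1 M _ z o]

@[fun_prop] theorem all (hm : U m) (h : U fun p : α × Z => R p.1 p.2) :
    U fun x => ∀ y ∈ m x, R x y :=
  (ex (R := fun x y => ¬ R x y) hm h.not).not.of_iff fun _ _ _ _ => by simp

@[fun_prop] theorem bex (ht : U t) (h : U fun p : α × Z => R p.1 p.2) :
    U fun x => ∃ y ∈ t x, R x y :=
  ex0 (R := fun x y => y ∈ t x ∧ R x y) (by fun_prop) fun M x z o =>
    ⟨fun ⟨y, _, h⟩ => ⟨y, h⟩, fun ⟨y, h⟩ => ⟨y, z.trans _ (ht.1 M x z o) _ h.1, h⟩⟩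

@[fun_prop] theorem ball (ht : U t) (h : U fun p : α × Z => R p.1 p.2) :
    U fun x => ∀ y ∈ t x, R x y :=
  (bex (R := fun x y => ¬ R x y) ht h.not).not.of_iff fun _ _ _ _ => by simp

@[fun_prop] theorem subset (hs : U s) (ht : U t) : U fun x => s x ⊆ t x :=
  ball (R := fun x y => y ∈ t x) hs (by fun_prop)

/-- An operation given by its elements. -/
theorem ofMem (h : U fun p : α × Z => R p.1 p.2) (hM : ∀ M x, ZF0 M → ok M x → t x ∈ M)
    (e : ∀ M x, ZF0 M → ok M x → ∀ y ∈ M, y ∈ t x ↔ R x y) : U t := by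
  refine ⟨hM, fun _ => ⟨fun M z v hv => hM M _ z (ok_mk M v hv), ((UD.mem 0 1).iff
    (h.ud2.rename fun i => match i with | 0 => 0 | i + 1 => i + 2)).all'.congr
      fun M z v hv => ?_⟩⟩
  have o := ok_mk (α := α) M _ hv.tl
  refine ⟨fun H => ZFSet.ext fun y => ⟨fun hy => ?_, fun hy => ?_⟩, fun H y hy => ?_⟩
  · exact (e M _ z o y (z.trans _ (hv 0) _ hy)).2 ((H y (z.trans _ (hv 0) _ hy)).1 hy)
  · have := z.trans _ (hM M _ z o) _ hy
    exact (H y this).2 ((e M _ z o y this).1 hy)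
  · exact ((show v 0 = t _ from H) ▸ e M _ z o y hy : y ∈ v 0 ↔ _)

end U

section Use

variable {M Q : S} {j : Z → Z} {R : α → Z → Prop}

theorem ZF0.sepU (m : ZF0 M) (h : U fun p : α × Z => R p.1 p.2) (x : α) (o : ok M x) {a : Z}
    (ha : a ∈ M) : ZFSet.sep (R x) a ∈ M := by
  obtain ⟨φ, e⟩ := h.ud2
  have hv := co_mem M x m o
  convert m.sep φ _ hv a ha using 1
  ext y
  simp only [mem_sep]
  refine and_congr_right fun hy => ?_
  rw [e M m _ (hv.cons (m.trans _ ha _ hy))]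
  show _ ↔ R (mk' M (co x)) y
  rw [mk_co M x o]

theorem ZF0.collU (m : ZF0 M) {R : α → Z → Z → Prop}
    (h : U fun p : α × Z × Z => R p.1 p.2.1 p.2.2) (x : α) (o : ok M x) {a : Z} (ha : a ∈ M)
    (H : ∀ y ∈ a, ∃ z ∈ M, R x y z) : ∃ b ∈ M, ∀ y ∈ a, ∃ z ∈ b, R x y z := by
  obtain ⟨φ, e⟩ := (U.ud2 (R := fun (p : α × Z) z => R p.1 p.2 z) (by fun_prop)).rename
    fun i => if i = 0 then 0 else if i % 2 = 0 then 1 else i / 2 + 2
  have hv := co_mem M x m o
  have k : ∀ y ∈ M, ∀ z ∈ M, ES M φ (cons z (cons y (co x))) ↔ R x y z := fun y hy z hz => by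
    rw [e M m _ ((hv.cons hy).cons hz)]
    have : (fun i : ℕ => cons z (cons y (co x)) (if 2 * i + 1 = 0 then 0 else
        if (2 * i + 1) % 2 = 0 then 1 else (2 * i + 1) / 2 + 2)) = co x := funext fun i => by
      simp [show (2 * i + 1) / 2 = i by omega]
    exact iff_of_eq (congrArg (fun w => R w y z) ((congrArg _ this).trans (mk_co M x o)))
  obtain ⟨b, hb, h1⟩ := m.coll φ _ hv a ha fun y hy => (H y hy).imp fun z hz =>
    ⟨hz.1, (k y (m.trans _ ha _ hy) z hz.1).2 hz.2⟩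
  exact ⟨b, hb, fun y hy => (h1 y hy).imp fun z hz =>
    ⟨hz.1, (k y (m.trans _ ha _ hy) z (m.trans _ hb _ hz.1)).1 hz.2⟩⟩

theorem Elem.iffU (h : Elem M Q j) (m : ZF0 M) (q : ZF0 Q) (p : α → Prop) (x : α) (hp : U p)
    (o : ok M x) : p x ↔ p (mp Q j x) := by
  have := h.ud m q hp.ud (co_mem M x m o)
  rwa [mk_co M x o, mp_eq M Q j x m q h o] at this

theorem Elem.tmU (h : Elem M Q j) (m : ZF0 M) (q : ZF0 Q) (t : α → Z) (x : α) (ht : U t)
    (o : ok M x) : j (t x) = t (mp Q j x) :=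
  (h.iffU m q (fun p : α × Z => p.2 = t p.1) (x, t x) (by fun_prop)
    (And.intro o (ht.1 M x m o))).1 rfl

theorem Elem.allU (h : Elem M Q j) (m : ZF0 M) (q : ZF0 Q) (p : α → Prop) (y : α) (hp : U p)
    (H : ∀ x, ok M x → p x) (o : ok Q y) : p y := by
  have := h.all m.empty m q hp.ud (fun v hv => H _ (ok_mk M v hv)) _ (co_mem Q y q o)
  rwa [mk_co Q y o] at this

end Use

end Pool.Agent.Lib.MP_5c0be7_lc
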