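import Pool.Agent.Lib.MP_5c0be7_lc.U1

/-!
Uniformly definable operations, choice, recursion, transitive closure and the rank hierarchy in
a model.
-/

namespace Pool.Agent.Lib.MP_5c0be7_lc

open ZFSet Cx
open Pool.Agent.Shared.LDefs (img mem_img bun mem_bun fst snd app gr app_gr gr_congr fst_pair
  snd_pair app_eq)

universe u

variable {α : Type u} [Cx α]

/-- The power set in `M`. -/
def pow (M : S) (a : Z) : Z := a.powerset.sep (· ∈ M)

theorem mem_pow {M : S} {a x : Z} : x ∈ pow M a ↔ x ⊆ a ∧ x ∈ M := by simp [pow]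

theorem mem_gr {F : Z → Z} {a z : Z} : z ∈ gr F a ↔ ∃ y ∈ a, z = pair y (F y) := by
  simp [gr, eq_comm]

namespace U

variable {s t : α → Z} {m : α → S} {R : α → Z → Prop} {F : α → Z → Z}

@[fun_prop] theorem sep (ht : U t) (h : U fun p : α × Z => R p.1 p.2) :
    U fun x => ZFSet.sep (fun y => R x y) (t x) :=
  ofMem (R := fun x y => y ∈ t x ∧ R x y) (by fun_prop)
    (fun M x z o => z.sepU h x o (ht.1 M x z o)) fun _ _ _ _ _ _ => mem_sep

@[fun_prop] theorem sUnion (ht : U t) : U fun x => ZFSet.sUnion (t x) :=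
  ofMem (R := fun x y => ∃ z ∈ t x, y ∈ z) (by fun_prop)
    (fun M x z o => z.union _ (ht.1 M x z o)) fun _ _ _ _ _ _ => mem_sUnion

@[fun_prop] theorem sing (ht : U t) : U fun x => ({t x} : Z) :=
  ofMem (R := fun x y => y = t x) (by fun_prop)
    (fun M x z o => by simpa using z.pair _ (ht.1 M x z o) _ (ht.1 M x z o))
    fun _ _ _ _ _ _ => mem_singleton

@[fun_prop] theorem union (hs : U s) (ht : U t) : U fun x => s x ∪ t x :=
  ofMem (R := fun x y => y ∈ s x ∨ y ∈ t x) (by fun_prop)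
    (fun M x z o => z.union _ (z.pair _ (hs.1 M x z o) _ (ht.1 M x z o)))
    fun _ _ _ _ _ _ => mem_union

@[fun_prop] theorem insert (hs : U s) (ht : U t) : U fun x => insert (s x) (t x) :=
  (hs.sing.union ht).congr fun _ _ _ _ => by ext; simp

@[fun_prop] theorem pair (hs : U s) (ht : U t) : U fun x => ZFSet.pair (s x) (t x) := by
  unfold ZFSet.pair; fun_prop

@[fun_prop] theorem inter (hs : U s) (ht : U t) : U fun x => s x ∩ t x :=
  sep (R := fun x y => y ∈ t x) hs (by fun_prop)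

@[fun_prop] theorem diff (hs : U s) (ht : U t) : U fun x => s x \ t x :=
  sep (R := fun x y => y ∉ t x) hs (by fun_prop)

@[fun_prop] theorem pow (hm : U m) (ht : U t) : U fun x => pow (m x) (t x) :=
  ofMem (R := fun x y => y ⊆ t x) (by fun_prop) (fun M x z o => by
    obtain ⟨b, hb, h⟩ := z.power _ (ht.1 M x z o)
    rw [show m x = M from hm.1 M x z o]
    exact z.trans.ext hb (fun _ h => (mem_pow.1 h).2) (fun y hy => (h y hy).trans
      (and_iff_left hy).symm) fun _ => mem_pow) fun M x z o y hy => by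
    rw [show m x = M from hm.1 M x z o, mem_pow, and_iff_left hy]

@[fun_prop] theorem img (ht : U t) (h : U fun p : α × Z => F p.1 p.2) :
    U fun x => img (fun y => F x y) (t x) :=
  ofMem (R := fun x z => ∃ y ∈ t x, F x y = z) (by fun_prop) (fun M x z o => by
    have h1 := ht.1 M x z o
    obtain ⟨b, hb, e⟩ := z.collU (R := fun x y w => F x y = w) (by fun_prop) x o h1 fun y hy =>
      ⟨_, h.1 M (x, y) z ⟨o, z.trans _ h1 _ hy⟩, rfl⟩
    convert z.sepU (R := fun x z => ∃ y ∈ t x, F x y = z) (by fun_prop) x o hb using 1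
    ext w
    rw [mem_img, mem_sep, iff_and_self]
    rintro ⟨y, hy, rfl⟩
    obtain ⟨_, c, rfl⟩ := e y hy
    exact c) fun _ _ _ _ _ _ => mem_img

@[fun_prop] theorem bun (ht : U t) (h : U fun p : α × Z => F p.1 p.2) :
    U fun x => bun (t x) fun y => F x y := (ht.img h).sUnion

@[fun_prop] theorem gr (ht : U t) (h : U fun p : α × Z => F p.1 p.2) :
    U fun x => gr (fun y => F x y) (t x) :=
  img (F := fun x y => ZFSet.pair y (F x y)) ht (by fun_prop)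

@[fun_prop] theorem fstZ (ht : U t) : U fun x => Shared.LDefs.fst (t x) := by
  unfold Shared.LDefs.fst; fun_prop

@[fun_prop] theorem sndZ (ht : U t) : U fun x => Shared.LDefs.snd (t x) := by
  unfold Shared.LDefs.snd; fun_prop

@[fun_prop] theorem app (hs : U s) (ht : U t) : U fun x => app (s x) (t x) := by
  unfold Shared.LDefs.app; fun_prop

@[fun_prop] theorem prod (hs : U s) (ht : U t) : U fun x => prod (s x) (t x) :=
  (bun (F := fun x a => Shared.LDefs.img (fun b => ZFSet.pair a b) (t x)) hs (by fun_prop)).congr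
    fun _ _ _ _ => by ext; simp [eq_comm]

@[fun_prop] theorem isTransitive (ht : U t) : U fun x => (t x).IsTransitive := by
  show U fun x => ∀ y ∈ t x, y ⊆ t x
  fun_prop

@[fun_prop] theorem isOrdinal (ht : U t) : U fun x => (t x).IsOrdinal :=
  of_iff (p := fun x => (t x).IsTransitive ∧ ∀ y ∈ t x, y.IsTransitive) (by fun_prop)
    fun _ _ _ _ => isOrdinal_iff_forall_mem_isTransitive.symm

end U

variable {M Q : S} {j : Z → Z}

/-- Closure under a definable operation; use with an explicit tuple of parameters. -/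
theorem ZF0.tm (m : ZF0 M) (t : α → Z) (x : α) (ht : U t) (o : ok M x) : t x ∈ M := ht.1 M x m o

theorem ZF0.app (m : ZF0 M) {f a : Z} (hf : f ∈ M) (ha : a ∈ M) : app f a ∈ M :=
  m.tm (fun p : Z × Z => Shared.LDefs.app p.1 p.2) (f, a) (by fun_prop) ⟨hf, ha⟩

theorem ZF0.opair (m : ZF0 M) {f a : Z} (hf : f ∈ M) (ha : a ∈ M) : ZFSet.pair f a ∈ M :=
  m.tm (fun p : Z × Z => ZFSet.pair p.1 p.2) (f, a) (by fun_prop) ⟨hf, ha⟩

theorem ZF0.prod (m : ZF0 M) {f a : Z} (hf : f ∈ M) (ha : a ∈ M) : prod f a ∈ M :=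
  m.tm (fun p : Z × Z => ZFSet.prod p.1 p.2) (f, a) (by fun_prop) ⟨hf, ha⟩

theorem ZF0.pow (m : ZF0 M) {a : Z} (ha : a ∈ M) : pow M a ∈ M :=
  m.tm (fun p : S × Z => MP_5c0be7_lc.pow p.1 p.2) (M, a) (by fun_prop) ⟨rfl, ha⟩

theorem ZF0.insert (m : ZF0 M) {f a : Z} (hf : f ∈ M) (ha : a ∈ M) : insert f a ∈ M :=
  m.tm (fun p : Z × Z => Insert.insert p.1 p.2) (f, a) (by fun_prop) ⟨hf, ha⟩

theorem ZF0.grapp (m : ZF0 M) {f a : Z} (hf : f ∈ M) (ha : a ∈ M) :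
    gr (Shared.LDefs.app f) a ∈ M :=
  m.tm (fun p : Z × Z => gr (fun y => Shared.LDefs.app p.1 y) p.2) (f, a) (by fun_prop) ⟨hf, ha⟩

theorem funIn_iff {a : Z} {f : Z → Z} : FunIn M {x | x ∈ a} f ↔ gr f a ∈ M :=
  ⟨fun ⟨g, hg, h⟩ => by rwa [show gr f a = g from ZFSet.ext fun z => mem_gr.trans (h z).symm],
    fun h => ⟨_, h, fun _ => mem_gr⟩⟩

/-- The axiom of choice in `M`. -/
def AC (M : S) : Prop := ∀ a ∈ M, ∃ f ∈ M, ∀ x ∈ a, x ≠ ∅ → app f x ∈ x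

theorem Elem.ac (h : Elem M Q j) (m : ZF0 M) (q : ZF0 Q) (c : AC M) : AC Q := fun a ha =>
  h.allU m q (fun p : S × Z => ∃ f ∈ p.1, ∀ x ∈ p.2, x ≠ ∅ → app f x ∈ x) (Q, a) (by fun_prop)
    (by rintro ⟨_, a⟩ ⟨rfl, h⟩; exact c a h) ⟨rfl, ha⟩

theorem ZF0.choice (m : ZF0 M) (c : AC M) {R : α → Z → Z → Prop}
    (h : U fun p : α × Z × Z => R p.1 p.2.1 p.2.2) (x : α) (o : ok M x) {a : Z} (ha : a ∈ M)
    (H : ∀ y ∈ a, ∃ z ∈ M, R x y z) : ∃ f ∈ M, ∀ y ∈ a, R x y (Shared.LDefs.app f y) := by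
  obtain ⟨b, hb, e⟩ := m.collU h x o ha H
  obtain ⟨f, hf, e'⟩ := c _ (m.tm (fun p : α × Z × Z => img (fun y => ZFSet.sep
    (fun z => R p.1 y z) p.2.2) p.2.1) (x, a, b) (by fun_prop) ⟨o, ha, hb⟩)
  refine ⟨_, m.tm (fun p : α × Z × Z × Z => gr (fun y => Shared.LDefs.app p.2.2.2 (ZFSet.sep
    (fun z => R p.1 y z) p.2.2.1)) p.2.1) (x, a, b, f) (by fun_prop) ⟨o, ha, hb, hf⟩,
    fun y hy => ?_⟩
  rw [app_gr hy]
  obtain ⟨z, h1, h2⟩ := e y hy
  exact (mem_sep.1 (e' _ (mem_img.2 ⟨y, hy, rfl⟩) fun c =>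
    notMem_empty z (c ▸ mem_sep.2 ⟨h1, h2⟩))).2

/-- Recursion along a relation that is well-founded in `M`; `pr x b` is the set of predecessors
of `b`. -/
theorem ZF0.recur (m : ZF0 M) {pr : α → Z → Z} {G : α → Z → Z → Z}
    (hp : U fun p : α × Z => pr p.1 p.2) (hG : U fun p : α × Z × Z => G p.1 p.2.1 p.2.2)
    (x : α) (o : ok M x) {D : Z} (hD : D ∈ M) (sub : ∀ b ∈ D, pr x b ⊆ D)
    (wf : ∀ s ∈ M, s ⊆ D → ∀ a ∈ s, ∃ a ∈ s, ∀ c ∈ pr x a, c ∉ s) :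
    ∃ h ∈ M, ∀ b ∈ D, Shared.LDefs.app h b = G x b (gr (Shared.LDefs.app h) (pr x b)) := by
  let Ap : α × Z → Z → Prop := fun x z => snd z ⊆ x.2 ∧ ∀ b ∈ snd z, pr x.1 b ⊆ snd z ∧
    Shared.LDefs.app (fst z) b = G x.1 b (gr (fun c => Shared.LDefs.app (fst z) c) (pr x.1 b))
  have hA : U fun p : (α × Z) × Z => Ap p.1 p.2 := by simp only [Ap]; fun_prop
  have uniq : ∀ z ∈ M, ∀ w ∈ M, Ap (x, D) z → Ap (x, D) w → ∀ b ∈ snd z, b ∈ snd w →
      Shared.LDefs.app (fst z) b = Shared.LDefs.app (fst w) b := fun z hz w hw h1 h2 b b1 b2 => by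
    by_contra e
    obtain ⟨a, ha, h3⟩ := wf _ (m.tm (fun p : Z × Z => ZFSet.sep (fun b => b ∈ snd p.2 ∧
      Shared.LDefs.app (fst p.1) b ≠ Shared.LDefs.app (fst p.2) b) (snd p.1)) (z, w) (by fun_prop)
      ⟨hz, hw⟩) (fun y hy => h1.1 (mem_sep.1 hy).1) b (mem_sep.2 ⟨b1, b2, e⟩)
    obtain ⟨a1, a2, a3⟩ := mem_sep.1 ha
    refine a3 ((h1.2 a a1).2.trans (((h2.2 a a2).2.trans (congrArg _ (gr_congr fun c hc => ?_))).symm))
    by_contra e
    exact h3 c hc (mem_sep.2 ⟨(h1.2 a a1).1 hc, (h2.2 a a2).1 hc, fun e' => e e'.symm⟩)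
  have glue : ∀ a ∈ M, (∀ b ∈ a, ∃ z ∈ M, Ap (x, D) z ∧ b ∈ snd z) →
      ∃ z ∈ M, Ap (x, D) z ∧ a ⊆ snd z := fun a ha h => by
    obtain ⟨H0, h0, e0⟩ := m.collU (R := fun x b z => Ap x z ∧ b ∈ snd z) (by fun_prop) (x, D)
      (And.intro o hD) ha h
    have hH := m.sepU hA (x, D) (And.intro o hD) h0
    set H := ZFSet.sep (Ap (x, D)) H0
    let f := gr (fun b => bun (ZFSet.sep (fun z => b ∈ snd z) H) fun z =>
      Shared.LDefs.app (fst z) b) (bun H fun z => snd z)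
    have key : ∀ z ∈ H, ∀ b ∈ snd z, Shared.LDefs.app f b = Shared.LDefs.app (fst z) b :=
      fun z hz b hb => by
        rw [app_gr (mem_bun.2 ⟨z, hz, hb⟩)]
        ext y
        rw [mem_bun]
        refine ⟨fun ⟨w, hw, e⟩ => ?_, fun e => ⟨z, mem_sep.2 ⟨hz, hb⟩, e⟩⟩
        rwa [uniq z (m.trans _ hH _ hz) w (m.trans _ hH _ (mem_sep.1 hw).1) (mem_sep.1 hz).2
          (mem_sep.1 (mem_sep.1 hw).1).2 b hb (mem_sep.1 hw).2]
    refine ⟨_, m.tm (fun H : Z => ZFSet.pair (gr (fun b => bun (ZFSet.sep (fun z => b ∈ snd z) H)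
      fun z => Shared.LDefs.app (fst z) b) (bun H fun z => snd z)) (bun H fun z => snd z)) H
      (by fun_prop) hH, ?_, ?_⟩
    · simp only [Ap, fst_pair, snd_pair]
      refine ⟨fun b hb => let ⟨z, hz, hb⟩ := mem_bun.1 hb; (mem_sep.1 hz).2.1 hb, fun b hb => ?_⟩
      obtain ⟨z, hz, hb⟩ := mem_bun.1 hb
      obtain ⟨h1, h2⟩ := (mem_sep.1 hz).2.2 b hb
      exact ⟨fun c hc => mem_bun.2 ⟨z, hz, h1 hc⟩, (key z hz b hb).trans
        (h2.trans (congrArg _ (gr_congr fun c hc => (key z hz c (h1 hc)).symm)))⟩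
    · intro b hb
      obtain ⟨z, h1, h2, h3⟩ := e0 b hb
      rw [snd_pair]
      exact mem_bun.2 ⟨z, mem_sep.2 ⟨h1, h2⟩, h3⟩
  obtain ⟨z, hz, h1, h2⟩ := glue D hD fun b hb => by
    by_contra e
    obtain ⟨a, ha, h3⟩ := wf _ (m.tm (fun p : S × α × Z => ZFSet.sep (fun b => ¬ ∃ z ∈ p.1,
      Ap p.2 z ∧ b ∈ snd z) p.2.2) (M, x, D) (by fun_prop) ⟨rfl, o, hD⟩)
      (fun y hy => (mem_sep.1 hy).1) b (mem_sep.2 ⟨hb, e⟩)
    obtain ⟨a1, a2⟩ := mem_sep.1 ha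
    have aM := m.trans _ hD _ a1
    obtain ⟨z, hz, h1, h2⟩ := glue _ (hp.1 M (x, a) m ⟨o, aM⟩) fun c hc => by
      by_contra e
      exact h3 c hc (mem_sep.2 ⟨sub a a1 hc, e⟩)
    refine a2 ⟨_, m.tm (fun p : α × Z × Z => ZFSet.pair (gr (fun b => G p.1 b (gr (fun c =>
      Shared.LDefs.app (fst p.2.2) c) (pr p.1 b))) (Insert.insert p.2.1 (snd p.2.2)))
      (Insert.insert p.2.1 (snd p.2.2))) (x, a, z) (by fun_prop) ⟨o, aM, hz⟩, ?_, by simp⟩
    simp only [Ap, fst_pair, snd_pair]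
    have h4 : ∀ b ∈ Insert.insert a (snd z), pr x b ⊆ snd z := fun b hb =>
      (mem_insert_iff.1 hb).elim (fun e => e ▸ h2) fun e => (h1.2 b e).1
    refine ⟨fun b hb => (mem_insert_iff.1 hb).elim (fun e => e ▸ a1) fun e => h1.1 e,
      fun b hb => ⟨fun c hc => mem_insert_of_mem _ (h4 b hb hc), ?_⟩⟩
    rw [app_gr hb]
    exact congrArg _ (gr_congr fun c hc => by
      rw [app_gr (mem_insert_of_mem _ (h4 b hb hc))]; exact (h1.2 c (h4 b hb hc)).2)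
  exact ⟨_, m.tm (fun z : Z => fst z) z (by fun_prop) hz, fun b hb => (h1.2 b (h2 hb)).2⟩

theorem mem_min {s a : Z} (h : a ∈ s) : ∃ a ∈ s, ∀ c ∈ a, c ∉ s :=
  let ⟨a, h1, h2⟩ := mem_wf.has_min {x | x ∈ s} ⟨a, h⟩; ⟨a, h1, fun c hc e => h2 c e hc⟩

theorem ZF0.tc (m : ZF0 M) {a : Z} (ha : a ∈ M) : ∃ T ∈ M, T.IsTransitive ∧ a ⊆ T := by
  induction a using ZFSet.inductionOn with
  | h a ih =>
    obtain ⟨b, hb, e⟩ := m.collU (R := fun (_ : Z) y T => T.IsTransitive ∧ y ⊆ T) (by fun_prop) a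
      ha ha fun y hy => ih y hy (m.trans _ ha _ hy)
    refine ⟨_, m.tm (fun p : Z × Z => p.1 ∪ ZFSet.sUnion (ZFSet.sep (fun T => T.IsTransitive) p.2))
      (a, b) (by fun_prop) ⟨ha, hb⟩, fun y hy z hz => mem_union.2 (Or.inr ?_),
      fun y hy => mem_union.2 (Or.inl hy)⟩
    rcases mem_union.1 hy with c | c
    · obtain ⟨T, h1, h2, h3⟩ := e y c
      exact mem_sUnion.2 ⟨T, mem_sep.2 ⟨h1, h2⟩, h3 hz⟩
    · obtain ⟨T, h1, h2⟩ := mem_sUnion.1 c
      exact mem_sUnion.2 ⟨T, h1, (mem_sep.1 h1).2 y h2 hz⟩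

/-- `h` lists the rank hierarchy of `M` on `t`. -/
def VH (M : S) (h t : Z) : Prop := ∀ b ∈ t, app h b = bun b fun a => pow M (app h a)

theorem ZF0.exists_VH (m : ZF0 M) {t : Z} (ht : t ∈ M) (tt : t.IsTransitive) :
    ∃ h ∈ M, VH M h t := by
  obtain ⟨h, hh, e⟩ := m.recur (pr := fun (_ : S) b => b) (G := fun M b g => bun b fun a =>
    MP_5c0be7_lc.pow M (Shared.LDefs.app g a)) (by fun_prop) (by fun_prop) M rfl ht tt
    fun s _ _ a => mem_min
  refine ⟨h, hh, fun b hb => (e b hb).trans (ZFSet.ext fun y => ?_)⟩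
  simp only [mem_bun]
  exact exists_congr fun a => and_congr_right fun ha => by rw [app_gr ha]

theorem VH.mem (t : Tr M) {h T : Z} (H : VH M h T) (tt : T.IsOrdinal) (b : Z) : b ∈ T →
    ∀ x, x ∈ app h b ↔ x ∈ M ∧ x.rank < b.rank := by
  induction b using ZFSet.inductionOn with
  | h b ih =>
    intro hb x
    rw [H b hb, mem_bun]
    constructor
    · rintro ⟨a, ha, hx⟩
      refine ⟨(mem_pow.1 hx).2, (rank_le_iff.2 fun y hy => ?_).trans_lt (rank_lt_of_mem ha)⟩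
      exact ((ih a ha (tt.mem_trans ha hb) y).1 ((mem_pow.1 hx).1 hy)).2
    · rintro ⟨h1, h2⟩
      have ha : x.rank.toZFSet ∈ b := by
        rwa [← (tt.mem hb).toZFSet_rank_eq, Ordinal.toZFSet_mem_toZFSet_iff]
      refine ⟨_, ha, mem_pow.2 ⟨fun y hy => (ih _ ha (tt.mem_trans ha hb) y).2
        ⟨t _ h1 _ hy, ?_⟩, h1⟩⟩
      simpa using rank_lt_of_mem hy

/-- The image of a rank initial segment under an elementary map. -/
theorem Elem.V (h : Elem M Q j) (m : ZF0 M) (q : ZF0 Q) {t : Z} (ht : t ∈ M) (tt : t.IsOrdinal) :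
    ∃ a ∈ M, (∀ x, x ∈ a ↔ x ∈ M ∧ x.rank < t.rank) ∧
      ∀ x, x ∈ j a ↔ x ∈ Q ∧ x.rank < (j t).rank := by
  obtain ⟨g, hg, e⟩ := m.exists_VH (m.insert ht ht) (isOrdinal_succ tt).isTransitive
  refine ⟨_, m.app hg ht, e.mem m.trans (isOrdinal_succ tt) t (mem_insert _ _), ?_⟩
  have e1 := (h.iffU m q (fun p : S × Z × Z => VH p.1 p.2.1 (insert p.2.2 p.2.2)) (M, g, t)
    (by unfold VH; fun_prop) (by exact ⟨rfl, hg, ht⟩)).1 e
  have e2 := (h.iffU m q (fun p : Z => p.IsOrdinal) t (by fun_prop) ht).1 tt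
  rw [h.tmU m q (fun p : Z × Z => app p.1 p.2) (g, t) (by fun_prop) (by exact ⟨hg, ht⟩)]
  exact VH.mem q.trans e1 (isOrdinal_succ e2) _ (mem_insert _ _)

end Pool.Agent.Lib.MP_5c0be7_lc
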