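import Pool.Agent.Lib.MP_5c0be7_lc.U2

/-!
The ultrapower of a model by a normal measure in the model.
-/

namespace Pool.Agent.Lib.MP_5c0be7_lc

open ZFSet Cx Pool.Agent.Lib.MP_053343_lc
open Pool.Agent.Shared.LDefs (E cons tl img mem_img bun mem_bun app gr app_gr gr_congr app_eq
  cases cases_pos cases_neg)

universe u

instance : Cx E.{0} where
  ok := EM
  co v := v
  mk' _ v := v
  mp _ j v i := j (v i)
  mk_co _ _ _ := rfl
  ok_mk _ _ h := h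
  co_mem _ _ _ h := h
  ut := UT.var
  mp_eq _ _ _ _ _ _ _ _ := rfl

theorem U.ev {α : Type u} [Cx α] {f : α → E.{0}} (h : U f) (k : ℕ) : U fun x => f x k :=
  ⟨fun M x m o => h.1 M x m o k, fun _ => h.2 k⟩

/-- The formula `φ` holds of the values at a point. -/
theorem U.esApp (φ : Fml) :
    U fun p : (S × E.{0}) × Z => ES p.1.1 φ fun i => Shared.LDefs.app (p.1.2 i) p.2 :=
  U.es φ (fun k => (U.id'.fst.snd.ev k).app U.id'.snd) U.id'.fst.fst

@[fun_prop] theorem U.cases {α : Type u} [Cx α] {p : α → Prop} {s t : α → Z} (hp : U p) (hs : U s)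
    (ht : U t) : U fun x => cases (p x) (s x) (t x) := by
  unfold Shared.LDefs.cases; fun_prop

variable {M : S} {k W : Z}

theorem ZF0.iter (m : ZF0 M) (w : Ordinal.omega0.toZFSet ∈ M) {c g : Z} (hc : c ∈ M)
    (hg : g ∈ M) : ∃ h ∈ M, ∀ n : ℕ,
      Shared.LDefs.app h (n : Ordinal).toZFSet = (Shared.LDefs.app c)^[n] g := by
  obtain ⟨h, hh, e⟩ := m.recur (pr := fun (_ : Z × Z) b => b) (G := fun p b f => cases (b = ∅) p.2
    (Shared.LDefs.app p.1 (Shared.LDefs.app f (ZFSet.sUnion b)))) (by fun_prop) (by fun_prop)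
    (c, g) (by exact ⟨hc, hg⟩) w (isOrdinal_toZFSet _).isTransitive fun s _ _ a => mem_min
  refine ⟨h, hh, fun n => ?_⟩
  have k := fun n : ℕ => e _ (Ordinal.toZFSet_mem_toZFSet_iff.2 (Ordinal.natCast_lt_omega0 n))
  induction n with
  | zero => rw [k, cases_pos (by simp)]; rfl
  | succ n ih =>
    have e1 : ZFSet.sUnion ((n + 1 : ℕ) : Ordinal).toZFSet = (n : Ordinal).toZFSet := by
      ext y
      simp only [Nat.cast_succ, Ordinal.toZFSet_add_one, mem_sUnion, mem_insert_iff]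
      exact ⟨fun ⟨z, h1, h2⟩ => h1.elim (fun e => e ▸ h2) ((isOrdinal_toZFSet _).mem_trans h2),
        fun h => ⟨_, Or.inl rfl, h⟩⟩
    have e2 : (n : Ordinal).toZFSet ∈ ((n + 1 : ℕ) : Ordinal).toZFSet := by simp
    rw [k, cases_neg fun c => notMem_empty _ (c ▸ e2), e1, app_gr e2, ih,
      Function.iterate_succ_apply']

/-- `W` is a normal measure on `k` in `M`, in first-order form. -/
def NZ (M : S) (k W : Z) : Prop :=
  W ∈ M ∧ k.IsOrdinal ∧ (∃ a ∈ k, a ≠ ∅ ∧ ∀ b ∈ a, ∃ c ∈ a, b ∈ c) ∧ (∀ X ∈ W, X ⊆ k) ∧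
  (∀ X ∈ W, ∀ Y ∈ M, X ⊆ Y → Y ⊆ k → Y ∈ W) ∧ (∀ X ∈ M, X ⊆ k → (X ∈ W ↔ k \ X ∉ W)) ∧
  (∀ a ∈ k, ({a} : Z) ∉ W) ∧ (∀ b ∈ k, ∀ g ∈ M, (∀ a ∈ b, app g a ∈ W) →
    ZFSet.sep (fun x => ∀ a ∈ b, x ∈ app g a) k ∈ W) ∧
  ∀ X ∈ W, ∀ g ∈ M, (∀ a ∈ X, app g a ∈ a) → ∃ c ∈ k, ZFSet.sep (fun a => app g a = c) X ∈ W

@[fun_prop] theorem U.nz {α : Type u} [Cx α] {m : α → S} {s t : α → Z} (hm : U m) (hs : U s)
    (ht : U t) : U fun x => NZ (m x) (s x) (t x) := by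
  unfold NZ; fun_prop

theorem limit_iff (h : k.IsOrdinal) :
    (∃ a ∈ k, a ≠ ∅ ∧ ∀ b ∈ a, ∃ c ∈ a, b ∈ c) ↔ Ordinal.omega0.toZFSet ∈ k := by
  constructor
  · rintro ⟨a, h1, h2, h3⟩
    have ha := h.mem h1
    refine (isOrdinal_toZFSet _).mem_of_subset_of_mem h (fun y hy => ?_) h1
    obtain ⟨n, hn, rfl⟩ := Ordinal.mem_toZFSet_iff.1 hy
    obtain ⟨n, rfl⟩ := Ordinal.lt_omega0.1 hn
    clear hn hy
    induction n with
    | zero =>
      obtain ⟨b, hb⟩ := a.eq_empty_or_nonempty.resolve_left h2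
      exact (isOrdinal_toZFSet _).mem_of_subset_of_mem ha (by simp) hb
    | succ n ih =>
      obtain ⟨c, h4, h5⟩ := h3 _ ih
      refine (isOrdinal_toZFSet _).mem_of_subset_of_mem ha (fun y hy => ?_) h4
      simp only [Nat.cast_succ, Ordinal.toZFSet_add_one, mem_insert_iff] at hy
      exact hy.elim (fun e => e ▸ h5) fun e => (ha.mem h4).mem_trans e h5
  · refine fun e => ⟨_, e, fun c => notMem_empty _ (c ▸ Ordinal.toZFSet_mem_toZFSet_iff.2
      Ordinal.omega0_pos), fun b hb => ?_⟩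
    obtain ⟨n, hn, rfl⟩ := Ordinal.mem_toZFSet_iff.1 hb
    exact ⟨_, Ordinal.toZFSet_mem_toZFSet_iff.2 (Ordinal.isSuccLimit_omega0.succ_lt hn),
      Ordinal.toZFSet_mem_toZFSet_iff.2 (Order.lt_succ n)⟩

/-- A model with a normal measure. -/
structure MU (M : S) (k W : Z) : Prop where
  zf : ZF0 M
  ac : AC M
  km : k ∈ M
  nz : NZ M k W

/-- True on a set of measure one. -/
def Bg (k W : Z) (P : Z → Prop) : Prop := ZFSet.sep P k ∈ W

theorem app_res {F : Z → Z} {T a : Z} (ha : a ∈ k) (h : F a ∈ T) :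
    app (gr F k ∩ prod k T) a = F a :=
  app_eq (mem_inter.2 ⟨mem_gr.2 ⟨a, ha, rfl⟩, pair_mem_prod.2 ⟨ha, h⟩⟩) fun y hy => by
    obtain ⟨b, -, e⟩ := mem_gr.1 (mem_inter.1 hy).1
    obtain ⟨rfl, rfl⟩ := pair_inj.1 e
    rfl

namespace MU

variable (h : MU M k W) {P Q : Z → Prop} {f g f' : Z}
include h

theorem om : Ordinal.omega0.toZFSet ∈ k := (limit_iff h.nz.2.1).1 h.nz.2.2.1

theorem mono (a : Bg k W P) (d : ZFSet.sep Q k ∈ M) (e : ∀ a ∈ k, P a → Q a) : Bg k W Q :=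
  h.nz.2.2.2.2.1 _ a _ d (fun _ y => mem_sep.2 ⟨(mem_sep.1 y).1, e _ (mem_sep.1 y).1
    (mem_sep.1 y).2⟩) fun _ y => (mem_sep.1 y).1

theorem not (d : ZFSet.sep P k ∈ M) : Bg k W (fun a => ¬ P a) ↔ ¬ Bg k W P := by
  rw [Bg, Bg, h.nz.2.2.2.2.2.1 _ d fun _ y => (mem_sep.1 y).1, not_not]
  exact iff_of_eq (congrArg (· ∈ W) (by ext; simp; tauto))

theorem top : k ∈ W := by
  convert h.nz.2.2.2.2.2.2.2.1 ∅ (isOrdinal_empty.mem_of_subset_of_mem h.nz.2.1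
    (empty_subset _) h.om) ∅ h.zf.empty (by simp) using 1
  ext; simp

theorem ex (a : Bg k W P) : ∃ a ∈ k, P a := by
  by_contra e
  refine (h.nz.2.2.2.2.2.1 k h.km fun _ => id).1 h.top ?_
  rwa [show k \ k = ZFSet.sep P k by ext; simp; grind]

theorem and (a : Bg k W P) (b : Bg k W Q) : Bg k W fun a => P a ∧ Q a := by
  have a' := h.zf.trans _ h.nz.1 _ a
  have b' := h.zf.trans _ h.nz.1 _ b
  have c : gr (fun y => cases (y = ∅) (ZFSet.sep P k) (ZFSet.sep Q k)) Ordinal.omega0.toZFSet ∈ M :=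
    h.zf.tm (fun p : Z × Z × Z => gr (fun y => cases (y = ∅) p.1 p.2.1) p.2.2)
      (ZFSet.sep P k, ZFSet.sep Q k, Ordinal.omega0.toZFSet) (by fun_prop)
      ⟨a', b', h.zf.trans _ h.km _ h.om⟩
  have := h.nz.2.2.2.2.2.2.2.1 _ h.om _ c fun y hy => by
      rw [app_gr hy]
      by_cases e : y = ∅
      · rwa [cases_pos e]
      · rwa [cases_neg e]
  have h0 := Ordinal.toZFSet_mem_toZFSet_iff.2 Ordinal.omega0_pos
  have h1 := Ordinal.toZFSet_mem_toZFSet_iff.2 Ordinal.one_lt_omega0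
  refine h.mono this ?_ fun x _ e => ⟨?_, ?_⟩
  · convert h.zf.tm (fun p : Z × Z => p.1 ∩ p.2) (ZFSet.sep P k, ZFSet.sep Q k) (by fun_prop)
      ⟨a', b'⟩ using 1
    ext; simp; tauto
  · have := e _ h0
    rw [app_gr h0, cases_pos (by simp)] at this
    exact (mem_sep.1 this).2
  · have := e _ h1
    rw [app_gr h1, cases_neg fun c => notMem_empty _
      (c ▸ Ordinal.toZFSet_mem_toZFSet_iff.2 zero_lt_one)] at this
    exact (mem_sep.1 this).2

theorem dmem (hf : f ∈ M) (hg : g ∈ M) : ZFSet.sep (fun a => app f a ∈ app g a) k ∈ M :=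
  h.zf.tm (fun p : Z × Z × Z => ZFSet.sep (fun a => app p.1 a ∈ app p.2.1 a) p.2.2) (f, g, k)
    (by fun_prop) ⟨hf, hg, h.km⟩

theorem deq (hf : f ∈ M) (hg : g ∈ M) : ZFSet.sep (fun a => app f a = app g a) k ∈ M :=
  h.zf.tm (fun p : Z × Z × Z => ZFSet.sep (fun a => app p.1 a = app p.2.1 a) p.2.2) (f, g, k)
    (by fun_prop) ⟨hf, hg, h.km⟩

theorem des (φ : Fml) {v : E.{0}} (hv : EM M v) :
    ZFSet.sep (fun a => ES M φ fun i => app (v i) a) k ∈ M :=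
  h.zf.sepU (R := fun (p : S × E.{0}) a => ES p.1 φ fun i => app (p.2 i) a) (U.esApp φ) (M, v)
    (by exact ⟨rfl, hv⟩) h.km

theorem res {T : Z} (hf : f ∈ M) (hT : T ∈ M) (e : Bg k W fun a => app f a ∈ T) :
    ∃ f' ∈ pow M (prod k T), Bg k W fun a => app f a = app f' a := by
  have := h.zf.tm (fun p : Z × Z × Z => gr (fun a => app p.1 a) p.2.1 ∩ prod p.2.1 p.2.2) (f, k, T)
    (by fun_prop) ⟨hf, h.km, hT⟩
  exact ⟨_, mem_pow.2 ⟨fun _ y => (mem_inter.1 y).2, this⟩,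
    h.mono e (h.deq hf this) fun a ha e => (app_res ha e).symm⟩

theorem exT (hg : g ∈ M) : ∃ T ∈ M, T.IsTransitive ∧ ∀ a ∈ k, app g a ∈ T := by
  obtain ⟨T, h1, h2, h3⟩ := h.zf.tc (h.zf.tm (fun p : Z × Z => img (fun a => app p.1 a) p.2) (g, k)
    (by fun_prop) ⟨hg, h.km⟩)
  exact ⟨T, h1, h2, fun a ha => h3 (mem_img.2 ⟨a, ha, rfl⟩)⟩

theorem iwf {s a : Z} (hs : s ∈ M) (ha : a ∈ s) :
    ∃ a ∈ s, ∀ c ∈ s, ¬ Bg k W fun x => app c x ∈ app a x := by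
  by_contra e
  push Not at e
  obtain ⟨c, hc, e1⟩ := h.zf.choice h.ac (R := fun (p : Z × Z × Z) a c => c ∈ p.1 ∧
    ZFSet.sep (fun x => app c x ∈ app a x) p.2.1 ∈ p.2.2) (by fun_prop) (s, k, W)
    (by exact ⟨hs, h.km, h.nz.1⟩) hs fun a ha => (e a ha).imp fun c hc =>
      ⟨h.zf.trans _ hs _ hc.1, hc⟩
  have w := h.zf.trans _ h.km _ h.om
  obtain ⟨q, hq, e2⟩ := h.zf.iter w hc (h.zf.trans _ hs _ ha)
  have e3 : ∀ n : ℕ, (app c)^[n] a ∈ s := fun n => by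
    induction n with
    | zero => exact ha
    | succ n ih => rw [Function.iterate_succ_apply']; exact (e1 _ ih).1
  have e5 : gr (fun b => ZFSet.sep (fun x => app (app c (app q b)) x ∈ app (app q b) x) k)
      Ordinal.omega0.toZFSet ∈ M := h.zf.tm (fun p : Z × Z × Z × Z =>
    gr (fun b => ZFSet.sep (fun x => app (app p.1 (app p.2.1 b)) x ∈ app (app p.2.1 b) x) p.2.2.1)
      p.2.2.2) (c, q, k, Ordinal.omega0.toZFSet) (by fun_prop) ⟨hc, hq, h.km, w⟩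
  obtain ⟨x, -, e4⟩ := h.ex (h.nz.2.2.2.2.2.2.2.1 _ h.om _ e5 fun b hb => by
    rw [app_gr hb]
    obtain ⟨n, hn, rfl⟩ := Ordinal.mem_toZFSet_iff.1 hb
    obtain ⟨n, rfl⟩ := Ordinal.lt_omega0.1 hn
    simp only [e2]
    exact (e1 _ (e3 n)).2)
  refine (wellFounded_iff_isEmpty_descending_chain.1 mem_wf).false
    ⟨fun n => app ((app c)^[n] a) x, fun n => ?_⟩
  have hb := Ordinal.toZFSet_mem_toZFSet_iff.2 (Ordinal.natCast_lt_omega0 n)
  have := e4 _ hb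
  rw [app_gr hb] at this
  simpa only [e2, Function.iterate_succ_apply'] using (mem_sep.1 this).2

theorem eqv_mem (hf : f ∈ M) (hg : g ∈ M) (e : Bg k W fun a => app f a = app f' a)
    (e' : Bg k W fun a => app f' a ∈ app g a) : Bg k W fun a => app f a ∈ app g a :=
  h.mono (h.and e e') (h.dmem hf hg) fun _ _ e => e.1 ▸ e.2

theorem symm (e : Bg k W fun a => app f a = app g a) : Bg k W fun a => app g a = app f a := by
  simpa only [eq_comm] using e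

theorem wf : WellFounded fun f g => f ∈ M ∧ g ∈ M ∧ Bg k W fun a => app f a ∈ app g a := by
  refine ⟨fun g => ?_⟩
  by_cases hg : g ∈ M
  swap
  · exact ⟨_, fun _ e => (hg e.2.1).elim⟩
  obtain ⟨T, hT, tT, e0⟩ := h.exT hg
  have hD := h.zf.pow (h.zf.prod h.km hT)
  obtain ⟨q, -, e⟩ := h.zf.recur (pr := fun (p : Z × Z × Z) b => ZFSet.sep (fun c => ZFSet.sep
    (fun x => app c x ∈ app b x) p.2.1 ∈ p.2.2) p.1) (G := fun p b g => img (fun c => app g c)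
      (ZFSet.sep (fun c => ZFSet.sep (fun x => app c x ∈ app b x) p.2.1 ∈ p.2.2) p.1))
    (by fun_prop) (by fun_prop) (_, k, W) (by exact ⟨hD, h.km, h.nz.1⟩) hD
    (fun _ _ _ y => (mem_sep.1 y).1) fun s hs _ a ha => (h.iwf hs ha).imp fun a ha =>
      ⟨ha.1, fun c hc e => ha.2 c e (mem_sep.1 hc).2⟩
  have key : ∀ y, ∀ b ∈ pow M (prod k T), app q b = y → ∀ g ∈ M, (Bg k W fun a => app g a ∈ T) →
      (Bg k W fun a => app g a = app b a) → Acc (fun f g => f ∈ M ∧ g ∈ M ∧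
        Bg k W fun a => app f a ∈ app g a) g := fun y => by
    induction y using ZFSet.inductionOn with
    | h y ih =>
      rintro b hb rfl g hg e1 e2
      refine ⟨_, fun f ⟨hf, _, e3⟩ => ?_⟩
      have e4 : Bg k W fun a => app f a ∈ T := h.mono (h.and e1 e3) (h.zf.tm
        (fun p : Z × Z × Z => ZFSet.sep (fun a => app p.1 a ∈ p.2.1) p.2.2) (f, T, k)
        (by fun_prop) ⟨hf, hT, h.km⟩) fun a _ e => tT _ e.1 e.2
      obtain ⟨f', h1, h2⟩ := h.res hf hT e4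
      have h3 : f' ∈ ZFSet.sep (fun c => ZFSet.sep (fun x => app c x ∈ app b x) k ∈ W)
          (pow M (prod k T)) := mem_sep.2 ⟨h1, h.mono (h.and h2 (h.and e2 e3))
        (h.dmem (mem_pow.1 h1).2 (mem_pow.1 hb).2) fun a _ e => e.1 ▸ e.2.1 ▸ e.2.2⟩
      refine ih _ ?_ f' h1 rfl f hf e4 h2
      rw [e b hb]
      exact mem_img.2 ⟨f', h3, app_gr h3⟩
  have e1 : Bg k W fun a => app g a ∈ T := by
    rw [Bg, show ZFSet.sep (fun a => app g a ∈ T) k = k by ext; simpa using e0 _]; exact h.top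
  obtain ⟨b, h1, h2⟩ := h.res hg hT e1
  exact key _ b h1 rfl g hg e1 h2

open Classical in
/-- A set of representatives for the predecessors. -/
noncomputable def Fs (g : Z) : Z :=
  ZFSet.sep (fun f => f ∈ M ∧ g ∈ M ∧ Bg k W fun a => app f a ∈ app g a)
    (if hg : g ∈ M then pow M (prod k (h.exT hg).choose) else ∅)

/-- The transitive collapse. -/
noncomputable def pi : Z → Z :=
  h.wf.fix fun g ih => ZFSet.range fun f : h.Fs g => ih f.1 (mem_sep.1 f.2).2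

theorem mem_pi0 {y : Z} : y ∈ h.pi g ↔ ∃ f ∈ h.Fs g, h.pi f = y := by
  rw [pi, WellFounded.fix_eq]; simp

theorem rep (hf : f ∈ M) (hg : g ∈ M) (e : Bg k W fun a => app f a ∈ app g a) :
    ∃ f' ∈ h.Fs g, Bg k W fun a => app f a = app f' a := by
  obtain ⟨h1, h2, h3⟩ := (h.exT hg).choose_spec
  obtain ⟨f', h4, h5⟩ := h.res hf h1 (h.mono e (h.zf.tm (fun p : Z × Z × Z =>
    ZFSet.sep (fun a => app p.1 a ∈ p.2.1) p.2.2) (f, _, k) (by fun_prop) ⟨hf, h1, h.km⟩)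
    fun a ha e => h2 _ (h3 a ha) e)
  exact ⟨f', mem_sep.2 ⟨by rwa [dif_pos hg], (mem_pow.1 h4).2, hg,
    h.eqv_mem (mem_pow.1 h4).2 hg (h.symm h5) e⟩, h5⟩

theorem pi_congr (f : Z) : f ∈ M → ∀ g ∈ M, (Bg k W fun a => app f a = app g a) →
    h.pi f = h.pi g := by
  induction f using h.wf.induction with
  | _ f ih =>
    intro hf g hg e
    ext y
    rw [mem_pi0, mem_pi0]
    constructor
    · rintro ⟨a, ha, rfl⟩
      have h1 := (mem_sep.1 ha).2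
      obtain ⟨b, hb, e'⟩ := h.rep h1.1 hg (h.mono (h.and e h1.2.2) (h.dmem h1.1 hg)
        fun _ _ e => e.1 ▸ e.2)
      exact ⟨b, hb, (ih a h1 h1.1 b (mem_sep.1 hb).2.1 e').symm⟩
    · rintro ⟨a, ha, rfl⟩
      have h1 := (mem_sep.1 ha).2
      obtain ⟨b, hb, e'⟩ := h.rep h1.1 hf (h.mono (h.and e h1.2.2) (h.dmem h1.1 hf)
        fun _ _ e => e.1 ▸ e.2)
      exact ⟨b, hb, ih b (mem_sep.1 hb).2 (mem_sep.1 hb).2.1 a h1.1 (h.symm e')⟩

theorem mem_pi (hg : g ∈ M) {y : Z} :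
    y ∈ h.pi g ↔ ∃ f ∈ M, (Bg k W fun a => app f a ∈ app g a) ∧ h.pi f = y := by
  rw [mem_pi0]
  refine ⟨fun ⟨f, a, b⟩ => ⟨f, (mem_sep.1 a).2.1, (mem_sep.1 a).2.2.2, b⟩, ?_⟩
  rintro ⟨f, hf, e, rfl⟩
  obtain ⟨b, hb, e'⟩ := h.rep hf hg e
  exact ⟨b, hb, (h.pi_congr f hf b (mem_sep.1 hb).2.1 e').symm⟩

theorem sub (hf : f ∈ M) (hg : g ∈ M) (e : ∀ c ∈ M, (Bg k W fun a => app c a ∈ app f a) →
    Bg k W fun a => app c a ∈ app g a) : Bg k W fun a => app f a ⊆ app g a := by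
  obtain ⟨c, hc, e1⟩ := h.zf.choice h.ac (R := fun (p : Z × Z) a y => app p.1 a ⊆ app p.2 a ∨
    (y ∈ app p.1 a ∧ y ∉ app p.2 a)) (by fun_prop) (f, g) (by exact ⟨hf, hg⟩) h.km fun a ha => by
      by_cases c : app f a ⊆ app g a
      · exact ⟨∅, h.zf.empty, Or.inl c⟩
      · obtain ⟨y, hy⟩ := not_forall.1 c
        push Not at hy
        exact ⟨y, h.zf.trans _ (h.zf.app hf (h.zf.trans _ h.km _ ha)) _ hy.1, Or.inr hy⟩
  by_contra e2
  have e3 := (h.not (h.zf.tm (fun p : Z × Z × Z => ZFSet.sep (fun a => app p.1 a ⊆ app p.2.1 a)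
    p.2.2) (f, g, k) (by fun_prop) ⟨hf, hg, h.km⟩)).2 e2
  obtain ⟨a, ha, e4, e5⟩ := h.ex (h.and e3 (e c hc (h.mono e3 (h.dmem hc hf) fun a ha e =>
    ((e1 a ha).resolve_left e).1)))
  exact ((e1 a ha).resolve_left e4).2 e5

theorem pi_inj (f : Z) : f ∈ M → ∀ g ∈ M, h.pi f = h.pi g → Bg k W fun a => app f a = app g a := by
  induction f using h.wf.induction with
  | _ f ih =>
    intro hf g hg e
    refine h.mono (h.and (h.sub hf hg fun c hc e1 => ?_) (h.sub hg hf fun c hc e1 => ?_))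
      (h.deq hf hg) fun a _ e => ZFSet.ext fun _ => ⟨fun y => e.1 y, fun y => e.2 y⟩
    · obtain ⟨b, hb, e2, e3⟩ := (h.mem_pi hg).1 (e ▸ (h.mem_pi hf).2 ⟨c, hc, e1, rfl⟩)
      exact h.eqv_mem hc hg (ih c ⟨hc, hf, e1⟩ hc b hb e3.symm) e2
    · obtain ⟨b, hb, e2, e3⟩ := (h.mem_pi hf).1 (e ▸ (h.mem_pi hg).2 ⟨c, hc, e1, rfl⟩)
      exact h.eqv_mem hc hf (h.symm (ih b ⟨hb, hf, e2⟩ hb c hc e3)) e2

theorem los (φ : Fml) : ∀ v, EM M v → (ES (h.pi '' M) φ (fun i => h.pi (v i)) ↔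
    Bg k W fun a => ES M φ fun i => app (v i) a) := by
  induction φ with
  | mem i j =>
    exact fun v hv => (h.mem_pi (hv j)).trans ⟨fun ⟨b, hb, e2, e3⟩ => h.eqv_mem (hv i) (hv j)
      (h.pi_inj _ (hv i) b hb e3.symm) e2, fun e => ⟨_, hv i, e, rfl⟩⟩
  | eq i j => exact fun v hv => ⟨h.pi_inj _ (hv i) _ (hv j), h.pi_congr _ (hv i) _ (hv j)⟩
  | neg φ ih => exact fun v hv => (not_congr (ih v hv)).trans (h.not (h.des φ hv)).symm
  | and φ ψ i1 i2 =>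
    exact fun v hv => (and_congr (i1 v hv) (i2 v hv)).trans ⟨fun e => h.and e.1 e.2, fun e =>
      ⟨h.mono e (h.des φ hv) fun _ _ => And.left, h.mono e (h.des ψ hv) fun _ _ => And.right⟩⟩
  | ex φ ih =>
    intro v hv
    have e1 : ∀ f, (fun i => h.pi (cons f v i)) = cons (h.pi f) fun i => h.pi (v i) :=
      fun f => funext fun i => by cases i <;> rfl
    have e2 : ∀ f a, (fun i => app (cons f v i) a) = cons (app f a) fun i => app (v i) a :=
      fun f a => funext fun i => by cases i <;> rfl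
    constructor
    · rintro ⟨_, ⟨f, hf, rfl⟩, e⟩
      exact h.mono ((ih _ (hv.cons hf)).1 (e1 f ▸ e)) (h.des _ hv) fun a ha e =>
        ⟨_, h.zf.app hf (h.zf.trans _ h.km _ ha), e2 f a ▸ e⟩
    · intro e
      have u : U fun p : (S × E.{0}) × Z × Z => ES p.1.1 φ (cons p.2.2 fun i =>
          app (p.1.2 i) p.2.1) := U.es φ (s := fun n (p : (S × E.{0}) × Z × Z) => cons p.2.2
            (fun i => app (p.1.2 i) p.2.1) n) (by
          rintro (_ | n)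
          exacts [U.id'.snd.snd, (U.id'.fst.snd.ev n).app U.id'.snd.fst]) U.id'.fst.fst
      obtain ⟨f, hf, e3⟩ := h.zf.choice h.ac (R := fun (p : S × E.{0}) a y =>
        ES p.1 (.ex φ) (fun i => app (p.2 i) a) → ES p.1 φ (cons y fun i => app (p.2 i) a))
        (((U.esApp _).comp (U.id'.fst.prodMk U.id'.snd.fst)).imp' u) (M, v) (by exact ⟨rfl, hv⟩)
        h.km fun a _ => by
          by_cases c : ES M (.ex φ) fun i => app (v i) a
          · exact c.imp fun y hy => ⟨hy.1, fun _ => hy.2⟩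
          · exact ⟨∅, h.zf.empty, fun e => (c e).elim⟩
      exact ⟨_, ⟨f, hf, rfl⟩, e1 f ▸ (ih _ (hv.cons hf)).2 (h.mono e (h.des _ (hv.cons hf))
        fun a ha e => (e2 f a).symm ▸ e3 a ha e)⟩

end MU

end Pool.Agent.Lib.MP_5c0be7_lc
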